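import Pool.Agent.W_MP_a3c811_h79.MF.SimE

/-! Classes at one primitive part: the index theorem at `(i, j)` splits the primitive part. -/

noncomputable section

set_option linter.unusedSectionVars false

namespace Pool.Agent.H79E

open Module Polynomial Pool.Agent.H79L Pool.Agent.B4801b Pool.Agent.H62X

universe v w

section low

variable {K : Type v} [Field K] [CharZero K] {E : Type w} [AddCommGroup E] [Module K E]
  {N f : Module.End K E} {s : ℤ → Module.End K E} {P : Finset ℤ}

/-- `f ^ m N ^ m` on a lowest vector is multiplication by a nonzero rational number -/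
lemma low_scalar (sl : Sl N f s P) {i : ℕ} {x : E} (hx : s (-(i : ℤ)) x = x) (hf : f x = 0) :
    ∀ m ≤ i, ∃ r : ℚ, r ≠ 0 ∧ (f ^ m) ((N ^ m) x) = (r : K) • x := by
  intro m
  induction m with
  | zero => intro _; exact ⟨1, one_ne_zero, by simp⟩
  | succ m ih =>
    intro hm
    obtain ⟨r, hr, h1⟩ := ih (by omega)
    have h2 := sl.f_Npow hx m
    rw [hf, map_zero, zero_sub, map_neg, map_smul] at h2
    have h3 : ((m : ℚ) + 1) * (i - m) ≠ 0 := by
      have : (m : ℚ) < i := by exact_mod_cast hm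
      exact mul_ne_zero (by positivity) (sub_ne_zero.2 this.ne')
    refine ⟨r * (((m : ℚ) + 1) * (i - m)), mul_ne_zero hr h3, ?_⟩
    rw [pow_succ, Module.End.mul_apply, h2, map_neg, map_smul, h1, smul_smul, ← neg_smul]
    congr 1
    push_cast
    ring

end low

variable {K : Type v} [Field K] [CharZero K] {E : Type w} [AddCommGroup E] [Module K E]
  [FiniteDimensional K E]
  {N f L g d : Module.End K E} {n : ℤ} {s t : ℤ → Module.End K E}
  {P D : Finset ℤ} {S : E →ₗ[K] E →ₗ[K] K} {B : Subring (Module.End K E)}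

/-- sums of rational vectors with coefficients in a basis -/
lemma rat_sum {Al : AddSubgroup E} (hrat : ∀ (q : ℚ), ∀ a ∈ Al, (q : K) • a ∈ Al) {x : E}
    (hx : x ∈ Submodule.span K (Al : Set E)) :
    ∃ y : (Module.Basis.ofVectorSpaceIndex ℚ K) →₀ E, (∀ α, y α ∈ Al) ∧
      x = y.sum fun α z => (Module.Basis.ofVectorSpace ℚ K α) • z := by
  classical
  set b := Module.Basis.ofVectorSpace ℚ K with hb
  have one : ∀ (c : K), ∀ a ∈ Al, ∃ y : (Module.Basis.ofVectorSpaceIndex ℚ K) →₀ E,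
      (∀ α, y α ∈ Al) ∧ c • a = y.sum fun α z => b α • z := by
    intro c a ha
    refine ⟨(b.repr c).mapRange (fun q : ℚ => (q : K) • a) (by simp), fun α => ?_, ?_⟩
    · rw [Finsupp.mapRange_apply]
      exact hrat _ a ha
    · rw [Finsupp.sum_mapRange_index (fun α => smul_zero _)]
      have h1 := b.linearCombination_repr c
      rw [Finsupp.linearCombination_apply] at h1
      conv_lhs => rw [← h1]
      rw [Finsupp.sum, Finsupp.sum, Finset.sum_smul]
      refine Finset.sum_congr rfl fun α _ => ?_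
      rw [smul_smul, mul_comm, Rat.smul_def]
  obtain ⟨m, c, a, rfl⟩ := Submodule.mem_span_set'.1 hx
  choose y hy1 hy2 using fun i : Fin m => one (c i) (a i) (a i).2
  refine ⟨∑ i, y i, fun α => ?_, ?_⟩
  · rw [Finsupp.finsetSum_apply]
    exact Al.sum_mem fun i _ => hy1 i α
  · rw [← Finsupp.sum_finsetSum_index (fun α => smul_zero _) (fun α z z' => smul_add _ _ _)]
    exact Finset.sum_congr rfl fun i _ => hy2 i

/-- a form with rational values on a rational subspace which is anisotropic there is nondegenerate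
on the span -/
lemma rat_nd {T : E →ₗ[K] E →ₗ[K] K} {Al : AddSubgroup E}
    (hrat : ∀ (q : ℚ), ∀ a ∈ Al, (q : K) • a ∈ Al)
    (hval : ∀ a ∈ Al, ∀ b ∈ Al, ∃ q : ℚ, T a b = q) (han : ∀ a ∈ Al, T a a = 0 → a = 0)
    {x : E} (hx : x ∈ Submodule.span K (Al : Set E)) (hx0 : ∀ a ∈ Al, T x a = 0) : x = 0 := by
  classical
  obtain ⟨y, hy, rfl⟩ := rat_sum hrat hx
  set b := Module.Basis.ofVectorSpace ℚ K with hb
  have hz : ∀ α, y α = 0 := by
    intro α
    refine han _ (hy α) ?_
    choose r hr using fun β => hval _ (hy β) _ (hy α)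
    have h1 := hx0 _ (hy α)
    rw [Finsupp.sum, map_sum, LinearMap.sum_apply] at h1
    have h2 : ∑ β ∈ y.support, r β • b β = 0 := by
      rw [← h1]
      refine Finset.sum_congr rfl fun β _ => ?_
      rw [map_smul, LinearMap.smul_apply, hr, smul_eq_mul, Rat.smul_def, mul_comm]
    by_cases hα : α ∈ y.support
    · have h3 := (linearIndependent_iff'.1 b.linearIndependent) y.support r h2 α hα
      rw [hr, h3, Rat.cast_zero]
    · rw [Finsupp.notMem_support_iff.1 hα, map_zero]
  rw [Finsupp.sum]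
  exact Finset.sum_eq_zero fun α _ => by rw [hz α, smul_zero]

/-- The rational classes with the index theorem at `(i, j)`. -/
structure RatAt (N f L g : Module.End K E) (n : ℤ) (s t : ℤ → Module.End K E)
    (S : E →ₗ[K] E →ₗ[K] K) (B : Subring (Module.End K E)) (Al : AddSubgroup E) (i j : ℕ) :
    Prop where
  stab : ∀ u ∈ B, ∀ a ∈ Al, u a ∈ Al
  rat : ∀ (q : ℚ), ∀ a ∈ Al, (q : K) • a ∈ Al
  val : ∀ a ∈ Al, ∀ b ∈ Al, ∃ q : ℚ, S a b = q
  hodge : ∀ a ∈ Al, a ∈ prim f g n s t i j → S a ((N ^ i) ((L ^ j) a)) = 0 → a = 0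

section rat

variable (h : Pol N f L g d n s t P D S B) (hB : ∀ (r : ℚ), ∀ u ∈ B, (r : K) • u ∈ B)
  {Al : AddSubgroup E} {i j : ℕ} (hC : RatAt N f L g n s t S B Al i j)
include h hB hC

/-- On a primitive part the pairing with a class is the pairing with a primitive class. -/
lemma RatAt.rep {c : E} (hc : c ∈ Al) : ∃ b ∈ Al, b ∈ prim f g n s t i j ∧
    ∀ z ∈ prim f g n s t i j, S z c = S z ((N ^ i) ((L ^ j) b)) := by
  have hbi := h.bi
  obtain ⟨e, he⟩ := exists_isoPr h hB {(i, j)}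
  have key : ∀ {x : E} {p w : ℤ}, ¬ (|p| ≤ (i : ℤ) ∧ |w| ≤ (j : ℤ)) → e x = 0 →
      At s t n p w x → x = 0 := by
    intro x p w hn hex hat
    by_contra hx0
    obtain ⟨ij, hij, h1, h2⟩ := he.supp x p w hex hat.hs hat.ht hx0
    rw [Finset.mem_singleton] at hij
    subst hij
    exact hn ⟨h1.1, h2.1⟩
  -- the component in the isotypic part
  set c0 : E := (t ((j : ℤ) + n) * s i * (1 - e)) c with hc0
  have hop : t ((j : ℤ) + n) * s i * (1 - e) ∈ B :=
    mul_mem (mul_mem (h.mt _) (h.ms _)) (sub_mem (one_mem _) he.mem)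
  have hc0A : c0 ∈ Al := hC.stab _ hop _ hc
  have hc0e : e c0 = 0 := by
    have e1 : e * (t ((j : ℤ) + n) * s i * (1 - e)) = 0 := by
      rw [← mul_assoc, ← mul_assoc, he.ct, mul_assoc (t _) e, he.cs, mul_assoc, mul_assoc,
        mul_sub, mul_one, he.idem, sub_self, mul_zero, mul_zero]
    exact LinearMap.congr_fun e1 c
  have hc0at : At s t n i j c0 := by
    rw [hc0, Module.End.mul_apply, Module.End.mul_apply]
    exact at_comp hbi _ _ _
  -- lower it
  obtain ⟨x, hx, hxc⟩ := (hbi.sl.bij i).surjOn (hbi.sl.mem_range.2 hc0at.hs)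
  have hx' : s (-(i : ℤ)) x = x := hbi.sl.mem_range.1 hx
  have hxt : t ((j : ℤ) + n) x = x := by
    refine sub_eq_zero.1 (hbi.sl.inj i i le_rfl _ ?_ ?_)
    · have e1 := LinearMap.congr_fun (hbi.st ((j : ℤ) + n) (-(i : ℤ))) x
      rw [Module.End.mul_apply, Module.End.mul_apply, hx'] at e1
      rw [map_sub, hx', e1]
    · have e1 : (N ^ i) (t ((j : ℤ) + n) x) = t ((j : ℤ) + n) ((N ^ i) x) :=
        LinearMap.congr_fun ((show Commute (t ((j : ℤ) + n)) N from
          (hbi.Nt _).symm).pow_right i).eq.symm x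
      rw [map_sub, e1, hxc, hc0at.ht, sub_self]
  obtain ⟨b, hb, hbx⟩ := (hbi.sl2.bij j).surjOn (hbi.sl2.mem_range.2
    (show (fun p => t (p + n)) (j : ℤ) x = x from hxt))
  have hb' : t (-(j : ℤ) + n) b = b := hbi.sl2.mem_range.1 hb
  have hbs : s (-(i : ℤ)) b = b := by
    refine sub_eq_zero.1 (hbi.sl2.inj j j le_rfl _ ?_ ?_)
    · change t (-(j : ℤ) + n) _ = _
      have e1 := LinearMap.congr_fun (hbi.st (-(j : ℤ) + n) (-(i : ℤ))) b
      rw [Module.End.mul_apply, Module.End.mul_apply, hb'] at e1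
      rw [map_sub, hb', ← e1]
    · have e1 : (L ^ j) (s (-(i : ℤ)) b) = s (-(i : ℤ)) ((L ^ j) b) :=
        LinearMap.congr_fun ((show Commute (s (-(i : ℤ))) L from
          (hbi.Ls _).symm).pow_right j).eq.symm b
      rw [map_sub, e1, hbx, hx', sub_self]
  have hbat : At s t n (-(i : ℤ)) (-(j : ℤ)) b := ⟨hbs, hb'⟩
  have hbc : (N ^ i) ((L ^ j) b) = c0 := by rw [hbx, hxc]
  have hbe : e b = 0 := by
    have e1 : (N ^ i) ((L ^ j) (e b)) = 0 := by
      have k1 : Commute e (N ^ i * L ^ j) :=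
        ((show Commute e N from he.cg 0).pow_right i).mul_right
          ((show Commute e L from he.cg 2).pow_right j)
      have k2 := LinearMap.congr_fun k1.eq b
      rw [Module.End.mul_apply, Module.End.mul_apply, Module.End.mul_apply, hbc, hc0e] at k2
      exact k2.symm
    have hba := hbat.of_comm0 he.cs he.ct
    have hLa : s (-(i : ℤ)) ((L ^ j) (e b)) = (L ^ j) (e b) := by
      have e2 : (L ^ j) (s (-(i : ℤ)) (e b)) = s (-(i : ℤ)) ((L ^ j) (e b)) :=
        LinearMap.congr_fun ((show Commute (s (-(i : ℤ))) L from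
          (hbi.Ls _).symm).pow_right j).eq.symm (e b)
      rw [← e2, hba.hs]
    have e3 := hbi.sl.inj i i le_rfl _ hLa e1
    exact hbi.sl2.inj j j le_rfl _ hba.ht e3
  have hbf : f b = 0 := by
    refine key (p := -(i : ℤ) - 2) (w := -(j : ℤ)) ?_ ?_ (hbat.af hbi)
    · rw [abs_of_nonpos (by omega)]
      omega
    · rw [app_comm (show e * f = f * e from he.cg 1), hbe, map_zero]
  have hbg : g b = 0 := by
    refine key (p := -(i : ℤ)) (w := -(j : ℤ) - 2) ?_ ?_ (hbat.ag hbi)
    · intro h1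
      have := h1.2
      rw [abs_of_nonpos (by omega)] at this
      omega
    · rw [app_comm (show e * g = g * e from he.cg 3), hbe, map_zero]
  have hbp : b ∈ prim f g n s t i j := prim_of hbi hbat hbf hbg
  -- `b` is a class
  have hbA : b ∈ Al := by
    obtain ⟨r1, hr1, k1⟩ := low_scalar hbi.sl2 (i := j) (x := b) hb' hbg j le_rfl
    have hLs : s (-(i : ℤ)) ((L ^ j) b) = (L ^ j) b := by rw [hbx, hx']
    have hLf : f ((L ^ j) b) = 0 := by
      have e1 : f ((L ^ j) b) = (L ^ j) (f b) :=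
        LinearMap.congr_fun ((show Commute f L from hbi.fL).pow_right j).eq b
      rw [e1, hbf, map_zero]
    obtain ⟨r2, hr2, k2⟩ := low_scalar hbi.sl (i := i) (x := (L ^ j) b) hLs hLf i le_rfl
    have k3 : (g ^ j * f ^ i) c0 ∈ Al := hC.stab _ (mul_mem (pow_mem h.mg j) (pow_mem h.mf i)) _ hc0A
    rw [Module.End.mul_apply, ← hbc, k2, map_smul, k1, smul_smul] at k3
    have k4 := hC.rat (r2 * r1)⁻¹ _ k3
    rw [smul_smul] at k4
    have k5 : (((r2 * r1)⁻¹ : ℚ) : K) * ((r2 : K) * (r1 : K)) = 1 := by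
      rw [← Rat.cast_mul, ← Rat.cast_mul, inv_mul_cancel₀ (mul_ne_zero hr2 hr1), Rat.cast_one]
    rwa [k5, one_smul] at k4
  refine ⟨b, hbA, hbp, fun z hz => ?_⟩
  obtain ⟨z1, z2, -, -⟩ := (mem_prim_iff hbi).1 hz
  have hez : e z = 0 := he.kill i j (Finset.mem_singleton_self _) z hz
  rw [hbc, hc0, Module.End.mul_apply, Module.End.mul_apply]
  have a1 := (h.adjt ((j : ℤ) + n)).2 z (s i ((1 - e) c))
  have a2 := (h.adjs (i : ℤ)).2 z ((1 - e) c)
  rw [← a1, show 2 * n - ((j : ℤ) + n) = n - j by ring, z2, ← a2, z1]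
  rw [LinearMap.sub_apply, Module.End.one_apply, map_sub, ← he.adj.1, hez, map_zero,
    LinearMap.zero_apply, sub_zero]

/-- the index theorem at `(i, j)` splits the primitive part -/
theorem RatAt.clsAt : ClsAt N f L g n s t S B Al i j where
  stab := hC.stab
  hodge := hC.hodge
  split := by
    intro y hy
    set Al' : AddSubgroup E := Al ⊓ (prim f g n s t i j).toAddSubgroup with hAl'
    have hmem : ∀ {x}, x ∈ Al' ↔ x ∈ Al ∧ x ∈ prim f g n s t i j := fun {x} => Iff.rfl
    have hset : ((Al : Set E) ∩ prim f g n s t i j) = (Al' : Set E) := rfl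
    set A := Submodule.span K (Al' : Set E) with hA
    have hAp : ∀ a ∈ A, a ∈ prim f g n s t i j := by
      intro a ha
      exact Submodule.span_le.2 (fun x hx => (hmem.1 hx).2) ha
    set M : Module.End K E := N ^ i * L ^ j with hM
    have hMB : M ∈ B := mul_mem (pow_mem h.mN i) (pow_mem h.mL j)
    let T : E →ₗ[K] E →ₗ[K] K := (LinearMap.lcomp K K M) ∘ₗ S
    have hT : ∀ x y, T x y = S x ((N ^ i) ((L ^ j) y)) := fun x y => rfl
    have nd : ∀ x ∈ A, (∀ a ∈ Al', T x a = 0) → x = 0 := by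
      intro x hx hx0
      refine rat_nd (T := T) (Al := Al') ?_ ?_ ?_ hx hx0
      · intro q a ha
        exact hmem.2 ⟨hC.rat q a (hmem.1 ha).1, Submodule.smul_mem _ _ (hmem.1 ha).2⟩
      · intro a ha b hb
        exact hC.val a (hmem.1 ha).1 _ (hC.stab M hMB b (hmem.1 hb).1)
      · intro a ha h0
        exact hC.hodge a (hmem.1 ha).1 (hmem.1 ha).2 h0
    let F : E →ₗ[K] (A →ₗ[K] K) := (LinearMap.lcomp K K A.subtype) ∘ₗ T
    have hinj : Function.Injective (F ∘ₗ A.subtype) := by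
      rw [← LinearMap.ker_eq_bot, LinearMap.ker_eq_bot']
      intro x hx
      exact Subtype.ext (nd x x.2 fun a ha =>
        LinearMap.congr_fun hx ⟨a, Submodule.subset_span ha⟩)
    have hdim : finrank K A = finrank K (A →ₗ[K] K) := by
      rw [Module.finrank_linearMap_self]
    have hsur := (LinearMap.injective_iff_surjective_of_finrank_eq_finrank hdim).1 hinj
    obtain ⟨a, ha⟩ := hsur (F y)
    refine ⟨a, by rw [hset]; exact a.2, y - a,
      ⟨Submodule.sub_mem _ hy (hAp a a.2), fun c hc => ?_⟩, by abel⟩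
    obtain ⟨b, hb, hbp, hrep⟩ := hC.rep h hB hc
    rw [hrep _ (Submodule.sub_mem _ hy (hAp a a.2))]
    have h1 : F (a : E) ⟨b, Submodule.subset_span (hmem.2 ⟨hb, hbp⟩)⟩ =
        F y ⟨b, Submodule.subset_span (hmem.2 ⟨hb, hbp⟩)⟩ := LinearMap.congr_fun ha _
    have h2 : T (a : E) b = T y b := h1
    rw [← hT, map_sub, LinearMap.sub_apply, h2, sub_self]

end rat

end Pool.Agent.H79E
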