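import Pool.Agent.W_MP_a3c811_h79.MF.Cls
import Pool.Agent.W_MP_a3c811_h79.MF.SimC
import Pool.Agent.W_a3c811_h62w.TrA
import Pool.Agent.W_a3c811_h62w.TrH

/-! Self-adjoint endomorphisms of square zero of the primitive parts: from the strata to the
`E_1`-term, for an endomorphism `φ` which only has to commute with the structure. -/

noncomputable section

set_option linter.unusedSectionVars false

namespace Pool.Agent.H62S

open Module Polynomial Pool.Agent.WeilH_h6 Pool.Agent.WeilH_h6.VarClass Pool.Agent.H62D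
  Pool.Agent.H62A Pool.Agent.H79L Pool.Agent.H62X Pool.Agent.H79E

universe u v w

variable {k : Type u} [Field k] {𝒱 : VarClass k} {I : Type} {K : I → Type v} [∀ l, Field (K l)]
  [∀ l, CharZero (K l)] {W : ∀ l, Weil.{u, v, w} 𝒱 (K l)} {X : Strata W}

namespace Strata

variable {l : I} {BY : Subring (Module.End (K l) (Tot (W l) X.Y))}

variable (X l BY) in
/-- Every member of `BY` which maps the primitive part `(i, j)` into itself, is self-adjoint there
for the form `Tr (x L^j y)` and of square zero, vanishes there. -/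
def YGd (i j : ℕ) : Prop :=
  ∀ U ∈ BY, (∀ x ∈ X.prim l i j, U x ∈ X.prim l i j) →
    (∀ x ∈ X.prim l i j, ∀ y ∈ X.prim l i j,
      tform (W l) X.Y (U x) ((X.L l ^ j) y) = tform (W l) X.Y x ((X.L l ^ j) (U y))) →
    (∀ x ∈ X.prim l i j, U (U x) = 0) → ∀ x ∈ X.prim l i j, U x = 0

section gd

variable (hY : X.YRing l BY)
include hY

omit hY in
/-- a primitive vector of the `E_1`-term is the lowest copy of its first component -/
lemma ins_slice_eprim (hW : Compatible W) {i j : ℕ} {z : Tot (W l) X.EY}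
    (hz : z ∈ X.eprim l i j) : X.ins l 0 (X.slice l 0 z) = z := by
  obtain ⟨h1, h2⟩ := X.eprim_slice hW hz
  refine X.ext_slice l fun c a _ => ?_
  rcases Nat.eq_zero_or_pos c with rfl | hc
  · rw [(X.ins_eprim hW h1).2]
  · rw [h2 c hc, slice_ins, if_neg (by omega)]
    rfl

/-- the condition on the strata gives the condition on the `E_1`-term -/
theorem gd_of (hW : Compatible W) {i j : ℕ} (h : X.YGd l BY i j) :
    Gd (K := K l) (E := Tot (W l) X.EY) (X.eN l) (X.eNd l) (X.eL l) (X.eLam l) (X.ed l) X.n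
      (posProj (W l) X.EY X.epos) (degProj (W l) X.EY X.epos X.etw) (X.eS l)
      (X.bring l BY hY.pos) i j := by
  intro u hu _ hup hself hsq x hx
  by_cases hij : X.n < i + j
  · rw [eprim_gt hW hij hx, map_zero]
  have hi : i ≤ X.n := by omega
  have hback : ∀ z ∈ X.eprim l i j, X.ins l 0 (X.slice l 0 z) = z :=
    fun z hz => ins_slice_eprim hW hz
  have hU : ∀ y ∈ X.prim l i j, X.block l u 0 0 y = 0 := by
    refine h _ (hu 0 0) ?_ ?_ ?_
    · intro y hy
      exact (X.eprim_slice hW (hup _ (X.ins_eprim hW hy).1)).1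
    · intro y hy y' hy'
      have h5 := hself _ (X.ins_eprim hW hy).1 _ (X.ins_eprim hW hy').1
      have h6 := X.eprim_slice hW (hup _ (X.ins_eprim hW hy).1)
      have h7 := X.eprim_slice hW (X.ins_eprim hW hy).1
      change X.eform l _ _ = X.eform l _ _ at h5
      rw [X.eform_prim l h6.1 h6.2 hi, X.eform_prim l h7.1 h7.2 hi, (X.ins_eprim hW hy).2,
        (X.ins_eprim hW hy').2] at h5
      exact h5
    · intro y hy
      have h7 := hback _ (hup _ (X.ins_eprim hW hy).1)
      change X.slice l 0 (u (X.ins l 0 (X.slice l 0 (u (X.ins l 0 y))))) = 0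
      rw [h7, hsq _ (X.ins_eprim hW hy).1, map_zero]
  obtain ⟨h1, h2⟩ := X.eprim_slice hW hx
  have h10 : X.slice l 0 (u x) = 0 := by
    have h9 := hU _ h1
    change X.slice l 0 (u (X.ins l 0 (X.slice l 0 x))) = 0 at h9
    rwa [hback x hx] at h9
  rw [← hback _ (hup x hx), h10, map_zero]

/-- the pairs with `n < i + j` -/
theorem gd_gt (hW : Compatible W) {i j : ℕ} (hij : X.n < i + j) :
    Gd (K := K l) (E := Tot (W l) X.EY) (X.eN l) (X.eNd l) (X.eL l) (X.eLam l) (X.ed l) X.n
      (posProj (W l) X.EY X.epos) (degProj (W l) X.EY X.epos X.etw) (X.eS l)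
      (X.bring l BY hY.pos) i j := by
  intro u _ _ _ _ _ x hx
  rw [eprim_gt hW hij hx, map_zero]

end gd

section com

variable {φ : Module.End (K l) (Tot (W l) X.Y)} (hY : X.YRing l BY)
  (hφ : ∀ U ∈ BY, φ * U = U * φ)
include hY hφ

lemma com_gep (j : ℕ) (x : Tot (W l) X.Y) : φ (X.gep l j x) = X.gep l j (φ x) :=
  LinearMap.congr_fun (hφ _ (X.gep_mem l BY hY.pos j)) x

lemma com_slice (i : ℕ) (x : Tot (W l) X.EY) :
    X.slice l i (X.lift l 0 φ x) = φ (X.slice l i x) := by
  have h1 : φ (X.slice l i x) = X.gep l i (φ (X.slice l i x)) := by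
    rw [← com_gep hY hφ, gep_slice]
  rw [h1]
  funext a
  rw [gep_apply]
  split_ifs with hi
  · rw [slice_lift X l _ _ _ _ _ hi, if_pos (Nat.zero_le _), Nat.sub_zero]
  · exact slice_of_lt X l _ (by omega)

/-- the endomorphism of the `E_1`-term commutes with the ring -/
theorem com_bring : ∀ u ∈ X.bring l BY hY.pos,
    (X.lift l 0 φ : Module.End (K l) (Tot (W l) X.EY)) * u = u * X.lift l 0 φ := by
  intro u hu
  refine LinearMap.ext fun x => ?_
  refine X.ext_slice l fun i a hi => ?_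
  have hux : ∀ x i, X.slice l i (u x) =
      ∑ j ∈ Finset.range (X.n + 1), X.block l u i j (X.slice l j x) := by
    intro x i
    conv_lhs => rw [← X.sum_ins l x]
    rw [map_sum, map_sum]
    rfl
  change X.slice l i (X.lift l 0 φ (u x)) a = X.slice l i (u (X.lift l 0 φ x)) a
  rw [com_slice hY hφ, hux, hux, map_sum, Finset.sum_apply, Finset.sum_apply]
  refine Finset.sum_congr rfl fun j _ => ?_
  rw [com_slice hY hφ]
  exact congrFun (LinearMap.congr_fun (hφ _ (hu i j)) (X.slice l j x)) a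

/-- the characteristic polynomials on the transcendental parts -/
theorem com_hasCP (hcl : ∀ U ∈ BY, ∀ x, X.IsClass l x → X.IsClass l (U x))
    (hW : Compatible W) {i j : ℕ} {P : (K l)[X]} (h : HasCP φ (X.tpart l i j) P) :
    HasCP (X.lift l 0 φ) (Tp (K := K l) (E := Tot (W l) X.EY) (X.eNd l) (X.eLam l) X.n
      (posProj (W l) X.EY X.epos) (degProj (W l) X.EY X.epos X.etw) (X.eS l)
      (X.eclasses l) i j) P := by
  have hpc : ∀ p x, X.IsClass l x → X.IsClass l (posProj (W l) X.Y X.ilev p x) :=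
    fun p x => hcl _ (hY.pos p) x
  have hst : ∀ x ∈ Tp (K := K l) (E := Tot (W l) X.EY) (X.eNd l) (X.eLam l) X.n
      (posProj (W l) X.EY X.epos) (degProj (W l) X.EY X.epos X.etw) (X.eS l)
      (X.eclasses l) i j, X.lift l 0 φ x ∈ Tp (K := K l) (E := Tot (W l) X.EY) (X.eNd l)
        (X.eLam l) X.n (posProj (W l) X.EY X.epos) (degProj (W l) X.EY X.epos X.etw) (X.eS l)
        (X.eclasses l) i j := by
    intro x hx
    rw [mem_Tp hW hpc] at hx ⊢
    obtain ⟨h1, h2⟩ := hx
    obtain ⟨D, hP⟩ := hY.pol hW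
    refine ⟨?_, ?_⟩
    · have e1 := com_bring hY hφ
      obtain ⟨D, hD⟩ := (X.toLefschetz hW).bi l
      obtain ⟨a1, a2, a3, a4⟩ := (mem_prim_iff hD).1 h1
      refine (mem_prim_iff hD).2 ⟨?_, ?_, ?_, ?_⟩
      · have := LinearMap.congr_fun (e1 _ (hP.ms (-(i : ℤ)))) x
        rw [Module.End.mul_apply, Module.End.mul_apply] at this
        exact this.symm.trans (congrArg _ a1)
      · have := LinearMap.congr_fun (e1 _ (hP.mt (X.n - j))) x
        rw [Module.End.mul_apply, Module.End.mul_apply] at this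
        exact this.symm.trans (congrArg _ a2)
      · have := LinearMap.congr_fun (e1 _ hP.mf) x
        rw [Module.End.mul_apply, Module.End.mul_apply] at this
        exact this.symm.trans ((congrArg _ a3).trans (map_zero _))
      · have := LinearMap.congr_fun (e1 _ hP.mg) x
        rw [Module.End.mul_apply, Module.End.mul_apply] at this
        exact this.symm.trans ((congrArg _ a4).trans (map_zero _))
    · rw [com_slice hY hφ]
      exact h.1 _ h2
  let e : Tp (K := K l) (E := Tot (W l) X.EY) (X.eNd l) (X.eLam l) X.n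
      (posProj (W l) X.EY X.epos) (degProj (W l) X.EY X.epos X.etw) (X.eS l)
      (X.eclasses l) i j ≃ₗ[K l] X.tpart l i j := LinearEquiv.ofBijective
    (((X.slice l 0) ∘ₗ Submodule.subtype _).codRestrict _ fun x =>
      ((mem_Tp hW hpc).1 x.2).2) ⟨by
        rw [← LinearMap.ker_eq_bot, LinearMap.ker_eq_bot']
        intro x hx
        have h1 : X.slice l 0 (x : Tot (W l) X.EY) = 0 := congrArg Subtype.val hx
        have h2 := (X.eprim_slice hW ((mem_Tp hW hpc).1 x.2).1).2
        refine Subtype.ext (X.ext_slice l fun c a _ => ?_)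
        rw [ZeroMemClass.coe_zero, map_zero]
        rcases Nat.eq_zero_or_pos c with rfl | hc
        · rw [h1]
        · rw [h2 c hc], by
        intro y
        obtain ⟨h1, h2⟩ := X.ins_eprim hW y.2.1
        exact ⟨⟨X.ins l 0 y, (mem_Tp hW hpc).2 ⟨h1, by rw [h2]; exact y.2⟩⟩, Subtype.ext h2⟩⟩
  exact hasCP_equiv e hst (fun x => com_slice hY hφ 0 _) h

end com

section cls

variable (hY : X.YRing l BY) (hcl : ∀ U ∈ BY, ∀ x, X.IsClass l x → X.IsClass l (U x))
include hY hcl

/-- the classes of cycles on the `E_1`-term, with the index theorem at `(i, j)` only -/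
theorem ratAt (hW : Compatible W) {i j : ℕ}
    (hH : ∀ x ∈ X.prim l i j, X.IsClass l x → X.pair l x ((X.L l ^ j) x) = 0 → x = 0) :
    RatAt (K := K l) (E := Tot (W l) X.EY) (X.eN l) (X.eNd l) (X.eL l) (X.eLam l) X.n
      (posProj (W l) X.EY X.epos) (degProj (W l) X.EY X.epos X.etw) (X.eS l)
      (X.bring l BY hY.pos) (X.eclasses l) i j where
  stab := by
    intro u hu x hx c
    have hux : X.slice l c (u x) =
        ∑ j ∈ Finset.range (X.n + 1), X.block l u c j (X.slice l j x) := by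
      conv_lhs => rw [← X.sum_ins l x]
      rw [map_sum, map_sum]
      rfl
    rw [hux]
    exact AddSubgroup.sum_mem _ fun j _ => hcl _ (hu c j) _ (hx j)
  rat := by
    intro q x hx c
    rw [map_smul]
    exact X.smul_classes q (hx c)
  val := by
    intro x hx y hy
    have h1 : X.eS l x y = ∑ j ∈ Finset.range (X.n + 1), ∑ j' ∈ Finset.range (X.n + 1),
        tform (W l) X.Y (X.slice l j x)
          (posProj (W l) X.Y X.ilev ((j + j' : ℕ) : ℤ) (X.slice l j' y)) := by
      change X.eform l x y = _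
      unfold eform
      refine Finset.sum_congr rfl fun j _ => Finset.sum_congr rfl fun j' _ => ?_
      rw [lform_eq]
      rfl
    choose q hq using fun j j' => X.tform_rat hW (hx j)
      (hcl _ (hY.pos ((j + j' : ℕ) : ℤ)) _ (hy j'))
    refine ⟨∑ j ∈ Finset.range (X.n + 1), ∑ j' ∈ Finset.range (X.n + 1), q j j', ?_⟩
    rw [h1]
    push_cast
    exact Finset.sum_congr rfl fun j _ => Finset.sum_congr rfl fun j' _ => hq j j'
  hodge := by
    intro x hx hxp h0
    obtain ⟨h1, h2⟩ := X.eprim_slice hW hxp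
    have h3 : X.slice l 0 x = 0 := by
      by_cases hi : i ≤ X.n
      · refine hH _ h1 (hx 0) ?_
        change X.eform l x _ = 0 at h0
        rw [X.eform_prim l h1 h2 hi] at h0
        exact h0
      · funext a
        have := X.lev_le a
        rw [(mem_lpos l).1 h1.1.2 a (by
          intro h4
          have h5 : X.lev a = i := by exact_mod_cast h4
          omega)]
        rfl
    refine X.ext_slice l fun c a _ => ?_
    rw [map_zero]
    rcases Nat.eq_zero_or_pos c with rfl | hc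
    · rw [h3]
    · rw [h2 c hc]

/-- Simple common eigenvalues at `(i, j)`, on the strata. -/
theorem gd_simple (hW : Compatible W) {φ : Module.End (K l) (Tot (W l) X.Y)}
    (hφ : ∀ U ∈ BY, φ * U = U * φ) {R : ℕ → ℕ → (K l)[X]} {i j : ℕ}
    (hH : ∀ x ∈ X.prim l i j, X.IsClass l x → X.pair l x ((X.L l ^ j) x) = 0 → x = 0)
    (hR : ∀ i j, i + j ≤ X.n → HasCP φ (X.tpart l i j) (R i j))
    (hs : ∀ q : (K l)[X], Irreducible q → q ∣ R i j →
      (∃ i' j', i' + j' ≤ X.n ∧ Nb i j i' j' ∧ q ∣ R i' j') → ¬ q ^ 2 ∣ R i j) :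
    Gd (K := K l) (E := Tot (W l) X.EY) (X.eN l) (X.eNd l) (X.eL l) (X.eLam l) (X.ed l) X.n
      (posProj (W l) X.EY X.epos) (degProj (W l) X.EY X.epos X.etw) (X.eS l)
      (X.bring l BY hY.pos) i j := by
  by_cases hij : X.n < i + j
  · exact gd_gt hY hW hij
  obtain ⟨D, hP⟩ := hY.pol hW
  have hC := (ratAt hY hcl hW hH).clsAt hP (fun r u hu => hY.rat_mem r hu)
  set R' : ℕ → ℕ → (K l)[X] := fun i j => if i + j ≤ X.n then R i j else 1 with hR'
  have hR1 : ∀ i j, HasCP φ (X.tpart l i j) (R' i j) := by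
    intro i j
    by_cases h1 : i + j ≤ X.n
    · rw [hR']
      simp only [if_pos h1]
      exact hR i j h1
    · rw [hR']
      simp only [if_neg h1]
      have h0 : ∀ x ∈ X.tpart l i j, x = 0 := fun x hx => prim_gt (not_le.1 h1) hx.1
      refine ⟨fun x hx => by rw [h0 x hx, map_zero]; exact Submodule.zero_mem _, ?_⟩
      have h3 : finrank (K l) (X.tpart l i j) = 0 := by
        rw [Submodule.finrank_eq_zero, Submodule.eq_bot_iff]
        exact h0
      refine Polynomial.eq_one_of_monic_natDegree_zero (LinearMap.charpoly_monic _) ?_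
      rw [LinearMap.charpoly_natDegree, h3]
  have e0 : R' i j = R i j := if_pos (not_lt.1 hij)
  refine simple_gd hP hC (com_bring hY hφ) (R := R')
    (com_hasCP hY hφ hcl hW (hR1 i j)) (fun i' j' _ => com_hasCP hY hφ hcl hW (hR1 i' j')) ?_
  intro q hq hqd ⟨i', j', hn, hqd'⟩
  rw [e0] at hqd ⊢
  refine hs q hq hqd ⟨i', j', ?_, hn, ?_⟩
  · by_contra h1
    rw [hR'] at hqd'
    simp only [if_neg h1] at hqd'
    exact hq.not_isUnit (isUnit_of_dvd_one hqd')
  · rw [hR'] at hqd'
    simp only at hqd'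
    split_ifs at hqd' with h1
    · exact hqd'
    · exact absurd (isUnit_of_dvd_one hqd') hq.not_isUnit

end cls

section ring

variable (X l) in
/-- The motivic endomorphisms which commute with `φ` and whose adjoint commutes with `φ`. -/
def aring (hW : Compatible W) (φ : Module.End (K l) (Tot (W l) X.Y)) :
    Subring (Module.End (K l) (Tot (W l) X.Y)) where
  carrier := {U | U ∈ (MA hW X.Y).map
      (Pi.evalRingHom (fun l => Module.End (K l) (Tot (W l) X.Y)) l) ∧ φ * U = U * φ ∧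
    ∃ U', Adj (tform (W l) X.Y) U U' ∧ φ * U' = U' * φ}
  mul_mem' := by
    rintro U V ⟨h1, h2, U', h3, h4⟩ ⟨k1, k2, V', k3, k4⟩
    refine ⟨Subring.mul_mem _ h1 k1, ?_, V' * U', h3.mul k3, ?_⟩
    · rw [← mul_assoc, h2, mul_assoc, k2, mul_assoc]
    · rw [← mul_assoc, k4, mul_assoc, h4, mul_assoc]
  one_mem' := ⟨Subring.one_mem _, by rw [mul_one, one_mul], 1, Adj.one, by rw [mul_one, one_mul]⟩
  add_mem' := by
    rintro U V ⟨h1, h2, U', h3, h4⟩ ⟨k1, k2, V', k3, k4⟩
    exact ⟨Subring.add_mem _ h1 k1, by rw [mul_add, add_mul, h2, k2], U' + V', h3.add k3,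
      by rw [mul_add, add_mul, h4, k4]⟩
  zero_mem' := ⟨Subring.zero_mem _, by rw [mul_zero, zero_mul], 0, Adj.zero,
    by rw [mul_zero, zero_mul]⟩
  neg_mem' := by
    rintro U ⟨h1, h2, U', h3, h4⟩
    have key : ∀ {V : Module.End (K l) (Tot (W l) X.Y)}, φ * V = V * φ → φ * -V = -V * φ := by
      intro V hV
      refine LinearMap.ext fun x => ?_
      change φ (-(V x)) = -(V (φ x))
      rw [map_neg]
      exact congrArg Neg.neg (LinearMap.congr_fun hV x)
    exact ⟨Subring.neg_mem _ h1, key h2, -U', h3.neg, key h4⟩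

lemma mem_aring (hW : Compatible W) {φ U : Module.End (K l) (Tot (W l) X.Y)} :
    U ∈ X.aring l hW φ ↔ (∃ V : ∀ l, TEnd (W l) X.Y, Motivic W X.Y V ∧ V l = U) ∧
      φ * U = U * φ ∧ ∃ U', Adj (tform (W l) X.Y) U U' ∧ φ * U' = U' * φ := by
  constructor
  · rintro ⟨⟨V, hV, rfl⟩, h2, h3⟩
    exact ⟨⟨V, hV, rfl⟩, h2, h3⟩
  · rintro ⟨⟨V, hV, rfl⟩, h2, h3⟩
    exact ⟨⟨V, hV, rfl⟩, h2, h3⟩

lemma adj_unique {U U' T : Module.End (K l) (Tot (W l) X.Y)}
    (h1 : Adj (tform (W l) X.Y) U U')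
    (h2 : ∀ x y, tform (W l) X.Y (U x) y = tform (W l) X.Y x (T y)) : U' = T := by
  refine LinearMap.ext fun y => sub_eq_zero.1 ?_
  refine right_nd (tform (W l) X.Y) (tform_nd (W l) X.Y) _ fun x => ?_
  rw [map_sub, ← h1.1, h2, sub_self]

/-- the projectors of the levels are self-adjoint -/
lemma tform_posl (p : ℤ) (x y : Tot (W l) X.Y) :
    tform (W l) X.Y (posProj (W l) X.Y X.ilev p x) y =
      tform (W l) X.Y x (posProj (W l) X.Y X.ilev p y) := by
  rw [tform_apply, tform_apply]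
  refine Finset.sum_congr rfl fun a _ => ?_
  rw [posProj_ilev_apply, posProj_ilev_apply]
  split_ifs
  · rfl
  · rw [zero_mul, mul_zero]

/-- The endomorphism `φ` preserves levels and degrees and commutes with `res`, `gys` and `L`. -/
structure Com (X : Strata W) (l : I) (φ : Module.End (K l) (Tot (W l) X.Y)) : Prop where
  pos : ∀ p : ℤ, φ * (posProj (W l) X.Y X.ilev p) = posProj (W l) X.Y X.ilev p * φ
  deg : ∀ w : ℤ, φ * (degProj (W l) X.Y X.ilev 0 w) = degProj (W l) X.Y X.ilev 0 w * φ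
  res : φ * (X.res l) = X.res l * φ
  gys : φ * (X.gys l) = X.gys l * φ
  L : φ * (X.L l) = X.L l * φ
  Lam : φ * (X.Lam l) = X.Lam l * φ

lemma com_one : Com X l 1 where
  pos _ := by rw [one_mul, mul_one]
  deg _ := by rw [one_mul, mul_one]
  res := by rw [one_mul, mul_one]
  gys := by rw [one_mul, mul_one]
  L := by rw [one_mul, mul_one]
  Lam := by rw [one_mul, mul_one]

/-- the conditions of the statement -/
lemma com_of {φ : TEnd (W l) X.Y} (h1 : LevBidegree (W l) X.Y X.lev 0 0 φ)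
    (h2 : ComT (W l) X.Y φ (X.res l)) (h3 : ComT (W l) X.Y φ (X.gys l))
    (h4 : ComT (W l) X.Y φ (X.L l)) : Com X l φ where
  pos p := by
    have h5 := comp_posProj (W l) X.Y X.ilev 0 h1 p
    rw [add_zero] at h5
    exact h5
  deg w := by
    have h5 := comp_degProj (W l) X.Y X.ilev 0 h1 w
    rw [add_zero] at h5
    exact h5
  res := LinearMap.ext h2
  gys := LinearMap.ext h3
  L := LinearMap.ext h4
  Lam := by
    obtain ⟨P, hP⟩ := X.exists_sl l
    exact hP.comm_f φ (LinearMap.ext h4) (fun p => by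
      have h5 := comp_degProj (W l) X.Y X.ilev 0 h1 (p + X.n)
      rw [add_zero] at h5
      exact h5)

variable {φ : Module.End (K l) (Tot (W l) X.Y)} (hW : Compatible W) (hφ : Com X l φ)
include hφ

/-- the ring has all the properties -/
theorem yring_aring [DecidableEq X.J] : X.YRing l (X.aring l hW φ) where
  pos p := (mem_aring hW).2 ⟨⟨_, motivic_posProj hW p, rfl⟩, hφ.pos p,
    _, ⟨tform_posl p, tform_posl p⟩, hφ.pos p⟩
  deg w := by
    refine (mem_aring hW).2 ⟨⟨_, motivic_degProj (fun a n => ?_) w, rfl⟩, hφ.deg w,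
      _, ⟨X.tform_deg l w, fun x y => ?_⟩, hφ.deg (2 * X.n - w)⟩
    · exact (X.toLefschetz hW).kunneth hW (⟨a, ⟨0, Nat.succ_pos _⟩⟩ : X.Idx) n
    · have := X.tform_deg l (2 * X.n - w) x y
      rwa [show 2 * (X.n : ℤ) - (2 * X.n - w) = w by ring] at this
  res := (mem_aring hW).2 ⟨⟨_, X.motivic.1, rfl⟩, hφ.res,
    X.gys l, ⟨(X.adjoint l).1, X.adj_gys l⟩, hφ.gys⟩
  gys := (mem_aring hW).2 ⟨⟨_, X.motivic.2.1, rfl⟩, hφ.gys,
    X.res l, ⟨X.adj_gys l, (X.adjoint l).1⟩, hφ.res⟩
  L := (mem_aring hW).2 ⟨⟨_, X.motivic.2.2.1, rfl⟩, hφ.L,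
    X.L l, ⟨(X.adjoint l).2, (X.adjoint l).2⟩, hφ.L⟩
  Lam := (mem_aring hW).2 ⟨⟨_, X.motivic.2.2.2, rfl⟩, hφ.Lam,
    X.Lam l, ⟨X.adj_Lam l, X.adj_Lam l⟩, hφ.Lam⟩
  rat := by
    intro q U hU
    obtain ⟨⟨V, hV, rfl⟩, h2, U', h3, h4⟩ := (mem_aring hW).1 hU
    refine (mem_aring hW).2 ⟨⟨_, motivic_smul q hV, rfl⟩, ?_, (q : K l) • U', ?_, ?_⟩
    · rw [mul_smul_comm, smul_mul_assoc, h2]
    · refine ⟨fun x y => ?_, fun x y => ?_⟩
      · rw [LinearMap.smul_apply, LinearMap.smul_apply, map_smul, map_smul,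
          LinearMap.smul_apply, h3.1]
      · rw [LinearMap.smul_apply, LinearMap.smul_apply, map_smul, map_smul,
          LinearMap.smul_apply, h3.2]
    · rw [mul_smul_comm, smul_mul_assoc, h4]
  star := by
    intro U hU
    obtain ⟨⟨V, hV, rfl⟩, h2, U', h3, h4⟩ := (mem_aring hW).1 hU
    obtain ⟨V', hV', k3, k4⟩ := motivic_adj hW hV
    have hadj : Adj (tform (W l) X.Y) (V l) (V' l) := ⟨k3 l, k4 l⟩
    have he : V' l = U' := adj_unique hadj h3.1
    exact ⟨V' l, (mem_aring hW).2 ⟨⟨V', hV', rfl⟩, by rw [he, h4], V l, hadj.symm, h2⟩, hadj⟩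

omit hφ in
lemma com_aring : ∀ U ∈ X.aring l hW φ, φ * U = U * φ :=
  fun _ hU => ((mem_aring hW).1 hU).2.1

omit hφ in
theorem class_aring : ∀ U ∈ X.aring l hW φ, ∀ x, X.IsClass l x → X.IsClass l (U x) := by
  intro U hU x hx
  obtain ⟨⟨V, hV, rfl⟩, -⟩ := (mem_aring hW).1 hU
  exact isClass_map hW hV hx

end ring

end Strata

end Pool.Agent.H62S
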