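import Pool.Agent.W_a3c811_h62w.StCoh

/-! Definition for the statement: self-adjoint endomorphisms with square zero. -/

noncomputable section

namespace Pool.Agent.H62S

open Pool.Agent.WeilH_h6 Pool.Agent.WeilH_h6.VarClass Pool.Agent.H62A

universe u v w

section linear

variable {K : Type v} [Field K] {E : Type w} [AddCommGroup E] [Module K E]

/-- If `S` has values in `P`, is self-adjoint for `B` and has square zero, then `S = 0`. -/
def SqFor (B : E → E → K) (S : E →ₗ[K] E) (P : Submodule K E) : Prop :=
  (∀ x, S x ∈ P) → AdjFor B S S → SqZ S → ∀ x, S x = 0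

end linear

variable {k : Type u} [Field k] {𝒱 : VarClass k} {I : Type} {K : I → Type v} [∀ l, Field (K l)]
  {W : ∀ l, Weil.{u, v, w} 𝒱 (K l)}

namespace Strata

variable (X : Strata W) (l : I)

/-- No nonzero motivic endomorphism of the sum of the `H(Y a)` with values in the primitive part
`(i, j)` which is self-adjoint for `Tr (x y)` has square zero in the theory `l`. -/
def NoSquareZero (i j : ℕ) : Prop :=
  ∀ S : ∀ l, TEnd (W l) X.Y, Motivic W X.Y S →
    SqFor (pairing (W l) X.Y) (S l) (X.prim l i j)

end Strata

end Pool.Agent.H62S
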