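import Pool.Agent.W_MP_a3c811_h79.MF.StBase

/-! Definitions for the statement of the numerical criterion. -/

noncomputable section

namespace Pool.Agent.H62S

open Polynomial Pool.Agent.WeilH_h6 Pool.Agent.WeilH_h6.VarClass Pool.Agent.H62A

universe u v w

section linear

variable {K : Type v} [Field K] {E : Type w} [AddCommGroup E] [Module K E]

/-- The commutator. -/
def brk (a b : E →ₗ[K] E) : E →ₗ[K] E := a ∘ₗ b - b ∘ₗ a

/-- `d d' + d' d` with `d' = [f, [g, d]]`. -/
def lapOf (f g d : E →ₗ[K] E) : E →ₗ[K] E := d ∘ₗ brk f (brk g d) + brk f (brk g d) ∘ₗ d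

/-- If `U` has values in `P` and `B (x, L^j y) = 0` for all values `x`, `y` of `U`, then `U = 0`. -/
def AnisoFor (B : E → E → K) (L U : E →ₗ[K] E) (P : Submodule K E) (j : ℕ) : Prop :=
  (∀ x, U x ∈ P) → (∀ x y, B (U x) ((L ^ j) (U y)) = 0) → U = 0

/-- The characteristic polynomial of `T` is the rational polynomial `χ`. -/
def HasCharpoly [CharZero K] [FiniteDimensional K E] (T : E →ₗ[K] E) (χ : ℚ[X]) : Prop :=
  T.charpoly = χ.map (algebraMap ℚ K)

end linear

section single

variable {k : Type u} [Field k] {𝒱 : VarClass k} {K : Type v} [Field K] (W : Weil.{u, v, w} 𝒱 K)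
  {J : Type} (Y : J → 𝒱.Obj) [Fintype J]

theorem finite_tot : FiniteDimensional K (Tot W Y) := by
  have : ∀ a, FiniteDimensional K (W.H (Y a)) := fun a => W.axFinite (Y a)
  infer_instance

/-- The characteristic polynomial of `T` is the rational polynomial `χ`. -/
def TCharpoly [CharZero K] (T : TEnd W Y) (χ : ℚ[X]) : Prop :=
  @HasCharpoly K _ (Tot W Y) _ _ _ (finite_tot W Y) T χ

end single

variable {k : Type u} [Field k] {𝒱 : VarClass k} {I : Type} {K : I → Type v} [∀ l, Field (K l)]
  {W : ∀ l, Weil.{u, v, w} 𝒱 (K l)}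

namespace Strata

variable (X : Strata W)

/-- The dimension of the `E_2`-term in the theory `l`. -/
def betti (l : I) : ℕ := cohDim (X.ed l)

/-- The Laplacian `Δ = d d' + d' d` of the `E_1`-term, where `d' = [f, [Λ, d]]` with the dual `f` of
the monodromy operator and the dual Lefschetz operator `Λ`. -/
def laplacian (l : I) : TEnd (W l) X.EY := lapOf (X.eNd l) (X.eLam l) (X.ed l)

/-- The strata are anisotropic in the theory `l`: no nonzero motivic endomorphism of the sum of the
`H(Y a)` has values in a primitive part on which the form `Tr (x L^j y)` vanishes for its values (a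
consequence of the Hodge standard conjecture for the products of two strata). -/
def Anisotropic (l : I) : Prop :=
  ∀ U : ∀ l, TEnd (W l) X.Y, Motivic W X.Y U →
    ∀ i j : ℕ, AnisoFor (pairing (W l) X.Y) (X.L l) (U l) (X.prim l i j) j

end Strata

end Pool.Agent.H62S
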