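import Pool.Agent.W_MP_a3c811_h79.MF.StReal
import Pool.Agent.W_a3c811_h62w.Cplx

/-! The realisations of a motive computed by the `E_1`-term as a realisation of a complex. -/

noncomputable section

namespace Pool.Agent.H62S

open Polynomial Pool.Agent.WeilH_h6 Pool.Agent.WeilH_h6.VarClass Pool.Agent.H62A

universe u v w

variable {k : Type u} [Field k] {𝒱 : VarClass k} {I : Type} {K : I → Type v} [∀ l, Field (K l)]
  [∀ l, CharZero (K l)] {W : ∀ l, Weil.{u, v, w} 𝒱 (K l)}

namespace Strata

variable {X : Strata W}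

lemma IsChain.toChain {T : ∀ l, TEnd (W l) X.EY} (h : X.IsChain T) :
    H62A.IsChain X.complex 0 T := ⟨h.1, fun l => (h.2 l).1, fun l => (h.2 l).2⟩

/-- The realisation of the complex. -/
def Motive.toReal (M : X.Motive) (hN : H62A.IsChain X.complex 2 X.eN) : Realisation X.complex where
  q := M.q
  e := M.e
  F := M.F
  N := X.eN
  e_chain := M.chain.1.toChain
  F_chain := M.chain.2.toChain
  N_chain := hN
  V := M.V
  acg := M.acg
  mod := M.mod
  finite := M.finite
  φ := M.φ
  ν := M.ν
  u := M.u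
  computes := M.computes

lemma Motive.wm_iff (M : X.Motive) (hN : H62A.IsChain X.complex 2 X.eN) (l : I) :
    (M.toReal hN).WeightMonodromy l ↔ M.WeightMonodromy l := Iff.rfl

lemma Motive.indep_iff (M : X.Motive) (hN : H62A.IsChain X.complex 2 X.eN) :
    (∀ w : ℤ, ∃ A B : ℚ[X], ∀ l, CharpolyOn ((M.toReal hN).φ l) ((M.toReal hN).deg l w) A ∧
      CharpolyOn ((M.toReal hN).φ l) ((M.toReal hN).inv l w) B) ↔ M.Independence := Iff.rfl

end Strata

end Pool.Agent.H62S
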