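import Pool.Agent.W_a3c811_h62w.Strata

/-! Definitions for the statement: primitive parts of the strata. -/

noncomputable section

namespace Pool.Agent.H62S

open Pool.Agent.WeilH_h6 Pool.Agent.WeilH_h6.VarClass Pool.Agent.H62D Pool.Agent.H62A

universe u v w

/-- The kernel of `T` on the intersection of `U` and `U'`. -/
def kerOn {K : Type v} [Field K] {E : Type w} [AddCommGroup E] [Module K E] (T : E →ₗ[K] E)
    (U U' : Submodule K E) : Submodule K E := (U ⊓ U') ⊓ LinearMap.ker T

/-- The vectors of total degree `m` and level `i` which are killed by `Lam`. -/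
def primOf {k : Type u} [Field k] {𝒱 : VarClass k} {K : Type v} [Field K]
    (W : Weil.{u, v, w} 𝒱 K) {J : Type} (Y : J → 𝒱.Obj) (lev : J → ℕ) (Lam : TEnd W Y) (m : ℤ)
    (i : ℕ) : Submodule K (Tot W Y) :=
  kerOn Lam (degPart W Y (fun a => (lev a : ℤ)) 0 m) (posPart W Y (fun a => (lev a : ℤ)) i)

variable {k : Type u} [Field k] {𝒱 : VarClass k} {I : Type} {K : I → Type v} [∀ l, Field (K l)]
  {W : ∀ l, Weil.{u, v, w} 𝒱 (K l)}

namespace Strata

variable (X : Strata W)

/-- The sum of the forms `Tr (x y)` on the `H(Y a)`. -/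
abbrev pair (l : I) (x y : Tot (W l) X.Y) : K l := pairing (W l) X.Y x y

/-- The primitive part of degree `n - i - j` of the sum of the `H(Y a)` with `lev a = i` (so
`dim (Y a) = n - i`). -/
def prim (l : I) (i j : ℕ) : Submodule (K l) (Tot (W l) X.Y) :=
  primOf (W l) X.Y X.lev (X.Lam l) ((X.n : ℤ) - j) i

end Strata

end Pool.Agent.H62S
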