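import Pool.Agent.W_MP_a3c811_h79.MF.ExcE
import Pool.Agent.W_MP_a3c811_h79.MF.StE
import Pool.Agent.W_a3c811_h62w.TrI

/-! Self-adjoint endomorphisms with square zero: from the strata to the `E_1`-term, and the final
theorem. -/

noncomputable section

set_option linter.unusedSectionVars false

namespace Pool.Agent.H62S

open Module Polynomial Pool.Agent.WeilH_h6 Pool.Agent.WeilH_h6.VarClass Pool.Agent.H62D
  Pool.Agent.H62A Pool.Agent.H79L Pool.Agent.H62X Pool.Agent.H79E

universe u v w

variable {k : Type u} [Field k] {𝒱 : VarClass k} {I : Type} {K : I → Type v} [∀ l, Field (K l)]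
  [∀ l, CharZero (K l)] {W : ∀ l, Weil.{u, v, w} 𝒱 (K l)} {X : Strata W}

namespace Strata

variable {l : I}

/-- the form on a primitive part of the `E_1`-term, on the right -/
lemma eform_right (hW : Compatible W) {i j : ℕ} {y : Tot (W l) X.EY} (hy : y ∈ X.eprim l i j)
    (x : Tot (W l) X.EY) :
    X.eform l x y = tform (W l) X.Y (X.slice l i x) (X.slice l 0 y) := by
  obtain ⟨h1, h2⟩ := X.eprim_slice hW hy
  rw [eform_eq, tform_apply]
  refine Finset.sum_congr rfl fun a _ => ?_
  rw [Finset.sum_eq_single (X.lev a)]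
  · rw [Nat.sub_self]
    by_cases ha : X.lev a = i
    · rw [ha]
    · rw [(mem_lpos l).1 h1.1.2 a (by exact_mod_cast ha), mul_zero, mul_zero]
  · intro c hc hne
    rw [Finset.mem_range] at hc
    rw [h2 (X.lev a - c) (by omega), Pi.zero_apply, mul_zero, deg_zero']
  · intro h
    exact absurd (Finset.mem_range.2 (Nat.lt_succ_self _)) h

/-- the lowest copies of a homogeneous vector -/
lemma ins_part {i : ℕ} {w : ℤ} {y : Tot (W l) X.Y} (h1 : y ∈ degPart (W l) X.Y X.ilev 0 w)
    (h2 : y ∈ posPart (W l) X.Y X.ilev i) :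
    X.ins l 0 y ∈ X.part l w (-(i : ℤ)) ∧ ∀ c, X.slice l c (X.ins l 0 y) = if c = 0 then y else 0 := by
  have h0 : X.gep l 0 y = y := by
    funext a
    rw [gep_apply, if_pos (Nat.zero_le _)]
  have hs : ∀ c, X.slice l c (X.ins l 0 y) = if c = 0 then y else 0 := by
    intro c
    rw [slice_ins', h0]
  refine ⟨⟨?_, ?_⟩, hs⟩
  · change X.ins l 0 y ∈ degPart (W l) X.EY X.epos X.etw w
    rw [mem_degPart]
    intro c
    rw [hs]
    split_ifs
    · exact h1
    · exact Submodule.zero_mem _
  · intro c _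
    change X.ins l 0 y c ∈ (if X.epos c = -(i : ℤ) then ⊤ else ⊥ : Submodule (K l) _)
    split_ifs with hc
    · exact Submodule.mem_top
    · rw [ins_apply]
      split_ifs with hc0
      · have h4 : X.epos c = 2 * (c.2 : ℤ) - X.lev c.1 := rfl
        rw [(mem_lpos l).1 h2 c.1 (by omega)]
        exact Submodule.zero_mem _
      · exact Submodule.zero_mem _

/-- the projectors of the levels are self-adjoint -/
lemma tform_pos (p : ℤ) (x y : Tot (W l) X.Y) :
    tform (W l) X.Y (posProj (W l) X.Y X.ilev p x) y =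
      tform (W l) X.Y x (posProj (W l) X.Y X.ilev p y) := by
  rw [tform_apply, tform_apply]
  refine Finset.sum_congr rfl fun a _ => ?_
  rw [posProj_ilev_apply, posProj_ilev_apply]
  split_ifs
  · rfl
  · rw [zero_mul, mul_zero]

variable {BY : Subring (Module.End (K l) (Tot (W l) X.Y))}

variable (X l BY) in
/-- No nonzero self-adjoint member of `BY` with values in the primitive part `(1, 0)` has square
zero. -/
def YNoSq : Prop :=
  ∀ U ∈ BY, (∀ x, U x ∈ X.prim l 1 0) →
    (∀ x y, tform (W l) X.Y (U x) y = tform (W l) X.Y x (U y)) → (∀ x, U (U x) = 0) → U = 0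

variable (hY : X.YRing l BY)
include hY

theorem noSq_of (hW : Compatible W) (h : X.YNoSq l BY) :
    NoSq (K := K l) (E := Tot (W l) X.EY) (X.eN l) (X.eNd l) (X.eL l) (X.eLam l) X.n
      (posProj (W l) X.EY X.epos) (degProj (W l) X.EY X.epos X.etw) (X.eS l)
      (X.bring l BY hY.pos) := by
  intro u hu hgen hs ht hadj hsupp hsq
  obtain ⟨D, hP⟩ := hY.pol hW
  have hbi := hP.bi
  have gN : ∀ x, u (X.eN l x) = X.eN l (u x) := fun x => LinearMap.congr_fun (hgen 0) x
  have gf : ∀ x, u (X.eNd l x) = X.eNd l (u x) := fun x => LinearMap.congr_fun (hgen 1) x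
  have gg : ∀ x, u (X.eLam l x) = X.eLam l (u x) := fun x => LinearMap.congr_fun (hgen 3) x
  -- the values on the vectors of bidegree `(-1, 0)`
  have hval : ∀ x, x ∈ X.part l (X.n : ℤ) (-1) → u x ∈ X.eprim l 1 0 := by
    intro x hx
    have hxa := (at_iff (w := 0)).2 (show x ∈ X.part l (0 + X.n) (-1) by rw [zero_add]; exact hx)
    have hux := at_iff.1 (hxa.of_comm0 hs ht)
    rw [zero_add] at hux
    refine (X.mem_eprim hW).2 ⟨?_, ?_, ?_, ?_⟩
    · have : (X.n : ℤ) - ((0 : ℕ) : ℤ) = X.n := by simp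
      rw [this]
      exact hux.1
    · exact hux.2
    · rw [← gf]
      exact hsupp _ _ (by omega) _ (hxa.af hbi)
    · rw [← gg]
      exact hsupp _ _ (by omega) _ (hxa.ag hbi)
  set Q : Module.End (K l) (Tot (W l) X.Y) :=
    degProj (W l) X.Y X.ilev 0 (X.n : ℤ) * posProj (W l) X.Y X.ilev 1 with hQ
  have hQB : Q ∈ BY := BY.mul_mem (hY.deg _) (hY.pos _)
  have hQapp : ∀ y, Q y = degProj (W l) X.Y X.ilev 0 (X.n : ℤ) (posProj (W l) X.Y X.ilev 1 y) :=
    fun y => rfl
  have hQ' : ∀ y, Q y = posProj (W l) X.Y X.ilev 1 (degProj (W l) X.Y X.ilev 0 (X.n : ℤ) y) := by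
    intro y
    have h4 := LinearMap.congr_fun (degProj_comm_posProj (W l) X.Y X.ilev 0 (X.n : ℤ) 1) y
    rw [LinearMap.comp_apply, LinearMap.comp_apply] at h4
    rw [hQapp, h4]
  have hQ1 : ∀ y, Q y ∈ degPart (W l) X.Y X.ilev 0 (X.n : ℤ) := fun y => by
    rw [hQapp]; exact H62A.degProj_mem _ _ _ _ _ _
  have hQ2 : ∀ y, Q y ∈ posPart (W l) X.Y X.ilev ((1 : ℕ) : ℤ) := fun y => by
    rw [hQ']; exact H62A.posProj_mem _ _ _ _ _
  have hQi : ∀ y ∈ X.prim l 1 0, Q y = y := by
    intro y hy
    have h3 := hy.1.1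
    rw [Nat.cast_zero, sub_zero] at h3
    have h4 : posProj (W l) X.Y X.ilev 1 y = y := posProj_of_mem _ _ _ hy.1.2
    rw [hQapp, h4, degProj_of_mem _ _ _ _ h3]
  have hQadj : ∀ x y, tform (W l) X.Y (Q x) y = tform (W l) X.Y x (Q y) := by
    intro x y
    rw [hQapp, tform_deg, tform_pos, show 2 * (X.n : ℤ) - X.n = X.n by ring, hQ']
  -- the endomorphism of the strata
  set U : Module.End (K l) (Tot (W l) X.Y) := X.block l u 0 0 * Q with hU
  have hUapp : ∀ y, U y = X.slice l 0 (u (X.ins l 0 (Q y))) := fun y => rfl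
  have hUB : U ∈ BY := BY.mul_mem (hu 0 0) hQB
  have hins := fun y => ins_part (X := X) (i := 1) (w := (X.n : ℤ)) (hQ1 y) (hQ2 y)
  have hz : ∀ y, u (X.ins l 0 (Q y)) ∈ X.eprim l 1 0 := fun y => hval _ (hins y).1
  have hUp : ∀ y, U y ∈ X.prim l 1 0 := fun y => by
    rw [hUapp]; exact (X.eprim_slice hW (hz y)).1
  have hNs : ∀ z : Tot (W l) X.EY, z ∈ posPart (W l) X.EY X.epos (-1) →
      ∀ y : Tot (W l) X.Y, y ∈ posPart (W l) X.Y X.ilev ((1 : ℕ) : ℤ) → X.slice l 0 z = y →
      ∀ a, X.lev a = 1 → X.slice l 1 (X.eN l z) a = y a := by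
    intro z _ y _ hzy a ha
    unfold eN
    rw [slice_lift X l _ _ _ _ _ (by omega), if_pos le_rfl, LinearMap.id_apply, Nat.sub_self, hzy]
  have hUadj : ∀ x y, tform (W l) X.Y (U x) y = tform (W l) X.Y x (U y) := by
    intro x y
    have e1 : tform (W l) X.Y (U x) y = tform (W l) X.Y (U x) (Q y) := by
      rw [← hQadj, hQi _ (hUp x)]
    have e2 : tform (W l) X.Y (U x) (Q y) =
        X.eform l (u (X.ins l 0 (Q x))) (X.eN l (X.ins l 0 (Q y))) := by
      rw [X.eform_left hW (hz x), hUapp, tform_apply, tform_apply]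
      refine Finset.sum_congr rfl fun a _ => ?_
      by_cases ha : X.lev a = 1
      · rw [hNs _ (hins y).1.2 _ (hQ2 y) (by rw [(hins y).2, if_pos rfl]) a ha]
      · rw [(mem_lpos l).1 (X.eprim_slice hW (hz x)).1.1.2 a (by exact_mod_cast ha), zero_mul,
          zero_mul]
    have e3 : X.eform l (u (X.ins l 0 (Q x))) (X.eN l (X.ins l 0 (Q y))) =
        X.eform l (X.eN l (X.ins l 0 (Q x))) (u (X.ins l 0 (Q y))) := by
      have h1 := hadj.1 (X.ins l 0 (Q x)) (X.eN l (X.ins l 0 (Q y)))
      change X.eform l _ _ = X.eform l _ _ at h1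
      rw [h1, gN, ← X.eform_eN]
    have e4 : X.eform l (X.eN l (X.ins l 0 (Q x))) (u (X.ins l 0 (Q y))) =
        tform (W l) X.Y (Q x) (U y) := by
      rw [eform_right hW (hz y), hUapp, tform_apply, tform_apply]
      refine Finset.sum_congr rfl fun a _ => ?_
      by_cases ha : X.lev a = 1
      · rw [hNs _ (hins x).1.2 _ (hQ2 x) (by rw [(hins x).2, if_pos rfl]) a ha]
      · rw [(mem_lpos l).1 (X.eprim_slice hW (hz y)).1.1.2 a (by exact_mod_cast ha), mul_zero,
          mul_zero]
    rw [e1, e2, e3, e4, hQadj, hQi _ (hUp y)]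
  have hback : ∀ z ∈ X.eprim l 1 0, X.ins l 0 (X.slice l 0 z) = z := by
    intro z hz
    obtain ⟨h1, h2⟩ := X.eprim_slice hW hz
    refine X.ext_slice l fun c a _ => ?_
    rcases Nat.eq_zero_or_pos c with rfl | hc
    · rw [(X.ins_eprim hW h1).2]
    · rw [h2 c hc, slice_ins, if_neg (by omega)]
      rfl
  have hUsq : ∀ y, U (U y) = 0 := by
    intro y
    rw [hUapp (U y), hQi _ (hUp y), hUapp y, hback _ (hz y)]
    have h1 : u (u (X.ins l 0 (Q y))) = 0 := LinearMap.congr_fun hsq _
    rw [h1, map_zero]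
  have hU0 := h U hUB hUp hUadj hUsq
  -- the operator vanishes
  have k1 : ∀ x, At (K := K l) (E := Tot (W l) X.EY) (posProj (W l) X.EY X.epos)
      (degProj (W l) X.EY X.epos X.etw) X.n (-1) 0 x → u x = 0 := by
    intro x hx
    obtain ⟨y0, y1, h1, h2, h3⟩ := exists_dec hbi.sl (i := 1) (y := x) hx.hs
    set z0 := degProj (W l) X.EY X.epos X.etw (0 + X.n) y0 with hz0
    set z1 := degProj (W l) X.EY X.epos X.etw (0 + X.n)
      (posProj (W l) X.EY X.epos (-1 - 2) y1) with hz1
    have e1 : x = z0 + X.eN l z1 := by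
      have e2 : x = posProj (W l) X.EY X.epos (-1) y0 +
          posProj (W l) X.EY X.epos (-1) (X.eN l y1) := by
        rw [← map_add, ← h3]
        exact hx.hs.symm
      have e3 : posProj (W l) X.EY X.epos (-1) (X.eN l y1) =
          X.eN l (posProj (W l) X.EY X.epos (-1 - 2) y1) := by
        have := LinearMap.congr_fun (hbi.sl.Ns (-1 - 2)) y1
        rw [Module.End.mul_apply, Module.End.mul_apply, sub_add_cancel] at this
        exact this.symm
      have h1' : posProj (W l) X.EY X.epos (-1) y0 = y0 := h1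
      rw [h1', e3] at e2
      have e4 := hx.ht
      rw [← e4]
      nth_rewrite 1 [e2]
      rw [map_add]
      congr 1
      exact (LinearMap.congr_fun (hbi.Nt (0 + (X.n : ℤ))) _).symm
    have at1 : At (K := K l) (E := Tot (W l) X.EY) (posProj (W l) X.EY X.epos)
        (degProj (W l) X.EY X.epos X.etw) X.n (-1 - 2) 0 z1 := at_comp hbi _ _ _
    have u1 : u (X.eN l z1) = 0 := by
      rw [gN, hsupp _ _ (by omega) _ at1, map_zero]
    have at0 : At (K := K l) (E := Tot (W l) X.EY) (posProj (W l) X.EY X.epos)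
        (degProj (W l) X.EY X.epos X.etw) X.n (-1) 0 z0 := by
      have := at_comp hbi (-1) 0 y0
      have h1' : posProj (W l) X.EY X.epos (-1) y0 = y0 := h1
      rwa [h1'] at this
    have f0 : X.eNd l z0 = 0 := by
      have h4 := LinearMap.congr_fun (hbi.ft (0 + (X.n : ℤ))) y0
      rw [Module.End.mul_apply, Module.End.mul_apply, h2, map_zero] at h4
      exact h4
    have hp0 := at_iff.1 at0
    rw [zero_add] at hp0
    -- only the lowest copies
    have hsl : ∀ c, 0 < c → X.slice l c z0 = 0 := by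
      intro c hc
      obtain ⟨c, rfl⟩ := Nat.exists_eq_add_of_lt hc
      funext a
      rw [zero_add, Pi.zero_apply]
      by_cases hca : c + 1 ≤ X.lev a
      · have h5 := X.slice_eNd l z0 c a (by omega)
        rw [f0, map_zero, Pi.zero_apply] at h5
        refine (smul_eq_zero.1 h5.symm).resolve_left ?_
        have h6 : (c + 1) * (X.lev a - c) ≠ 0 :=
          Nat.mul_ne_zero (Nat.succ_ne_zero c) (by omega)
        exact_mod_cast h6
      · exact slice_of_lt X l _ (by omega)
    have hz0i : z0 = X.ins l 0 (X.slice l 0 z0) := by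
      refine X.ext_slice l fun c a _ => ?_
      rcases Nat.eq_zero_or_pos c with rfl | hc
      · rw [slice_ins, if_pos rfl, gep_slice]
      · rw [hsl c hc, slice_ins, if_neg (by omega)]
        rfl
    have hs0 : Q (X.slice l 0 z0) = X.slice l 0 z0 := by
      rw [hQapp]
      have h5 : posProj (W l) X.Y X.ilev 1 (X.slice l 0 z0) = X.slice l 0 z0 := by
        have h6 := slice_posProj (X := X) (l := l) (-1) z0 0
        have h7 : posProj (W l) X.EY X.epos (-1) z0 = z0 := at0.hs
        have h8 : 2 * ((0 : ℕ) : ℤ) - -1 = 1 := by norm_num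
        rw [h7, h8] at h6
        exact h6.symm
      have h8 : degProj (W l) X.Y X.ilev 0 (X.n : ℤ) (X.slice l 0 z0) = X.slice l 0 z0 := by
        have h6 := slice_degProj (X := X) (l := l) (X.n : ℤ) z0 0
        have h7 : degProj (W l) X.EY X.epos X.etw (X.n : ℤ) z0 = z0 := by
          have := at0.ht
          rwa [zero_add] at this
        rw [h7] at h6
        exact h6.symm
      rw [h5, h8]
    have u0 : u z0 = 0 := by
      have h9 := hval z0 hp0
      have h10 : X.slice l 0 (u z0) = 0 := by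
        have h11 := hUapp (X.slice l 0 z0)
        rw [hs0, ← hz0i, hU0, LinearMap.zero_apply] at h11
        exact h11.symm
      rw [← hback _ h9, h10, map_zero]
    rw [e1, map_add, u0, u1, add_zero]
  have k2 : ∀ x, At (K := K l) (E := Tot (W l) X.EY) (posProj (W l) X.EY X.epos)
      (degProj (W l) X.EY X.epos X.etw) X.n 1 0 x → u x = 0 := by
    intro x hx
    obtain ⟨z, hz, hzx⟩ := (hbi.sl.bij 1).surjOn (hbi.sl.mem_range.2
      (show posProj (W l) X.EY X.epos ((1 : ℕ) : ℤ) x = x from hx.hs))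
    have hz1 : posProj (W l) X.EY X.epos (-1) z = z := hbi.sl.mem_range.1 hz
    have hzx' : X.eN l z = x := by
      have : (X.eN l ^ 1 : Module.End (K l) (Tot (W l) X.EY)) z = x := hzx
      rwa [pow_one] at this
    set z' := degProj (W l) X.EY X.epos X.etw (0 + X.n) z with hz'
    have e1 : x = X.eN l z' := by
      have h4 := LinearMap.congr_fun (hbi.Nt (0 + (X.n : ℤ))) z
      rw [Module.End.mul_apply, Module.End.mul_apply] at h4
      have h5 : degProj (W l) X.EY X.epos X.etw (0 + X.n) x = x := hx.ht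
      rw [← h5, ← hzx']
      exact h4.symm
    have at0 : At (K := K l) (E := Tot (W l) X.EY) (posProj (W l) X.EY X.epos)
        (degProj (W l) X.EY X.epos X.etw) X.n (-1) 0 z' := by
      have := at_comp hbi (-1) 0 z
      rwa [hz1] at this
    rw [e1, gN, k1 _ at0, map_zero]
  refine LinearMap.ext fun x => ?_
  rw [LinearMap.zero_apply, hbi.decomp x, map_sum]
  refine Finset.sum_eq_zero fun w _ => ?_
  rw [map_sum]
  refine Finset.sum_eq_zero fun p _ => ?_
  have hat := at_comp hbi p (w - X.n) x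
  rw [sub_add_cancel] at hat
  by_cases hc : (p = 1 ∨ p = -1) ∧ w - X.n = 0
  · obtain ⟨h1 | h1, h2⟩ := hc
    · rw [h1, h2] at hat
      rw [h1]
      exact k2 _ hat
    · rw [h1, h2] at hat
      rw [h1]
      exact k1 _ hat
  · exact hsupp _ _ hc _ hat

/-- The theorem for one theory, with hard Lefschetz and no self-adjoint operators of square zero on
the part `(1, 0)`. -/
theorem zero_strataE (hW : Compatible W) {Z : Module.End (K l) (Tot (W l) X.EY)}
    (hZ : Har (K := K l) (E := Tot (W l) X.EY) (X.eN l) (X.eNd l) (X.eL l) (X.eLam l) (X.ed l)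
      (posProj (W l) X.EY X.epos) (degProj (W l) X.EY X.epos X.etw) (X.eS l)
      (X.bring l BY hY.pos) Z) (hL : X.HardLefschetz l) (hE : X.YNoSq l BY)
    {Wt : ℕ → ℕ → Prop} (hp : X.YPos l BY Wt)
    (hT : ∀ i j, i + j ≤ X.n → 2 ≤ i + j →
      Str (K := K l) (E := Tot (W l) X.EY) (X.eN l) (X.eNd l) (X.eL l) (X.eLam l) (X.ed l) X.n
        (posProj (W l) X.EY X.epos) (degProj (W l) X.EY X.epos X.etw) (X.eS l)
        (X.bring l BY hY.pos) i j ∨ Wt i j) :
    (X.ed l : Module.End (K l) (Tot (W l) X.EY)) * Z = 0 := by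
  obtain ⟨D, hP⟩ := hY.pol hW
  have hp' : X.YPos l BY (fun i j => Wt i j ∧ i + j ≤ X.n) := fun i j i' j' h1 h2 =>
    hp i j i' j' h1.1 h2.1
  have hl : HL (K := K l) (E := Tot (W l) X.EY) (X.eL l) (X.ed l)
      (posProj (W l) X.EY X.epos) (degProj (W l) X.EY X.epos X.etw) X.n := by
    refine ⟨?_, ei_lef (hL (-1) 2), ?_, ?_⟩
    · have h3 := ei_lef (hL (-1) 1)
      rw [pow_one] at h3
      exact h3
    · have h3 := ei_lef (hL 0 1)
      rw [pow_one] at h3
      exact h3
    · have h3 := ei_lef (hL (-2) 1)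
      rw [pow_one] at h3
      exact h3
  refine mainE' hP hZ hl (fun r u hu => hY.rat_mem r hu) (noSq_of hY hW hE)
    (pos_of hY hW (fun i j h => by omega) hp') fun i j h2 => ?_
  by_cases hij : i + j ≤ X.n
  · rcases hT i j hij h2 with h1 | h1
    · exact Or.inl h1
    · exact Or.inr ⟨h1, hij⟩
  · exact Or.inl (str_gt hY hW (not_le.1 hij))

omit hY in
/-- no self-adjoint endomorphisms of square zero in a ring of motivic endomorphisms -/
lemma ynosq_of (hW : Compatible W) {φ : Module.End (K l) (Tot (W l) X.Y)}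
    (h : X.NoSquareZero l 1 0) : X.YNoSq l (X.cring l hW φ) := by
  intro U hU hm hadj hsq
  obtain ⟨⟨V, hV, rfl⟩, -⟩ := (mem_cring hW).1 hU
  exact LinearMap.ext (h V hV hm hadj hsq)

omit hY in
/-- One theory suffices: hard Lefschetz, positivity of the parts `(i, j)` with `2 ≤ i + j`, and no
self-adjoint endomorphisms of square zero on the part `(1, 0)`. -/
theorem one_theory_E (hW : Compatible W) (X : Strata W) (hb : ∀ l l', X.betti l = X.betti l')
    (l0 : I) (hpos : X.Positive l0 (fun i j => 2 ≤ i + j)) (hL : X.HardLefschetz l0)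
    (hE : X.NoSquareZero l0 1 0) (M : X.Motive) :
    (∀ l, M.WeightMonodromy l) ∧ M.Independence := by
  classical
  refine all_of_zero hW X hb l0 (fun P Q F => ?_) M
  have hφ := nfrob_id (X := X) l0
  have hY := yring_cring hW hφ
  exact zero_strataE hY hW (har_strata hY hW F) hL (ynosq_of hW hE) (ypos_of hW hpos)
    fun i j _ h2 => Or.inr h2

end Strata

end Pool.Agent.H62S
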