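import Pool.Agent.W_MP_a3c811_h79.MF.SigA
import Pool.Agent.W_MP_a3c811_h79.MF.GdY
import Pool.Agent.W_MP_a3c811_h79.MF.TrE79

/-! Condition (E) on the strata: operators commuting with a monoid of endomorphisms, rational spaces
of classes. -/

noncomputable section

set_option linter.unusedSectionVars false

namespace Pool.Agent.H62S

open Module Polynomial Pool.Agent.WeilH_h6 Pool.Agent.WeilH_h6.VarClass Pool.Agent.H62D
  Pool.Agent.H62A Pool.Agent.H79L Pool.Agent.H62X Pool.Agent.H79E

universe u v w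

variable {k : Type u} [Field k] {𝒱 : VarClass k} {I : Type} {K : I → Type v} [∀ l, Field (K l)]
  [∀ l, CharZero (K l)] {W : ∀ l, Weil.{u, v, w} 𝒱 (K l)} {X : Strata W}

namespace Strata

variable {l : I} {BY : Subring (Module.End (K l) (Tot (W l) X.Y))}

variable (X l BY) in
/-- `A` is a rational subspace stable under `BY` on which the form is rational. -/
structure RSub (A : AddSubgroup (Tot (W l) X.Y)) : Prop where
  stab : ∀ U ∈ BY, ∀ x ∈ A, U x ∈ A
  rat : ∀ (q : ℚ), ∀ x ∈ A, (q : K l) • x ∈ A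
  val : ∀ x ∈ A, ∀ y ∈ A, ∃ q : ℚ, tform (W l) X.Y x y = q

variable (X l) in
/-- the vectors of the `E_1`-term all of whose components are in `A` -/
def esub (A : AddSubgroup (Tot (W l) X.Y)) : AddSubgroup (Tot (W l) X.EY) where
  carrier := {x | ∀ c, X.slice l c x ∈ A}
  add_mem' := by
    intro x y hx hy c
    rw [map_add]
    exact AddSubgroup.add_mem _ (hx c) (hy c)
  zero_mem' := by
    intro c
    rw [map_zero]
    exact AddSubgroup.zero_mem _
  neg_mem' := by
    intro x hx c
    rw [map_neg]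
    exact AddSubgroup.neg_mem _ (hx c)

variable (X l) in
/-- the orthogonal complement of `A` in a primitive part -/
def perp (A : AddSubgroup (Tot (W l) X.Y)) (i j : ℕ) : Submodule (K l) (Tot (W l) X.Y) :=
  X.prim l i j ⊓ ann (tform (W l) X.Y) A

variable {A : AddSubgroup (Tot (W l) X.Y)} (hY : X.YRing l BY) (hA : X.RSub l BY A)
include hY

/-- the differential on the lowest copies of a primitive vector -/
lemma ed_ins (hW : Compatible W) {i j : ℕ} {y : Tot (W l) X.Y} (hy : y ∈ X.prim l i j)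
    (h1 : X.res l y = 0) (h2 : X.gys l y = 0) : X.ed l (X.ins l 0 y) = 0 := by
  have hs := (ins_part (X := X) (i := i) (w := (X.n : ℤ) - j) hy.1.1 hy.1.2).2
  refine X.ext_slice l fun c a hc => ?_
  rw [map_zero]
  have e1 : X.ed l = X.lift l 1 (X.res l) + X.lift l 0 (X.gys l) := rfl
  rw [e1, LinearMap.add_apply, map_add, Pi.add_apply, slice_lift X l _ _ _ _ _ hc,
    slice_lift X l _ _ _ _ _ hc]
  have e2 : ∀ m, X.res l (X.slice l m (X.ins l 0 y)) = 0 := by
    intro m
    rw [hs]
    split_ifs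
    · exact h1
    · exact map_zero _
  have e3 : ∀ m, X.gys l (X.slice l m (X.ins l 0 y)) = 0 := by
    intro m
    rw [hs]
    split_ifs
    · exact h2
    · exact map_zero _
  rw [e2, e3]
  simp

/-- Condition (E) from operators on the strata which vanish on the kernel of `res` and `gys`. -/
theorem gd_of' (hW : Compatible W) {i j : ℕ}
    (h : ∀ U ∈ BY, (∀ x ∈ X.prim l i j, U x ∈ X.prim l i j) →
      (∀ x ∈ X.prim l i j, ∀ y ∈ X.prim l i j,
        tform (W l) X.Y (U x) ((X.L l ^ j) y) = tform (W l) X.Y x ((X.L l ^ j) (U y))) →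
      (∀ x ∈ X.prim l i j, U (U x) = 0) →
      (∀ x ∈ X.prim l i j, X.res l x = 0 → X.gys l x = 0 → U x = 0) →
      ∀ x ∈ X.prim l i j, U x = 0) :
    Gd (K := K l) (E := Tot (W l) X.EY) (X.eN l) (X.eNd l) (X.eL l) (X.eLam l) (X.ed l) X.n
      (posProj (W l) X.EY X.epos) (degProj (W l) X.EY X.epos X.etw) (X.eS l)
      (X.bring l BY hY.pos) i j := by
  by_cases hij : X.n < i + j
  · exact gd_gt hY hW hij
  have hi : i ≤ X.n := by omega
  obtain ⟨D, hP⟩ := hY.pol hW
  refine gd_P hP ?_
  intro u hu hup hself hsq hvan x hx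
  have hback : ∀ z ∈ X.eprim l i j, X.ins l 0 (X.slice l 0 z) = z :=
    fun z hz => ins_slice_eprim hW hz
  have hU : ∀ y ∈ X.prim l i j, X.block l u 0 0 y = 0 := by
    refine h _ (hu 0 0) ?_ ?_ ?_ ?_
    · intro y hy
      exact (X.eprim_slice hW (hup _ (X.ins_eprim hW hy).1)).1
    · intro y hy y' hy'
      have h5 := hself _ (X.ins_eprim hW hy).1 _ (X.ins_eprim hW hy').1
      have h6 := X.eprim_slice hW (hup _ (X.ins_eprim hW hy).1)
      have h7 := X.eprim_slice hW (X.ins_eprim hW hy).1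
      change X.eform l _ _ = X.eform l _ _ at h5
      rw [X.eform_prim l h6.1 h6.2 hi, X.eform_prim l h7.1 h7.2 hi, (X.ins_eprim hW hy).2,
        (X.ins_eprim hW hy').2] at h5
      exact h5
    · intro y hy
      have h7 := hback _ (hup _ (X.ins_eprim hW hy).1)
      change X.slice l 0 (u (X.ins l 0 (X.slice l 0 (u (X.ins l 0 y))))) = 0
      rw [h7, hsq _ (X.ins_eprim hW hy).1, map_zero]
    · intro y hy h1 h2
      change X.slice l 0 (u (X.ins l 0 y)) = 0
      rw [hvan _ (X.ins_eprim hW hy).1 (ed_ins hY hW hy h1 h2), map_zero]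
  obtain ⟨h1, h2⟩ := X.eprim_slice hW hx
  have h10 : X.slice l 0 (u x) = 0 := by
    have h9 := hU _ h1
    change X.slice l 0 (u (X.ins l 0 (X.slice l 0 x))) = 0 at h9
    rwa [hback x hx] at h9
  rw [← hback _ (hup x hx), h10, map_zero]

include hA

/-- the classes on the `E_1`-term -/
theorem ratAt' {i j : ℕ} (hW : Compatible W)
    (hH : ∀ x ∈ X.prim l i j, x ∈ A → X.pair l x ((X.L l ^ j) x) = 0 → x = 0) :
    RatAt (K := K l) (E := Tot (W l) X.EY) (X.eN l) (X.eNd l) (X.eL l) (X.eLam l) X.n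
      (posProj (W l) X.EY X.epos) (degProj (W l) X.EY X.epos X.etw) (X.eS l)
      (X.bring l BY hY.pos) (X.esub l A) i j where
  stab := by
    intro u hu x hx c
    have hux : X.slice l c (u x) =
        ∑ j ∈ Finset.range (X.n + 1), X.block l u c j (X.slice l j x) := by
      conv_lhs => rw [← X.sum_ins l x]
      rw [map_sum, map_sum]
      rfl
    rw [hux]
    exact AddSubgroup.sum_mem _ fun j _ => hA.stab _ (hu c j) _ (hx j)
  rat := by
    intro q x hx c
    rw [map_smul]
    exact hA.rat q _ (hx c)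
  val := by
    intro x hx y hy
    have h1 : X.eS l x y = ∑ j ∈ Finset.range (X.n + 1), ∑ j' ∈ Finset.range (X.n + 1),
        tform (W l) X.Y (X.slice l j x)
          (posProj (W l) X.Y X.ilev ((j + j' : ℕ) : ℤ) (X.slice l j' y)) := by
      change X.eform l x y = _
      unfold eform
      refine Finset.sum_congr rfl fun j _ => Finset.sum_congr rfl fun j' _ => ?_
      rw [lform_eq]
      rfl
    choose q hq using fun j j' => hA.val _ (hx j) _
      (hA.stab _ (hY.pos ((j + j' : ℕ) : ℤ)) _ (hy j'))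
    refine ⟨∑ j ∈ Finset.range (X.n + 1), ∑ j' ∈ Finset.range (X.n + 1), q j j', ?_⟩
    rw [h1]
    push_cast
    exact Finset.sum_congr rfl fun j _ => Finset.sum_congr rfl fun j' _ => hq j j'
  hodge := by
    intro x hx hxp h0
    obtain ⟨h1, h2⟩ := X.eprim_slice hW hxp
    have h3 : X.slice l 0 x = 0 := by
      by_cases hi : i ≤ X.n
      · refine hH _ h1 (hx 0) ?_
        change X.eform l x _ = 0 at h0
        rw [X.eform_prim l h1 h2 hi] at h0
        exact h0
      · funext a
        have := X.lev_le a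
        rw [(mem_lpos l).1 h1.1.2 a (by
          intro h4
          have h5 : X.lev a = i := by exact_mod_cast h4
          omega)]
        rfl
    refine X.ext_slice l fun c a _ => ?_
    rw [map_zero]
    rcases Nat.eq_zero_or_pos c with rfl | hc
    · rw [h3]
    · rw [h2 c hc]

/-- the transcendental part of a primitive part of the `E_1`-term -/
lemma mem_Tp' (hW : Compatible W) {i j : ℕ} {x : Tot (W l) X.EY} :
    x ∈ Tp (K := K l) (E := Tot (W l) X.EY) (X.eNd l) (X.eLam l) X.n
      (posProj (W l) X.EY X.epos) (degProj (W l) X.EY X.epos X.etw) (X.eS l) (X.esub l A) i j ↔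
    x ∈ X.eprim l i j ∧ X.slice l 0 x ∈ X.perp l A i j := by
  constructor
  · rintro ⟨h1, h2⟩
    refine ⟨h1, (X.eprim_slice hW h1).1, fun z hz => ?_⟩
    have h3 : X.ins l i (posProj (W l) X.Y X.ilev i z) ∈ X.esub l A := by
      intro c
      rw [slice_ins']
      split_ifs
      · have h4 : X.gep l i (posProj (W l) X.Y X.ilev i z) = posProj (W l) X.Y X.ilev i z := by
          funext a
          rw [gep_apply, posProj_ilev_apply]
          by_cases ha : (X.lev a : ℤ) = i
          · rw [if_pos ha, if_pos (by omega)]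
          · rw [if_neg ha]
            split_ifs <;> rfl
        rw [h4]
        exact hA.stab _ (hY.pos i) _ hz
      · exact AddSubgroup.zero_mem _
    have h5 := h2 _ h3
    change X.eform l x _ = 0 at h5
    rw [X.eform_left hW h1, slice_ins', if_pos rfl] at h5
    rw [← h5, tform_apply, tform_apply]
    refine Finset.sum_congr rfl fun a _ => ?_
    by_cases ha : (X.lev a : ℤ) = i
    · rw [gep_apply, if_pos (by omega), posProj_ilev_apply, if_pos ha]
    · rw [(mem_lpos l).1 (X.eprim_slice hW h1).1.1.2 a ha, zero_mul, zero_mul]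
  · rintro ⟨h1, h2, h3⟩
    refine ⟨h1, fun y hy => ?_⟩
    change X.eform l x y = 0
    rw [X.eform_left hW h1]
    exact h3 _ (hy i)

/-- Condition (E) from operators on the orthogonal complement of the classes which vanish on the
kernel of `res` and `gys`. -/
theorem gd_perp (hW : Compatible W) {i j : ℕ}
    (hH : ∀ x ∈ X.prim l i j, x ∈ A → X.pair l x ((X.L l ^ j) x) = 0 → x = 0)
    (h : ∀ U ∈ BY, (∀ x ∈ X.perp l A i j, U x ∈ X.perp l A i j) →
      (∀ x ∈ X.perp l A i j, ∀ y ∈ X.perp l A i j,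
        tform (W l) X.Y (U x) ((X.L l ^ j) y) = tform (W l) X.Y x ((X.L l ^ j) (U y))) →
      (∀ x ∈ X.perp l A i j, U (U x) = 0) →
      (∀ x ∈ X.perp l A i j, X.res l x = 0 → X.gys l x = 0 → U x = 0) →
      ∀ x ∈ X.perp l A i j, U x = 0) :
    Gd (K := K l) (E := Tot (W l) X.EY) (X.eN l) (X.eNd l) (X.eL l) (X.eLam l) (X.ed l) X.n
      (posProj (W l) X.EY X.epos) (degProj (W l) X.EY X.epos X.etw) (X.eS l)
      (X.bring l BY hY.pos) i j := by
  by_cases hij : X.n < i + j
  · exact gd_gt hY hW hij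
  have hi : i ≤ X.n := by omega
  obtain ⟨D, hP⟩ := hY.pol hW
  have hC := (ratAt' hY hA hW hH).clsAt hP (fun r u hu => hY.rat_mem r hu)
  refine gd_T hP hC ?_
  intro u hu hup hself hsq hvan x hx
  have hback : ∀ z ∈ X.eprim l i j, X.ins l 0 (X.slice l 0 z) = z :=
    fun z hz => ins_slice_eprim hW hz
  have hins : ∀ y ∈ X.perp l A i j, X.ins l 0 y ∈ Tp (K := K l) (E := Tot (W l) X.EY)
      (X.eNd l) (X.eLam l) X.n (posProj (W l) X.EY X.epos) (degProj (W l) X.EY X.epos X.etw)
      (X.eS l) (X.esub l A) i j := by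
    intro y hy
    rw [mem_Tp' hY hA hW]
    obtain ⟨h1, h2⟩ := X.ins_eprim hW hy.1
    exact ⟨h1, by rw [h2]; exact hy⟩
  have hsl : ∀ z, z ∈ Tp (K := K l) (E := Tot (W l) X.EY)
      (X.eNd l) (X.eLam l) X.n (posProj (W l) X.EY X.epos) (degProj (W l) X.EY X.epos X.etw)
      (X.eS l) (X.esub l A) i j → X.slice l 0 z ∈ X.perp l A i j := fun z hz =>
    ((mem_Tp' hY hA hW).1 hz).2
  have hU : ∀ y ∈ X.perp l A i j, X.block l u 0 0 y = 0 := by
    refine h _ (hu 0 0) ?_ ?_ ?_ ?_
    · intro y hy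
      exact hsl _ (hup _ (hins y hy))
    · intro y hy y' hy'
      have h5 := hself _ (hins y hy) _ (hins y' hy')
      have h6 := X.eprim_slice hW (hup _ (hins y hy)).1
      have h7 := X.eprim_slice hW (X.ins_eprim hW hy.1).1
      change X.eform l _ _ = X.eform l _ _ at h5
      rw [X.eform_prim l h6.1 h6.2 hi, X.eform_prim l h7.1 h7.2 hi, (X.ins_eprim hW hy.1).2,
        (X.ins_eprim hW hy'.1).2] at h5
      exact h5
    · intro y hy
      have h7 := hback _ (hup _ (hins y hy)).1
      change X.slice l 0 (u (X.ins l 0 (X.slice l 0 (u (X.ins l 0 y))))) = 0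
      rw [h7, hsq _ (hins y hy), map_zero]
    · intro y hy h1 h2
      change X.slice l 0 (u (X.ins l 0 y)) = 0
      rw [hvan _ (hins y hy) (ed_ins hY hW hy.1 h1 h2), map_zero]
  have h9 := hU _ (hsl x hx)
  have h10 : X.slice l 0 (u x) = 0 := by
    change X.slice l 0 (u (X.ins l 0 (X.slice l 0 x))) = 0 at h9
    rwa [hback x hx.1] at h9
  rw [← hback _ (hup x hx).1, h10, map_zero]

end Strata

end Pool.Agent.H62S
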