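import Pool.Agent.W_a3c811_h62w.StCoh

/-! Definitions for the statements: self-adjoint endomorphisms of square zero of the primitive
parts which commute with a set of endomorphisms. -/

noncomputable section

namespace Pool.Agent.H62S

open Pool.Agent.WeilH_h6 Pool.Agent.WeilH_h6.VarClass Pool.Agent.H62A

universe u v w

section linear

variable {K : Type v} [Field K] {E : Type w} [AddCommGroup E] [Module K E] (B : E → E → K)
  (L D D' : E →ₗ[K] E)

/-- If `S` maps `P` to `P`, is self-adjoint there for the form `B (x, L^j y)`, has square zero and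
kills the common zeros of `D` and `D'` in `P`, then `S = 0` on `P`. -/
def SqOn (S : E →ₗ[K] E) (P : Submodule K E) (j : ℕ) : Prop :=
  MapsOn S P P → (∀ x ∈ P, ∀ y ∈ P, B (S x) ((L ^ j) y) = B x ((L ^ j) (S y))) →
    (∀ x ∈ P, S (S x) = 0) → (∀ x ∈ P, D x = 0 → D' x = 0 → S x = 0) → ∀ x ∈ P, S x = 0

/-- `B (x, L^j x)` is not zero for the nonzero `x` in `P` with the property `A`. -/
def NoIso (A : E → Prop) (P : Submodule K E) (j : ℕ) : Prop :=
  ∀ x ∈ P, A x → B x ((L ^ j) x) = 0 → x = 0

/-- `U` consists of the vectors `x` of `P` with `B (x, z) = 0` for all `z` with the property `A`. -/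
def OrthTo (A : E → Prop) (P U : Submodule K E) : Prop :=
  ∀ x, x ∈ U ↔ x ∈ P ∧ ∀ z, A z → B x z = 0

/-- The vectors with the property `A` have the property `C` and are closed under sums,
`B (x, L^j x)` is not zero for the nonzero ones in `P`, and every `S` with the property `M` has the
property `SqOn` on the orthogonal complement of these vectors in `P`. -/
def PerpOn (C : E → Prop) (M : (E →ₗ[K] E) → Prop) (A : E → Prop) (P : Submodule K E) (j : ℕ) :
    Prop :=
  (∀ x, A x → C x) ∧ (∀ x y, A x → A y → A (x + y)) ∧ NoIso B L A P j ∧
    ∃ U : Submodule K E, OrthTo B A P U ∧ ∀ S, M S → SqOn B L D D' S U j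

/-- `S` keeps the property `A`. -/
def Keeps (A : E → Prop) (S : E →ₗ[K] E) : Prop := ∀ x, A x → A (S x)

end linear

section single

variable {k : Type u} [Field k] {𝒱 : VarClass k} {K : Type v} [Field K] (W : Weil.{u, v, w} 𝒱 K)
  {J : Type} (Y : J → 𝒱.Obj)

/-- `x` is the class of a cycle with rational coefficients. -/
def CycClass (x : Tot W Y) : Prop := ∃ z : ∀ a, TCyc (Y a), ∀ a, x a = clT W (z a)

/-- `S` keeps the property `A`. -/
def TKeeps (A : Tot W Y → Prop) (S : TEnd W Y) : Prop := Keeps A S

variable [Fintype J]

/-- `φ` respects levels and degrees and commutes with `res`, `gys` and `L`. -/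
def Compat (lev : J → ℕ) (res gys L φ : TEnd W Y) : Prop :=
  LevBidegree W Y lev 0 0 φ ∧ ComT W Y φ res ∧ ComT W Y φ gys ∧ ComT W Y φ L

/-- `S` commutes with all members of `G`. -/
def ComAll (G : Set (TEnd W Y)) (S : TEnd W Y) : Prop := ∀ φ ∈ G, ComT W Y φ S

/-- The property `SqOn` on `P` for the sum of the `H(Y a)` and the sum of the forms `Tr (x y)`. -/
def TSqOn (L res gys S : TEnd W Y) (P : Submodule K (Tot W Y)) (j : ℕ) : Prop :=
  SqOn (pairing W Y) L res gys S P j

/-- The same for the property `PerpOn`, with classes of cycles and endomorphisms which commute with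
`G`. -/
def TPerpOn (G : Set (TEnd W Y)) (L res gys : TEnd W Y) (A : Tot W Y → Prop)
    (P : Submodule K (Tot W Y)) (j : ℕ) : Prop :=
  PerpOn (pairing W Y) L res gys (CycClass W Y) (ComAll W Y G) A P j

end single

variable {k : Type u} [Field k] {𝒱 : VarClass k} {I : Type} {K : I → Type v} [∀ l, Field (K l)]
  {W : ∀ l, Weil.{u, v, w} 𝒱 (K l)}

namespace Strata

variable (X : Strata W) (l : I) (G : Set (TEnd (W l) X.Y))

/-- The dimension of the `E_2`-term in the theory `l`. -/
def dimE2 : ℕ := cohDim (X.ed l)

/-- All members of `G` respect levels and degrees and commute with `res`, `gys` and `L`, for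
instance the powers of the normalised Frobenius, which is `q ^ (- ⌈m / 2⌉)` times Frobenius on
`H^m`, automorphisms, or the monodromy of a family of such strata. -/
def CompatibleWith : Prop :=
  ∀ φ ∈ G, Compat (W l) X.Y X.lev (X.res l) (X.gys l) (X.L l) φ

/-- `S` is motivic and commutes with `G` in the theory `l`. -/
def MotCom (S : ∀ l, TEnd (W l) X.Y) : Prop := Motivic W X.Y S ∧ ComAll (W l) X.Y G (S l)

/-- In the theory `l` there is no nonzero endomorphism of square zero of the primitive part
`(i, j)` which is self-adjoint for the form `Tr (x L^j y)`, vanishes where `res` and `gys` vanish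
and is induced by a motivic endomorphism of the sum of the `H(Y a)` commuting with `G`. -/
def NoSquareZeroAt (i j : ℕ) : Prop :=
  ∀ S, X.MotCom l G S → TSqOn (W l) X.Y (X.L l) (X.res l) (X.gys l) (S l) (X.prim l i j) j

/-- There is a set `A` of classes of cycles, closed under sums and stable under the motivic
endomorphisms commuting with `G`, such that the form `Tr (x L^j x)` has no zeros among its nonzero
elements in the primitive part `(i, j)` (the Hodge index theorem and homological equals numerical
equivalence for them), and every linear endomorphism commuting with `G` which maps the orthogonal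
complement of `A` in the primitive part to itself, is self-adjoint and of square zero there and
vanishes there where `res` and `gys` vanish, is zero there. -/
def PerpAt (i j : ℕ) : Prop :=
  ∃ A, (∀ S, X.MotCom l G S → TKeeps (W l) X.Y A (S l)) ∧
    TPerpOn (W l) X.Y G (X.L l) (X.res l) (X.gys l) A (X.prim l i j) j

/-- The primitive part `(i, j)` is good: `NoSquareZeroAt` or `PerpAt` holds. -/
def Good (i j : ℕ) : Prop := X.NoSquareZeroAt l G i j ∨ X.PerpAt l G i j

end Strata

end Pool.Agent.H62S
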