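import Pool.Agent.W_MP_a3c811_h79.MF.SigR
import Pool.Agent.W_MP_a3c811_h79.MF.SigY
import Pool.Agent.W_MP_a3c811_h79.MF.StS

/-! From the conditions of the statements to the abstract condition on the primitive parts. -/

noncomputable section

set_option linter.unusedSectionVars false

namespace Pool.Agent.H62S

open Module Polynomial Pool.Agent.WeilH_h6 Pool.Agent.WeilH_h6.VarClass Pool.Agent.H62D
  Pool.Agent.H62A Pool.Agent.H79L Pool.Agent.H62X Pool.Agent.H79E

universe u v w

variable {k : Type u} [Field k] {𝒱 : VarClass k} {I : Type} {K : I → Type v} [∀ l, Field (K l)]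
  [∀ l, CharZero (K l)] {W : ∀ l, Weil.{u, v, w} 𝒱 (K l)} {X : Strata W}

namespace Strata

variable {l : I} {G : Set (TEnd (W l) X.Y)}

lemma CompatibleWith.com (h : X.CompatibleWith l G) : ∀ φ ∈ G, Com X l φ := by
  intro φ hφ
  obtain ⟨h1, h2, h3, h4⟩ := h φ hφ
  exact com_of h1 h2 h3 h4

/-- a set of vectors closed under sums and under a scalar multiplication as a group -/
def grpOf (A : Tot (W l) X.Y → Prop) (h1 : ∀ x y, A x → A y → A (x + y))
    (h2 : ∀ x, A x → A (-x)) : AddSubgroup (Tot (W l) X.Y) where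
  carrier := {x | A x ∨ x = 0}
  add_mem' := by
    rintro x y (hx | rfl) (hy | rfl)
    · exact Or.inl (h1 x y hx hy)
    · rw [add_zero]; exact Or.inl hx
    · rw [zero_add]; exact Or.inl hy
    · rw [zero_add]; exact Or.inr rfl
  zero_mem' := Or.inr rfl
  neg_mem' := by
    rintro x (hx | rfl)
    · exact Or.inl (h2 x hx)
    · rw [neg_zero]; exact Or.inr rfl

variable [DecidableEq X.J] (hW : Compatible W) (hG : X.CompatibleWith l G)
include hG

/-- the good primitive parts -/
theorem gd_goodS {i j : ℕ} (h : X.Good l G i j) :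
    Gd (K := K l) (E := Tot (W l) X.EY) (X.eN l) (X.eNd l) (X.eL l) (X.eLam l) (X.ed l) X.n
      (posProj (W l) X.EY X.epos) (degProj (W l) X.EY X.epos X.etw) (X.eS l)
      (X.bring l (X.sring l hW G) (yring_sring hW hG.com).pos) i j := by
  have hY := yring_sring hW hG.com
  rcases h with h | ⟨A, hst, hA, hadd, hnz, U0, hU0, hS⟩
  · refine gd_of' hY hW ?_
    intro U hU hm hs hsq hz
    obtain ⟨⟨V, hV, rfl⟩, hc, -⟩ := (mem_sring hW).1 hU
    exact h V ⟨hV, fun φ hφ x => LinearMap.congr_fun (hc φ hφ) x⟩ hm hs hsq hz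
  · have hkeep : ∀ U ∈ X.sring l hW G, ∀ x, A x → A (U x) := by
      intro U hU x hx
      obtain ⟨⟨V, hV, rfl⟩, hc, -⟩ := (mem_sring hW).1 hU
      exact hst V ⟨hV, fun φ hφ x => LinearMap.congr_fun (hc φ hφ) x⟩ x hx
    have hneg : ∀ x, A x → A (-x) := fun x hx =>
      hkeep (-1) (Subring.neg_mem _ (Subring.one_mem _)) x hx
    have hcl : ∀ x ∈ grpOf A hadd hneg, X.IsClass l x := by
      rintro x (hx | rfl)
      · exact hA x hx
      · exact (X.classes l).zero_mem
    have hR : X.RSub l (X.sring l hW G) (grpOf A hadd hneg) := by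
      refine ⟨?_, ?_, ?_⟩
      · rintro U hU x (hx | rfl)
        · exact Or.inl (hkeep U hU x hx)
        · rw [map_zero]; exact Or.inr rfl
      · rintro q x (hx | rfl)
        · exact Or.inl (hkeep _ (hY.rat q _ (Subring.one_mem _)) x hx)
        · rw [smul_zero]; exact Or.inr rfl
      · intro x hx y hy
        exact X.tform_rat hW (hcl x hx) (hcl y hy)
    have e1 : U0 = X.perp l (grpOf A hadd hneg) i j := by
      ext x
      rw [hU0]
      constructor
      · rintro ⟨h1, h2⟩
        refine ⟨h1, ?_⟩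
        rintro z (hz | rfl)
        · exact h2 z hz
        · exact map_zero _
      · rintro ⟨h1, h2⟩
        exact ⟨h1, fun z hz => h2 z (Or.inl hz)⟩
    subst e1
    refine gd_perp hY hR hW ?_ ?_
    · rintro x hx (hxA | rfl) h0
      · exact hnz x hx hxA h0
      · rfl
    intro U hU hm hs hsq hz
    obtain ⟨-, hc, -⟩ := (mem_sring hW).1 hU
    exact hS U (fun φ hφ x => LinearMap.congr_fun (hc φ hφ) x) hm hs hsq hz

end Strata

end Pool.Agent.H62S
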