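import Pool.Agent.W_MP_a3c811_h79.MF.Phi
import Pool.Agent.W_a3c811_h62w.StrataD
import Pool.Agent.W_a3c811_h62w.StrataE

/-! From the strata to the `E_1`-term: anisotropy. -/

noncomputable section

set_option linter.unusedSectionVars false

namespace Pool.Agent.H62S

open Pool.Agent.WeilH_h6 Pool.Agent.WeilH_h6.VarClass Pool.Agent.H62D Pool.Agent.H62A
  Pool.Agent.H79L

universe u v w

variable {k : Type u} [Field k] {𝒱 : VarClass k} {I : Type} {K : I → Type v} [∀ l, Field (K l)]
  [∀ l, CharZero (K l)] {W : ∀ l, Weil.{u, v, w} 𝒱 (K l)} (X : Strata W)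

namespace Strata

variable (l : I)

/-- the inclusion of the `j`-th copies -/
def ins (j : ℕ) : Tot (W l) X.Y →ₗ[K l] Tot (W l) X.EY :=
  LinearMap.pi fun c => if (c.2 : ℕ) = j then LinearMap.proj c.1 else 0

lemma ins_apply (j : ℕ) (y : Tot (W l) X.Y) (c : X.Idx) :
    X.ins l j y c = if (c.2 : ℕ) = j then y c.1 else 0 := by
  unfold ins
  rw [LinearMap.pi_apply]
  split_ifs <;> rfl

/-- the projector onto the levels `≥ j` -/
def gep (j : ℕ) : TEnd (W l) X.Y :=
  ∑ p ∈ Finset.Icc j X.n, posProj (W l) X.Y X.ilev (p : ℤ)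

lemma gep_apply (j : ℕ) (y : Tot (W l) X.Y) (a : X.J) :
    X.gep l j y a = if j ≤ X.lev a then y a else 0 := by
  unfold gep
  rw [LinearMap.sum_apply, Finset.sum_apply]
  simp only [posProj_ilev_apply, Nat.cast_inj]
  rw [Finset.sum_ite_eq]
  have := X.lev_le a
  by_cases h : j ≤ X.lev a
  · rw [if_pos h, if_pos (Finset.mem_Icc.2 ⟨h, this⟩)]
  · rw [if_neg h, if_neg (fun h' => h (Finset.mem_Icc.1 h').1)]

lemma slice_ins (i j : ℕ) (y : Tot (W l) X.Y) (a : X.J) :
    X.slice l i (X.ins l j y) a = if i = j then X.gep l j y a else 0 := by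
  rw [slice_apply, gep_apply]
  by_cases h : i < X.lev a + 1
  · rw [dif_pos h, ins_apply]
    by_cases hij : i = j
    · subst hij
      rw [if_pos rfl, if_pos rfl, if_pos (by omega)]
    · rw [if_neg hij, if_neg hij]
  · rw [dif_neg h]
    by_cases hij : i = j
    · subst hij
      rw [if_pos rfl, if_neg (by omega)]
    · rw [if_neg hij]

lemma sum_ins (x : Tot (W l) X.EY) :
    ∑ j ∈ Finset.range (X.n + 1), X.ins l j (X.slice l j x) = x := by
  funext c
  rw [Finset.sum_apply]
  simp only [ins_apply]
  have h1 : (c.2 : ℕ) ∈ Finset.range (X.n + 1) := by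
    have := X.lev_le c.1
    have := c.2.2
    rw [Finset.mem_range]
    omega
  rw [Finset.sum_ite_eq, if_pos h1, slice_self X l x c]

variable (BY : Subring (Module.End (K l) (Tot (W l) X.Y)))
  (hpos : ∀ p : ℤ, (posProj (W l) X.Y X.ilev p : Module.End (K l) (Tot (W l) X.Y)) ∈ BY)

/-- the block of an endomorphism of the `E_1`-term -/
def block (u : Module.End (K l) (Tot (W l) X.EY)) (i j : ℕ) :
    Module.End (K l) (Tot (W l) X.Y) := X.slice l i ∘ₗ u ∘ₗ X.ins l j

lemma block_mul (u v : Module.End (K l) (Tot (W l) X.EY)) (i j : ℕ) :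
    X.block l (u * v) i j = ∑ m ∈ Finset.range (X.n + 1), X.block l u i m * X.block l v m j := by
  refine LinearMap.ext fun y => ?_
  rw [LinearMap.sum_apply]
  change X.slice l i (u (v (X.ins l j y))) = _
  conv_lhs => rw [← X.sum_ins l (v (X.ins l j y))]
  rw [map_sum, map_sum]
  rfl

include hpos in
lemma gep_mem (j : ℕ) : (X.gep l j : Module.End (K l) (Tot (W l) X.Y)) ∈ BY :=
  Subring.sum_mem _ fun p _ => hpos p

/-- the ring of the endomorphisms of the `E_1`-term all of whose blocks are in `BY` -/
def bring : Subring (Module.End (K l) (Tot (W l) X.EY)) where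
  carrier := {u | ∀ i j, X.block l u i j ∈ BY}
  mul_mem' := by
    intro u v hu hv i j
    rw [block_mul]
    exact Subring.sum_mem _ fun m _ => BY.mul_mem (hu i m) (hv m j)
  one_mem' := by
    intro i j
    by_cases hij : i = j
    · have h1 : X.block l 1 i j = X.gep l j := by
        refine LinearMap.ext fun y => funext fun a => ?_
        change X.slice l i (X.ins l j y) a = _
        rw [slice_ins, if_pos hij]
      rw [h1]
      exact X.gep_mem l BY hpos j
    · have h1 : X.block l 1 i j = 0 := by
        refine LinearMap.ext fun y => funext fun a => ?_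
        change X.slice l i (X.ins l j y) a = _
        rw [slice_ins, if_neg hij]
        rfl
      rw [h1]
      exact BY.zero_mem
  add_mem' := by
    intro u v hu hv i j
    have h1 : X.block l (u + v) i j = X.block l u i j + X.block l v i j := by
      refine LinearMap.ext fun y => ?_
      change X.slice l i (u (X.ins l j y) + v (X.ins l j y)) = _
      rw [map_add]
      rfl
    rw [h1]
    exact BY.add_mem (hu i j) (hv i j)
  zero_mem' := by
    intro i j
    have h1 : X.block l 0 i j = 0 := by
      refine LinearMap.ext fun y => ?_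
      change X.slice l i 0 = _
      rw [map_zero]
      rfl
    rw [h1]
    exact BY.zero_mem
  neg_mem' := by
    intro u hu i j
    have h1 : X.block l (-u) i j = - X.block l u i j := by
      refine LinearMap.ext fun y => ?_
      change X.slice l i (-(u (X.ins l j y))) = _
      rw [map_neg]
      rfl
    rw [h1]
    exact BY.neg_mem (hu i j)

lemma mem_bring {u : Module.End (K l) (Tot (W l) X.EY)} :
    u ∈ X.bring l BY hpos ↔ ∀ i j, X.block l u i j ∈ BY := Iff.rfl

lemma lift_mem_bring {s : ℕ} {T : TEnd (W l) X.Y}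
    (hT : (T : Module.End (K l) (Tot (W l) X.Y)) ∈ BY) :
    (X.lift l s T : Module.End (K l) (Tot (W l) X.EY)) ∈ X.bring l BY hpos := by
  intro i j
  by_cases h : i = j + s
  · have h1 : X.block l (X.lift l s T) i j = X.gep l i * T * X.gep l j := by
      refine LinearMap.ext fun y => funext fun a => ?_
      change X.slice l i (X.lift l s T (X.ins l j y)) a = X.gep l i (T (X.gep l j y)) a
      rw [gep_apply]
      split_ifs with ha
      · have h2 : X.slice l (i - s) (X.ins l j y) = X.gep l j y := by
          funext b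
          rw [slice_ins, if_pos (by omega)]
        rw [slice_lift X l _ _ _ _ _ ha, if_pos (by omega), h2]
      · exact slice_of_lt X l _ (by omega)
    rw [h1]
    exact BY.mul_mem (BY.mul_mem (X.gep_mem l BY hpos i) hT) (X.gep_mem l BY hpos j)
  · have h1 : X.block l (X.lift l s T) i j = 0 := by
      refine LinearMap.ext fun y => funext fun a => ?_
      change X.slice l i (X.lift l s T (X.ins l j y)) a = 0
      by_cases ha : i ≤ X.lev a
      · rw [slice_lift X l _ _ _ _ _ ha]
        split_ifs with hs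
        · have h2 : X.slice l (i - s) (X.ins l j y) = 0 := by
            funext b
            rw [slice_ins, if_neg (by omega)]
            rfl
          rw [h2, map_zero]
          rfl
        · rfl
      · exact slice_of_lt X l _ (by omega)
    rw [h1]
    exact BY.zero_mem

lemma eNd_mem_bring : (X.eNd l : Module.End (K l) (Tot (W l) X.EY)) ∈ X.bring l BY hpos := by
  intro i j
  by_cases h : j = i + 1
  · have h1 : X.block l (X.eNd l) i j = ∑ p ∈ Finset.Icc j X.n,
        (((i + 1) * (p - i) : ℕ) : Module.End (K l) (Tot (W l) X.Y)) *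
          posProj (W l) X.Y X.ilev (p : ℤ) := by
      refine LinearMap.ext fun y => funext fun a => ?_
      change X.slice l i (X.eNd l (X.ins l j y)) a = _
      rw [LinearMap.sum_apply, Finset.sum_apply]
      have h2 : ∀ p ∈ Finset.Icc j X.n, ((((i + 1) * (p - i) : ℕ) :
          Module.End (K l) (Tot (W l) X.Y)) * posProj (W l) X.Y X.ilev (p : ℤ)) y a =
          if X.lev a = p then (((i + 1) * (X.lev a - i) : ℕ) : K l) • y a else 0 := by
        intro p _
        rw [Module.End.mul_apply, Module.End.natCast_apply, Pi.smul_apply, posProj_ilev_apply]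
        simp only [Nat.cast_inj]
        split_ifs with hp
        · rw [hp, Nat.cast_smul_eq_nsmul]
        · rw [smul_zero]
      rw [Finset.sum_congr rfl h2, Finset.sum_ite_eq]
      have hle := X.lev_le a
      by_cases ha : i ≤ X.lev a
      · rw [slice_eNd X l _ _ _ ha, slice_ins, if_pos h.symm, gep_apply]
        by_cases hj : j ≤ X.lev a
        · rw [if_pos hj, if_pos (Finset.mem_Icc.2 ⟨hj, hle⟩)]
        · rw [if_neg hj, if_neg (fun h' => hj (Finset.mem_Icc.1 h').1), smul_zero]
      · rw [if_neg (fun h' => ha (by have := (Finset.mem_Icc.1 h').1; omega))]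
        exact slice_of_lt X l _ (by omega)
    rw [h1]
    exact Subring.sum_mem _ fun p _ => BY.mul_mem (natCast_mem BY _) (hpos p)
  · have h1 : X.block l (X.eNd l) i j = 0 := by
      refine LinearMap.ext fun y => funext fun a => ?_
      change X.slice l i (X.eNd l (X.ins l j y)) a = 0
      by_cases ha : i ≤ X.lev a
      · rw [slice_eNd X l _ _ _ ha, slice_ins, if_neg (by omega), smul_zero]
      · exact slice_of_lt X l _ (by omega)
    rw [h1]
    exact BY.zero_mem

lemma ed_mem_bring (h1 : (X.res l : Module.End (K l) (Tot (W l) X.Y)) ∈ BY)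
    (h2 : (X.gys l : Module.End (K l) (Tot (W l) X.Y)) ∈ BY) :
    (X.ed l : Module.End (K l) (Tot (W l) X.EY)) ∈ X.bring l BY hpos :=
  Subring.add_mem _ (X.lift_mem_bring l BY hpos h1) (X.lift_mem_bring l BY hpos h2)

lemma eN_mem_bring : (X.eN l : Module.End (K l) (Tot (W l) X.EY)) ∈ X.bring l BY hpos :=
  X.lift_mem_bring l BY hpos BY.one_mem

/-- vectors of the primitive parts of the `E_1`-term live on the first copies -/
lemma prim_slice {i j : ℕ} {z : Tot (W l) X.EY}
    (hd : z ∈ degPart (W l) X.EY X.epos X.etw ((X.n : ℤ) - j))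
    (hp : z ∈ posPart (W l) X.EY X.epos (-(i : ℤ))) (hf : X.eNd l z = 0)
    (hg : X.eLam l z = 0) :
    X.slice l 0 z ∈ X.prim l i j ∧ ∀ c, 0 < c → X.slice l c z = 0 := by
  have hc : ∀ c, 0 < c → X.slice l c z = 0 := by
    intro c hc
    funext a
    by_cases ha : c ≤ X.lev a
    · obtain ⟨c', rfl⟩ : ∃ c', c = c' + 1 := ⟨c - 1, by omega⟩
      have h1 := X.slice_eNd l z c' a (by omega)
      rw [hf, map_zero] at h1
      have h2 : ((((c' + 1) * (X.lev a - c') : ℕ)) : K l) ≠ 0 := by
        rw [Nat.cast_ne_zero]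
        exact Nat.mul_ne_zero (by omega) (by omega)
      exact (smul_eq_zero.1 h1.symm).resolve_left h2
    · exact slice_of_lt X l _ (by omega)
  refine ⟨⟨⟨(X.mem_degPart l).1 hd 0, ?_⟩, ?_⟩, hc⟩
  · refine (mem_lpos l).2 ?_
    intro a ha
    rw [slice_of_le X l _ (Nat.zero_le _)]
    have h1 : z ⟨a, ⟨0, Nat.succ_pos _⟩⟩ ∈ (if X.epos ⟨a, ⟨0, Nat.succ_pos _⟩⟩ = -(i : ℤ) then ⊤
      else ⊥ : Submodule (K l) ((W l).H (X.Y a))) := hp ⟨a, ⟨0, Nat.succ_pos _⟩⟩ (Set.mem_univ _)
    rw [if_neg] at h1
    · exact (Submodule.mem_bot _).1 h1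
    · unfold epos
      simp only [Nat.cast_zero, mul_zero, zero_sub, neg_inj]
      exact ha
  · refine LinearMap.mem_ker.2 ?_
    funext a
    have h1 := slice_lift X l 0 (X.Lam l) z 0 a (Nat.zero_le _)
    have h2 : X.lift l 0 (X.Lam l) z = 0 := hg
    rw [h2, map_zero, if_pos le_rfl, Nat.sub_zero] at h1
    exact h1.symm

lemma slice_eN_pow (i : ℕ) (z : Tot (W l) X.EY) (a : X.J) (ha : i ≤ X.lev a) :
    X.slice l i ((X.eN l ^ i) z) a = X.slice l 0 z a := by
  induction i with
  | zero => rfl
  | succ i ih =>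
    rw [pow_succ', Module.End.mul_apply]
    have h1 := slice_lift X l 1 (LinearMap.id) ((X.eN l ^ i) z) (i + 1) a ha
    rw [if_pos (by omega), LinearMap.id_apply, Nat.add_sub_cancel] at h1
    exact h1.trans (ih (by omega))

lemma slice_eL_pow (j : ℕ) (z : Tot (W l) X.EY) (a : X.J) :
    X.slice l 0 ((X.eL l ^ j) z) a = (X.L l ^ j) (X.slice l 0 z) a := by
  have key : X.slice l 0 ((X.eL l ^ j) z) = (X.L l ^ j) (X.slice l 0 z) := by
    induction j with
    | zero => rfl
    | succ j ih =>
      rw [pow_succ', pow_succ', Module.End.mul_apply, Module.End.mul_apply, ← ih]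
      funext b
      have h1 := slice_lift X l 0 (X.L l) ((X.eL l ^ j) z) 0 b (Nat.zero_le _)
      rw [if_pos le_rfl, Nat.sub_zero] at h1
      exact h1
  rw [key]

/-- the form of the `E_1`-term on the primitive parts -/
lemma eform_prim {i j : ℕ} {z z' : Tot (W l) X.EY} (hz : X.slice l 0 z ∈ X.prim l i j)
    (hc : ∀ c, 0 < c → X.slice l c z = 0) (hi : i ≤ X.n) :
    X.eform l z ((X.eN l ^ i) ((X.eL l ^ j) z')) =
      X.pair l (X.slice l 0 z) ((X.L l ^ j) (X.slice l 0 z')) := by
  unfold eform
  rw [Finset.sum_eq_single 0]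
  · rw [Finset.sum_eq_single i]
    · rw [zero_add]
      unfold lform pair
      refine Finset.sum_congr rfl fun a _ => ?_
      split_ifs with ha
      · rw [slice_eN_pow X l i _ a (by omega), slice_eL_pow]
      · have h1 := (mem_lpos l).1 hz.1.2 a (by exact_mod_cast ha)
        rw [h1, zero_mul]
        exact (map_zero ((W l).tr _)).symm
    · intro b _ hb
      rw [zero_add]
      unfold lform
      refine Finset.sum_eq_zero fun a _ => ?_
      split_ifs with ha
      · have h1 := (mem_lpos l).1 hz.1.2 a (by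
          intro h2
          apply hb
          have : X.lev a = i := by exact_mod_cast h2
          omega)
        rw [h1, zero_mul]
        exact map_zero ((W l).tr _)
      · rfl
    · intro h
      exact absurd (Finset.mem_range.2 (by omega)) h
  · intro b _ hb
    refine Finset.sum_eq_zero fun j _ => ?_
    rw [hc b (by omega), X.lform_zero_left]
  · intro h
    exact absurd (Finset.mem_range.2 (by omega)) h

/-- anisotropy of the `E_1`-term from anisotropy of the strata -/
theorem noIso_of_strata {S : Tot (W l) X.EY →ₗ[K l] Tot (W l) X.EY →ₗ[K l] K l}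
    (hS : ∀ x y, S x y = X.eform l x y)
    (hBY : ∀ U ∈ BY, ∀ i j : ℕ, (∀ x, U x ∈ X.prim l i j) →
      (∀ x y, X.pair l (U x) ((X.L l ^ j) (U y)) = 0) → U = 0) :
    NoIso (X.bring l BY hpos) (X.eN l) (X.eNd l) (X.eL l) (X.eLam l) X.n
      (posProj (W l) X.EY X.epos) (degProj (W l) X.EY X.epos X.etw) S := by
  intro u hu i j h1 h2 h3 h4
  have hd : ∀ x, u x ∈ degPart (W l) X.EY X.epos X.etw ((X.n : ℤ) - j) := by
    intro x
    rw [← h1 x]
    exact degProj_mem _ _ _ _ _ _
  have hp : ∀ x, u x ∈ posPart (W l) X.EY X.epos (-(i : ℤ)) := by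
    intro x
    rw [← h1 x]
    have h5 := LinearMap.congr_fun
      (degProj_comm_posProj (W l) X.EY X.epos X.etw ((X.n : ℤ) - j) (-i)) (u x)
    rw [LinearMap.comp_apply, LinearMap.comp_apply] at h5
    rw [h5]
    exact posProj_mem _ _ _ _ _
  have hs := fun x => X.prim_slice l (hd x) (hp x) (LinearMap.congr_fun h2 x)
    (LinearMap.congr_fun h3 x)
  by_cases hi : i ≤ X.n
  · have key : ∀ m, X.block l u 0 m = 0 := by
      intro m
      refine hBY _ (hu 0 m) i j (fun x => (hs (X.ins l m x)).1) fun x y => ?_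
      have h5 := h4 (X.ins l m x) (X.ins l m y)
      rw [hS, X.eform_prim l (hs _).1 (hs _).2 hi] at h5
      exact h5
    refine LinearMap.ext fun x => ?_
    rw [← X.sum_ins l x, map_sum, LinearMap.zero_apply]
    refine Finset.sum_eq_zero fun m _ => ?_
    refine X.ext_slice l fun c a _ => ?_
    rw [map_zero]
    rcases Nat.eq_zero_or_pos c with rfl | hc
    · exact congrFun (LinearMap.congr_fun (key m) (X.slice l m x)) a
    · rw [(hs _).2 c hc]
  · refine LinearMap.ext fun x => ?_
    refine X.ext_slice l fun c a _ => ?_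
    rw [LinearMap.zero_apply, map_zero]
    rcases Nat.eq_zero_or_pos c with rfl | hc
    · exact (mem_lpos l).1 (hs x).1.1.2 a (by
        intro h5
        have h6 : X.lev a = i := by exact_mod_cast h5
        have := X.lev_le a
        omega)
    · rw [(hs _).2 c hc]

end Strata

end Pool.Agent.H62S
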