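import Pool.Agent.W_MP_a3c811_h79.MF.StMF
import Pool.Agent.W_a3c811_h62.Alg

/-! Motivic endomorphisms map classes of cycles to classes of cycles. -/

noncomputable section

namespace Pool.Agent.H62S

open Polynomial Pool.Agent.WeilH_h6 Pool.Agent.WeilH_h6.VarClass Pool.Agent.H62D Pool.Agent.H62A

universe u v w

variable {k : Type u} [Field k] {𝒱 : VarClass k} {I : Type} {K : I → Type v} [∀ l, Field (K l)]
  [∀ l, CharZero (K l)] {W : ∀ l, Weil.{u, v, w} 𝒱 (K l)}

theorem JHom_JC (hW : Compatible W) {X Y : 𝒱.Obj} {φ : ∀ l, (W l).H X →ₗ[K l] (W l).H Y}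
    (hφ : φ ∈ JHom W X Y) {y : ∀ l, (W l).H X} (hy : y ∈ JC W X) :
    (fun l => φ l (y l)) ∈ JC W Y := by
  obtain ⟨x, hx, hφ⟩ := hφ
  have h1 := JC_mul hW hx (JC_pull hW (Obj.fst X Y) hy)
  obtain ⟨s, hs, h2⟩ := JC_push hW (Obj.snd X Y) h1
  have h3 : (fun l => φ l (y l)) = s := by
    funext l
    refine (W l).ext_tr fun v => ?_
    rw [hφ, Weil.tr_act, h2]
    rw [mul_assoc]
  rw [h3]
  exact hs

variable {X : Strata W}

theorem isClass_map (hW : Compatible W) {U : ∀ l, TEnd (W l) X.Y} (hU : Motivic W X.Y U) {l : I}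
    {x : Tot (W l) X.Y} (hx : X.IsClass l x) : X.IsClass l (U l x) := by
  classical
  obtain ⟨z, hz⟩ := hx
  have hx' : x = fun a => clT (W l) (z a) := funext hz
  rw [motivic_iff] at hU
  have key : ∀ b, (fun l => ∑ a, blk (W l) (U l) a b (clT (W l) (z a))) ∈ JC W (X.Y b) := by
    intro b
    have h1 : (fun l => ∑ a, blk (W l) (U l) a b (clT (W l) (z a))) =
        ∑ a, fun l => blk (W l) (U l) a b (clT (W l) (z a)) := by
      funext l
      rw [Finset.sum_apply]
    rw [h1]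
    exact AddSubgroup.sum_mem _ fun a _ => JHom_JC hW (hU a b) (clT_mem_JC W (z a))
  choose t ht using key
  refine ⟨t, fun b => ?_⟩
  rw [← ht b l, hx', blk_apply]

end Pool.Agent.H62S
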