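import Pool.Agent.W_a3c811_h62w.Ab18

/-! The kernel part of the Laplacian when the pair `(1, 0)` carries no self-adjoint operator with
square zero: hard Lefschetz replaces weight-monodromy. -/

noncomputable section

set_option linter.unusedSectionVars false

namespace Pool.Agent.H79E

open Module Pool.Agent.H79L Pool.Agent.H62X

universe v w

variable {K : Type v} [Field K] [CharZero K] {E : Type w} [AddCommGroup E] [Module K E]
  [FiniteDimensional K E]
  {N f L g d : Module.End K E} {n : ℤ} {s t : ℤ → Module.End K E}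
  {P D : Finset ℤ} {S : E →ₗ[K] E →ₗ[K] K} {B : Subring (Module.End K E)}
  {e Z : Module.End K E}

/-- the exceptional pairs -/
def A3 : Finset (ℕ × ℕ) := {(0, 0), (0, 1), (1, 0)}

lemma A3_sub : ∀ ij ∈ A3, ij = (0, 0) ∨ ij = (0, 1) ∨ ij = (1, 0) := by
  intro ij hij
  unfold A3 at hij
  simpa using hij

lemma mem01 : (0, 1) ∈ A3 := by decide
lemma mem10 : (1, 0) ∈ A3 := by decide

/-- The conditions on the cohomology: parts of the hard Lefschetz theorem. -/
structure HL (L d : Module.End K E) (s t : ℤ → Module.End K E) (n : ℤ) : Prop where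
  l00 : EI L d s t n (-1) (-1) (-1) 1
  l01 : EI (L ^ 2) d s t n (-1) (-2) (-1) 2
  l0 : EI L d s t n 0 (-1) 0 1
  l10 : EI L d s t n (-2) (-1) (-2) 1

/-- No nonzero self-adjoint member of `B` which commutes with the operators and lives on the
isotypic part `(1, 0)` has square zero. -/
def NoSq (N f L g : Module.End K E) (n : ℤ) (s t : ℤ → Module.End K E)
    (S : E →ₗ[K] E →ₗ[K] K) (B : Subring (Module.End K E)) : Prop :=
  ∀ u ∈ B, (∀ b, u * gen N f L g b = gen N f L g b * u) → (∀ p, u * s p = s p * u) →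
    (∀ w, u * t w = t w * u) → Adj S u u →
    (∀ p w, ¬ ((p = 1 ∨ p = -1) ∧ w = 0) → ∀ x, At s t n p w x → u x = 0) → u * u = 0 → u = 0

section nz

lemma nz3 (he : IsoPr N f L g n s t S B A3 e) {p w : ℤ}
    (hn : ¬ ((p = 0 ∧ w = 0) ∨ (p = 0 ∧ (w = 1 ∨ w = -1)) ∨ ((p = 1 ∨ p = -1) ∧ w = 0)))
    {x : E} (hex : e x = 0) (hat : At s t n p w x) : x = 0 := by
  by_contra hx0
  rcases supp3 he A3_sub hex hat hx0 with ⟨-, h⟩ | ⟨-, h⟩ | ⟨-, h⟩
  · exact hn (Or.inl h)
  · exact hn (Or.inr (Or.inl h))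
  · exact hn (Or.inr (Or.inr h))

end nz

variable (h : Pol N f L g d n s t P D S B)
  (hZ : Har N f L g d s t S B Z) (he : IsoPr N f L g n s t S B A3 e) (hL : HL L d s t n)
include h hZ he hL

lemma k00 (hQ : Qe f g d Z e 1) {v : E} (hv : InH e Z v) (hat : At s t n (-1) (-1) v) :
    d v = 0 := by
  have hbi := h.bi
  refine kill1 h hZ he hQ (O := L) (p := -1) (w := -1) (q := -1) (u := 1) (hZ.cg 2) (he.cg 2)
    ?_ ?_ hL.l00.surj ?_ ?_ ?_ hv hat
  · intro x hxa
    have := hxa.aL hbi
    simpa using this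
  · intro x hxa h0
    refine hbi.sl2.inj 1 1 le_rfl x ?_ ?_
    · have := hxa.ht
      simpa using this
    · rw [pow_one]; exact h0
  · exact fun x hex hxa => nz3 he (by omega) hex hxa
  · exact fun x hex hxa => nz3 he (by omega) hex hxa
  · exact fun x hex hxa => nz3 he (by omega) hex hxa

lemma kL3 (hQ : Qe f g d Z e 1) {v : E} (hv : InH e Z v) (hat : At s t n (-1) (-2) v) :
    d v = 0 := by
  have hbi := h.bi
  have hLL : ∀ x, (L ^ 2) x = L (L x) := fun x => by rw [pow_two]; rfl
  refine kill1 h hZ he hQ (O := L ^ 2) (p := -1) (w := -2) (q := -1) (u := 2) ?_ ?_ ?_ ?_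
    hL.l01.surj ?_ ?_ ?_ hv hat
  · exact ((show Commute Z L from hZ.cg 2).pow_right 2).eq
  · exact ((show Commute e L from he.cg 2).pow_right 2).eq
  · intro x hxa
    rw [hLL]
    have := (hxa.aL hbi).aL hbi
    simpa using this
  · intro x hxa h0
    refine hbi.sl2.inj 2 2 le_rfl x ?_ h0
    have := hxa.ht
    simpa using this
  · exact fun x hex hxa => nz3 he (by omega) hex hxa
  · exact fun x hex hxa => nz3 he (by omega) hex hxa
  · exact fun x hex hxa => nz3 he (by omega) hex hxa

lemma kN3 (hQ : Qe f g d Z e 1) {v : E} (hv : InH e Z v) (hat : At s t n (-2) (-1) v) :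
    d v = 0 := by
  have hbi := h.bi
  refine kill1 h hZ he hQ (O := L) (p := -2) (w := -1) (q := -2) (u := 1) (hZ.cg 2) (he.cg 2)
    ?_ ?_ hL.l10.surj ?_ ?_ ?_ hv hat
  · intro x hxa
    have := hxa.aL hbi
    simpa using this
  · intro x hxa h0
    refine hbi.sl2.inj 1 1 le_rfl x ?_ ?_
    · have := hxa.ht
      simpa using this
    · rw [pow_one]; exact h0
  · exact fun x hex hxa => nz3 he (by omega) hex hxa
  · exact fun x hex hxa => nz3 he (by omega) hex hxa
  · exact fun x hex hxa => nz3 he (by omega) hex hxa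

lemma kLtop3 (hQ : Qe f g d Z e 1) {v : E} (hv : InH e Z v) (hat : At s t n (-1) 0 v) :
    d v = 0 := by
  have hbi := h.bi
  obtain ⟨y, z, rfl, hgy, ⟨hya, hyi⟩, hza, hzi⟩ := splitL h hZ he hv hat
  have h1 : d (L z) = 0 := by
    have h2 : L (d z) = d (L z) := LinearMap.congr_fun hbi.Ld z
    rw [← h2, kL3 h hZ he hL hQ hzi hza, map_zero]
  have h2 : d y = 0 := by
    obtain ⟨z', rfl, hza', hzi'⟩ := imN_of h hZ he mem10 hyi hya hgy
    have h3 : N (d z') = d (N z') := LinearMap.congr_fun hbi.Nd z'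
    have h4 : d z' = 0 := nz3 he (by omega) (hQ.qd hzi') (hza'.ad hbi)
    rw [← h3, h4, map_zero]
  rw [map_add, h1, h2, add_zero]

lemma kNtop3 (hQ : Qe f g d Z e 1) {v : E} (hv : InH e Z v) (hat : At s t n 0 (-1) v) :
    d v = 0 := by
  have hbi := h.bi
  obtain ⟨y, z, rfl, hfy, ⟨hya, hyi⟩, hza, hzi⟩ := splitN h hZ he hv hat
  have h1 : d (N z) = 0 := by
    have h2 : N (d z) = d (N z) := LinearMap.congr_fun hbi.Nd z
    rw [← h2, kN3 h hZ he hL hQ hzi hza, map_zero]
  have h2 : d y = 0 := by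
    obtain ⟨z', rfl, hza', hzi'⟩ := imL_of h hZ he mem01 hyi hya hfy
    have h3 : L (d z') = d (L z') := LinearMap.congr_fun hbi.Ld z'
    have h4 : d z' = 0 := nz3 he (by omega) (hQ.qd hzi') (hza'.ad hbi)
    rw [← h3, h4, map_zero]
  rw [map_add, h1, h2, add_zero]

/-- the differential vanishes on the image of `e Z` -/
theorem d_inH3 (hQ : Qe f g d Z e 1) {v : E} (hv : InH e Z v) : d v = 0 := by
  have hbi := h.bi
  have hom : ∀ p w, ∀ v, InH e Z v → At s t n p w v → d v = 0 := by
    intro p w v hv hat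
    by_contra hne
    rcases supp3 he A3_sub (hQ.qd hv) (hat.ad hbi) hne with ⟨-, h1, h2⟩ | ⟨-, h1, h2⟩ |
      ⟨-, h1, h2⟩
    · obtain rfl : p = -1 := by omega
      obtain rfl : w = -1 := by omega
      exact hne (k00 h hZ he hL hQ hv hat)
    · obtain rfl : p = -1 := by omega
      rcases h2 with h2 | h2
      · obtain rfl : w = 0 := by omega
        exact hne (kLtop3 h hZ he hL hQ hv hat)
      · obtain rfl : w = -2 := by omega
        exact hne (kL3 h hZ he hL hQ hv hat)
    · obtain rfl : w = -1 := by omega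
      rcases h1 with h1 | h1
      · obtain rfl : p = 0 := by omega
        exact hne (kNtop3 h hZ he hL hQ hv hat)
      · obtain rfl : p = -2 := by omega
        exact hne (kN3 h hZ he hL hQ hv hat)
  have h1 := hbi.decomp v
  rw [h1, map_sum]
  refine Finset.sum_eq_zero fun w _ => ?_
  rw [map_sum]
  refine Finset.sum_eq_zero fun p _ => ?_
  refine hom p (w - n) _ ⟨?_, ?_⟩ ?_
  · have e1 : e (s p v) = s p v := by rw [app_comm (he.cs p), hv.e]
    rw [app_comm (he.ct w), e1]
  · have e1 : Z (s p v) = s p v := by rw [app_comm (hZ.cs p), hv.z]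
    rw [app_comm (hZ.ct w), e1]
  · have := at_comp hbi p (w - n) v
    rwa [sub_add_cancel] at this

/-- the part of the image of `Z` in the kernel of `e` is stable under the differential -/
lemma ed_zero3 (hQ : Qe f g d Z e 1) {x : E} (hzx : Z x = x) : e (d x) = 0 := by
  refine h.ndl _ fun y => ?_
  have e1 : e (d x) = e (d (Z x)) := by rw [hzx]
  have e2 : d (Z (e y)) = 0 := by
    have h1 : Z (e y) = e (Z y) := (app_comm (he.cZ hZ) y).symm
    rw [h1]
    exact d_inH3 h hZ he hL hQ (inH_of hZ he y)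
  rw [e1, he.adj.1, h.ad, hZ.adj.1]
  have e3 : Z (d (e y)) = d (Z (e y)) := app_comm hZ.cd _
  rw [e3, e2, map_zero]

omit he hL in
/-- the Laplacian commutes with `Z` -/
lemma cZlap : Z * lap f g d = lap f g d * Z := by
  have h3 := hZ.c_cmp h 3
  have h3' : Z * br f (br g d) = br f (br g d) * Z := h3
  unfold lap
  rw [mul_add, add_mul]
  congr 1
  · rw [← mul_assoc, hZ.cd, mul_assoc, h3', ← mul_assoc]
  · rw [← mul_assoc, h3', mul_assoc, hZ.cd, ← mul_assoc]

omit he hL in
/-- the Laplacian vanishes on the part `(1, 0)` -/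
lemma lap_ten (hE : NoSq N f L g n s t S B) {e' : Module.End K E}
    (he' : IsoPr N f L g n s t S B {(1, 0)} e') : (1 - e') * (lap f g d * Z) = 0 := by
  have hbi := h.bi
  set ε : Module.End K E := 1 - e' with hε
  have ε_comm : ∀ T : Module.End K E, e' * T = T * e' → ε * T = T * ε := by
    intro T hT
    rw [hε, sub_mul, mul_sub, one_mul, mul_one, hT]
  have cεl : ε * lap f g d = lap f g d * ε := ε_comm _ (he'.lap h)
  have cεZ : ε * Z = Z * ε := ε_comm _ (he'.cZ hZ)
  have czl := cZlap h hZ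
  have ε_id : ∀ x, e' (ε x) = 0 := by
    intro x
    change e' (x - e' x) = 0
    rw [map_sub, he'.ee, sub_self]
  set u : Module.End K E := ε * (lap f g d * Z) with hu
  have cu : ∀ T : Module.End K E, e' * T = T * e' → Z * T = T * Z →
      lap f g d * T = T * lap f g d → u * T = T * u := by
    intro T h1 h2 h3
    rw [hu, mul_assoc, mul_assoc, h2, ← mul_assoc (lap f g d), h3, ← mul_assoc, ← mul_assoc,
      ε_comm T h1, mul_assoc T, mul_assoc T, mul_assoc ε]
  have hadjε : Adj S ε ε := Adj.one.sub he'.adj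
  have huB : u ∈ B := mul_mem (sub_mem (one_mem _) he'.mem) (mul_mem (lap_mem h) hZ.mem)
  have hgen : ∀ b, u * gen N f L g b = gen N f L g b * u := fun b =>
    cu _ (he'.cg b) (hZ.cg b) (lap_gen hbi b).symm
  have hs : ∀ p, u * s p = s p * u := fun p => cu _ (he'.cs p) (hZ.cs p) (lap_s hbi p).symm
  have ht : ∀ w, u * t w = t w * u := fun w => cu _ (he'.ct w) (hZ.ct w) (lap_t hbi w).symm
  have hadj : Adj S u u := by
    have h1 := hadjε.mul ((adj_lap h).mul hZ.adj)
    have h2 : Z * lap f g d * ε = u := by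
      rw [hu, czl, mul_assoc, ← cεZ, ← mul_assoc, ← cεl, mul_assoc]
    rwa [h2] at h1
  have hsupp : ∀ p w, ¬ ((p = 1 ∨ p = -1) ∧ w = 0) → ∀ x, At s t n p w x → u x = 0 := by
    intro p w hn x hx
    by_contra h0
    have h1 : At s t n p w (u x) := hx.of_comm0 hs ht
    obtain ⟨ij, hij, ⟨a1, a2⟩, b1, b2⟩ := he'.supp (u x) p w (ε_id _) h1.hs h1.ht h0
    rw [Finset.mem_singleton] at hij
    subst hij
    rw [abs_le] at a1 b1
    obtain ⟨r, hr⟩ := a2
    push_cast at a1 b1 hr
    apply hn
    omega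
  have hnil : ∃ m, u ^ m = 0 := by
    obtain ⟨M, hM⟩ := hZ.nil
    refine ⟨M + 1, ?_⟩
    have c1 : Commute ε (lap f g d * Z) := by
      refine Commute.mul_right ?_ ?_
      · exact cεl
      · exact cεZ
    have c2 : Commute (lap f g d) Z := czl.symm
    rw [hu, c1.mul_pow, c2.mul_pow, pow_succ' (lap f g d), pow_succ' Z, mul_assoc (lap f g d),
      ← mul_assoc (lap f g d ^ M), hM, zero_mul, mul_zero, mul_zero]
  -- the least exponent
  by_contra hu0
  obtain ⟨m, hm⟩ := hnil
  have key : ∀ m, u ^ m = 0 → u = 0 := by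
    intro m
    induction m using Nat.strong_induction_on with
    | _ m ih =>
      intro hm
      by_cases h1 : m ≤ 1
      · rcases Nat.le_one_iff_eq_zero_or_eq_one.1 h1 with rfl | rfl
        · rw [pow_zero] at hm
          calc u = 1 * u := (one_mul u).symm
            _ = 0 := by rw [hm, zero_mul]
        · rwa [pow_one] at hm
      · refine ih (m - 1) (by omega) ?_
        refine hE _ (pow_mem huB _) ?_ ?_ ?_ (hadj.pow _) ?_ ?_
        · exact fun b => ((show Commute u (gen N f L g b) from hgen b).pow_left _).eq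
        · exact fun p => ((show Commute u (s p) from hs p).pow_left _).eq
        · exact fun w => ((show Commute u (t w) from ht w).pow_left _).eq
        · intro p w hn x hx
          obtain ⟨r, rfl⟩ : ∃ r, m = r + 2 := ⟨m - 2, by omega⟩
          have : r + 2 - 1 = r + 1 := by omega
          rw [this, pow_succ, Module.End.mul_apply, hsupp p w hn x hx, map_zero]
        · rw [← pow_add]
          obtain ⟨r, hr⟩ : ∃ r, m - 1 + (m - 1) = m + r := ⟨m - 2, by omega⟩
          rw [hr, pow_add, hm, zero_mul]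
  exact hu0 (key m hm)

/-- the part of `(1, 0)` -/
lemma last10 (hB : ∀ (r : ℚ), ∀ u ∈ B, (r : K) • u ∈ B) (hE : NoSq N f L g n s t S B)
    (hQ : Qe f g d Z e 1) {y : E} (hzy : Z y = y) (hey : e y = 0)
    (hat : At s t n (-1) 0 y) : d y = 0 := by
  have hbi := h.bi
  obtain ⟨e', he'⟩ := exists_isoPr h hB {(1, 0)}
  have hlap := lap_ten h hZ hE he'
  have cdZ : ∀ x, Z (d x) = d (Z x) := app_comm hZ.cd
  have keg : ∀ {x : E}, e x = 0 → ∀ b, e (gen N f L g b x) = 0 := by
    intro x h0 b
    rw [app_comm (he.cg b), h0, map_zero]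
  have kf : ∀ {x : E}, e x = 0 → e (f x) = 0 := fun h0 => keg h0 1
  have kg : ∀ {x : E}, e x = 0 → e (g x) = 0 := fun h0 => keg h0 3
  have kN' : ∀ {x : E}, e x = 0 → e (N x) = 0 := fun h0 => keg h0 0
  have kL' : ∀ {x : E}, e x = 0 → e (L x) = 0 := fun h0 => keg h0 2
  have zg : ∀ {x : E}, Z x = x → Z (g x) = g x := fun h0 => by
    have := app_comm (hZ.cg 3) (U := g) (T := Z)
    rw [this, h0]
  -- `y` lies in the isotypic part `(1, 0)`
  have h1 : e' y = 0 := by
    have hr : At s t n (-1) 0 (e' y) := hat.of_comm0 he'.cs he'.ct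
    have her : e (e' y) = 0 := by
      have h2 : e * e' = e' * e := he.comm _ he'.cg
      rw [app_comm h2, hey, map_zero]
    have hf : f (e' y) = 0 := nz3 he (by omega) (kf her) (hr.af hbi)
    have hg : g (e' y) = 0 := nz3 he (by omega) (kg her) (hr.ag hbi)
    have hp : e' y ∈ prim f g n s t 1 0 := by
      rw [mem_prim_iff hbi]
      refine ⟨?_, ?_, hf, hg⟩
      · have := hr.hs; simpa using this
      · have := hr.ht; simpa using this
    rw [← he'.ee y]
    exact he'.kill 1 0 (by simp) _ hp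
  have h2 : lap f g d y = 0 := by
    have h3 := LinearMap.congr_fun hlap y
    have h4 : ((1 - e') * (lap f g d * Z)) y = lap f g d (Z y) - e' (lap f g d (Z y)) := rfl
    rw [h4, hzy, LinearMap.zero_apply, app_comm (he'.lap h), h1, map_zero, sub_zero] at h3
    exact h3
  -- the round trip
  have hc : At s t n 0 1 (d y) := by simpa using hat.ad hbi
  have hec : e (d y) = 0 := ed_zero3 h hZ he hL hQ hzy
  have hfy : f y = 0 := nz3 he (by omega) (kf hey) (hat.af hbi)
  have hgy : g y = 0 := nz3 he (by omega) (kg hey) (hat.ag hbi)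
  have hfc : f (d y) = 0 := nz3 he (by omega) (kf hec) (hc.af hbi)
  have hdd : ∀ x, d (d x) = 0 := fun x => LinearMap.congr_fun hbi.dd x
  have hfg : ∀ x, f (g x) = g (f x) := fun x => LinearMap.congr_fun hbi.fg x
  have e1 : br f (br g d) y = 0 := by
    change f (g (d y) - d (g y)) - (g (d (f y)) - d (g (f y))) = 0
    rw [hgy, hfy, map_sub, hfg, hfc]
    simp
  have e2 : br f (br g d) (d y) = -f (d (g (d y))) := by
    change f (g (d (d y)) - d (g (d y))) - (g (d (f (d y))) - d (g (f (d y)))) = _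
    rw [hdd, hfc]
    simp
  have h3 : f (d (g (d y))) = 0 := by
    have h4 : lap f g d y = d (br f (br g d) y) + br f (br g d) (d y) := rfl
    rw [h2, e1, e2, map_zero, zero_add] at h4
    exact neg_eq_zero.1 h4.symm
  have hz : At s t n 0 (-1) (g (d y)) := by simpa using hc.ag hbi
  have hzz : Z (g (d y)) = g (d y) := zg (by rw [cdZ, hzy])
  have hb : At s t n 1 0 (d (g (d y))) := by simpa using hz.ad hbi
  have heb : e (d (g (d y))) = 0 := ed_zero3 h hZ he hL hQ hzz
  have hNb : N (d (g (d y))) = 0 := nz3 he (by omega) (kN' heb) (hb.aN hbi)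
  have h4 : d (g (d y)) = 0 := by
    have := hb.brN hbi
    rw [hNb, h3, map_zero, map_zero, zero_add, Int.cast_one, one_smul] at this
    exact this.symm
  have hLc : L (d y) = 0 := nz3 he (by omega) (kL' hec) (hc.aL hbi)
  have h5 : L (g (d y)) = d y := by
    have := hc.brL hbi
    rwa [hLc, map_zero, zero_add, Int.cast_one, one_smul] at this
  obtain ⟨y1, hy1⟩ := hL.l0.inj _ hz h4 ⟨y, h5⟩
  obtain ⟨y', hya, hy'⟩ := at_hom hbi hz hy1
  have i1 : InH e Z (Z y') := inH_of_nz h hZ he (fun x h1 h2 => nz3 he (by omega) h1 h2)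
    (hya.of_comm0 hZ.cs hZ.ct) (LinearMap.congr_fun hZ.idem y')
  have h6 : g (d y) = 0 := by
    rw [← hzz, hy', cdZ]
    exact d_inH3 h hZ he hL hQ i1
  rw [← h5, h6, map_zero]

/-- The differential vanishes on the kernel part of the Laplacian, if all primitive parts `(i, j)`
with `2 ≤ i + j` are anisotropic and the part `(1, 0)` carries no self-adjoint operator with square
zero. -/
theorem mainE (hB : ∀ (r : ℚ), ∀ u ∈ B, (r : K) • u ∈ B) (hE : NoSq N f L g n s t S B)
    (hA : ∀ i j, (i, j) ∉ A3 →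
      Aniso N f L g n s t S B (radS f g d ⊓ LinearMap.range e) i j) : d * Z = 0 := by
  have hbi := h.bi
  have hQ := Qe_one h hZ he hA
  have cdZ : ∀ x, Z (d x) = d (Z x) := app_comm hZ.cd
  have hom : ∀ p w x, Z x = x → e x = 0 → At s t n p w x → d x = 0 := by
    intro p w x hzx hex hat
    by_contra hne
    have hx0 : x ≠ 0 := by rintro rfl; exact hne (map_zero d)
    have h1 := supp3 he A3_sub hex hat hx0
    have h2 := supp3 he A3_sub (ed_zero3 h hZ he hL hQ hzx) (hat.ad hbi) hne
    have hc : (p = 0 ∧ w = -1) ∨ (p = -1 ∧ w = 0) := by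
      rcases h1 with ⟨-, a2, a3⟩ | ⟨-, a2, a3⟩ | ⟨-, a2, a3⟩ <;>
        rcases h2 with ⟨-, b2, b3⟩ | ⟨-, b2, b3⟩ | ⟨-, b2, b3⟩ <;> omega
    rcases hc with ⟨rfl, rfl⟩ | ⟨rfl, rfl⟩
    · -- the adjoint case
      apply hne
      have hdat : At s t n 1 0 (d x) := by simpa using hat.ad hbi
      refine h.ndl _ fun y => ?_
      set y' := t (0 + n) (s (-1) (y - e y)) with hy'
      have hya : At s t n (-1) 0 (Z y') := (at_comp hbi (-1) 0 _).of_comm0 hZ.cs hZ.ct
      have hey : e y' = 0 := by
        rw [hy', app_comm (he.ct _), app_comm (he.cs _), map_sub, he.ee, sub_self, map_zero,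
          map_zero]
      have heZy : e (Z y') = 0 := by rw [app_comm (he.cZ hZ), hey, map_zero]
      have hZy : Z (Z y') = Z y' := LinearMap.congr_fun hZ.idem y'
      have h3 := last10 h hZ he hL hB hE hQ hZy heZy hya
      have hed : e (d x) = 0 := ed_zero3 h hZ he hL hQ hzx
      have e1 : S (d x) y = S (d x) (y - e y) := by
        have : S (d x) (e y) = 0 := by rw [← he.adj.1, hed, map_zero, LinearMap.zero_apply]
        rw [map_sub, this, sub_zero]
      have e2 : S (d x) (y - e y) = S (d x) y' := by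
        have k1 := (h.adjt (0 + n)).1 (d x) (y - e y)
        rw [hdat.ht, show 2 * n - (0 + n) = 0 + n by ring] at k1
        have k2 := (h.adjs 1).1 (d x) (t (0 + n) (y - e y))
        rw [hdat.hs] at k2
        have k3 : s (-1) (t (0 + n) (y - e y)) = y' := LinearMap.congr_fun (hbi.st (0 + n) (-1)) _
        rw [k1, k2, k3]
      have e3 : S (d x) y' = S (d x) (Z y') := by
        have k1 := hZ.adj.1 (d x) y'
        rwa [cdZ, hzx] at k1
      rw [e1, e2, e3, h.ad, h3, map_zero]
    · exact hne (last10 h hZ he hL hB hE hQ hzx hex hat)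
  have key : ∀ x, Z x = x → d x = 0 := by
    intro x hzx
    have hZe : Z (e x) = e x := by rw [← app_comm (he.cZ hZ), hzx]
    have h1 : d (e x) = 0 := d_inH3 h hZ he hL hQ ⟨he.ee x, hZe⟩
    have h2 : d (x - e x) = 0 := by
      have hz2 : Z (x - e x) = x - e x := by rw [map_sub, hzx, hZe]
      have he2 : e (x - e x) = 0 := by rw [map_sub, he.ee, sub_self]
      generalize x - e x = y at hz2 he2
      have h1 := hbi.decomp y
      rw [h1, map_sum]
      refine Finset.sum_eq_zero fun w _ => ?_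
      rw [map_sum]
      refine Finset.sum_eq_zero fun p _ => hom p (w - n) _ ?_ ?_ ?_
      · rw [app_comm (hZ.ct w), app_comm (hZ.cs p), hz2]
      · rw [app_comm (he.ct w), app_comm (he.cs p), he2, map_zero, map_zero]
      · have := at_comp hbi p (w - n) y
        rwa [sub_add_cancel] at this
    rw [map_sub, h1, sub_zero] at h2
    exact h2
  exact LinearMap.ext fun x => key _ (LinearMap.congr_fun hZ.idem x)

omit he in
/-- The same with the types of the primitive parts. -/
theorem mainE' (hB : ∀ (r : ℚ), ∀ u ∈ B, (r : K) • u ∈ B) (hE : NoSq N f L g n s t S B)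
    {Wt : ℕ → ℕ → Prop} (hW : WeilT N f L g n s t S B Wt)
    (hT : ∀ i j, 2 ≤ i + j → Str N f L g d n s t S B i j ∨ Wt i j) : d * Z = 0 := by
  obtain ⟨e, he⟩ := exists_isoPr h hB A3
  have hmem : ∀ i j, (i, j) ∉ A3 → 2 ≤ i + j := by
    intro i j hij
    by_contra hc
    apply hij
    unfold A3
    simp only [Finset.mem_insert, Finset.mem_singleton, Prod.mk.injEq]
    omega
  have hst := (stab_radS h.bi).inf he.stabR
  refine mainE h hZ he hL hB hE fun i j hij => ?_
  rcases hT i j (hmem i j hij) with hs | hw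
  · rintro u ⟨hu, hur, -⟩ hup iso
    exact hs u hu (fun x => (hur x).1) hup iso
  · refine weil_aniso h hW hst inf_le_left (fun i' j' => ?_) hw
    by_cases hij' : (i', j') ∈ A3
    · refine Or.inr (Or.inr fun x hxR hxp => ?_)
      rw [← he.mem_range.1 hxR.2]
      exact he.kill i' j' hij' x hxp
    · rcases hT i' j' (hmem _ _ hij') with hs' | hw'
      · exact Or.inl hs'
      · exact Or.inr (Or.inl hw')

end Pool.Agent.H79E
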