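import Pool.Agent.W_MP_a3c811_h79.MF.St2
import Pool.Agent.W_MP_a3c811_h79.MF.ToReal
import Pool.Agent.W_MP_a3c811_h79.Lap.StLap
import Pool.Agent.W_MP_a3c811_h79.MF.Blocks
import Pool.Agent.W_MP_a3c811_h79.Lap.Final
import Pool.Agent.W_a3c811_h62w.Bridge

/-! The numerical criterion for the strata. -/

noncomputable section

set_option linter.unusedSectionVars false

namespace Pool.Agent.H62S

open Polynomial Pool.Agent.WeilH_h6 Pool.Agent.WeilH_h6.VarClass Pool.Agent.H62D Pool.Agent.H62A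
  Pool.Agent.H79L

universe u v w

variable {k : Type u} [Field k] {𝒱 : VarClass k} {I : Type} {K : I → Type v} [∀ l, Field (K l)]
  [∀ l, CharZero (K l)] {W : ∀ l, Weil.{u, v, w} 𝒱 (K l)}

namespace Strata

variable (X : Strata W)

open Classical in
/-- the values of the motivic endomorphisms -/
def mring (hW : Compatible W) (l : I) : Subring (Module.End (K l) (Tot (W l) X.Y)) :=
  (MA hW X.Y).map (Pi.evalRingHom (fun l => Module.End (K l) (Tot (W l) X.Y)) l)

lemma mem_mring {hW : Compatible W} {l : I} {u : Module.End (K l) (Tot (W l) X.Y)} :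
    u ∈ X.mring hW l ↔ ∃ U : ∀ l, TEnd (W l) X.Y, Motivic W X.Y U ∧ U l = u := by
  constructor
  · rintro ⟨U, hU, rfl⟩
    exact ⟨U, hU, rfl⟩
  · rintro ⟨U, hU, rfl⟩
    exact ⟨U, hU, rfl⟩

lemma pos_mem_mring (hW : Compatible W) (l : I) (p : ℤ) :
    (posProj (W l) X.Y X.ilev p : Module.End (K l) (Tot (W l) X.Y)) ∈ X.mring hW l :=
  X.mem_mring.2 ⟨_, motivic_posProj hW p, rfl⟩

theorem zero_of_ring (hW : Compatible W) {p q : ℚ[X]}
    (F : Fitting ((X.toLefschetz hW).lapA hW) (aeval ((X.toLefschetz hW).lapA hW) p)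
      (aeval ((X.toLefschetz hW).lapA hW) q)) (l : I)
    (BY : Subring (Module.End (K l) (Tot (W l) X.Y)))
    (hpos : ∀ p : ℤ, (posProj (W l) X.Y X.ilev p : Module.End (K l) (Tot (W l) X.Y)) ∈ BY)
    (h1 : (X.res l : Module.End (K l) (Tot (W l) X.Y)) ∈ BY)
    (h2 : (X.gys l : Module.End (K l) (Tot (W l) X.Y)) ∈ BY)
    (h3 : (X.L l : Module.End (K l) (Tot (W l) X.Y)) ∈ BY)
    (h4 : (X.Lam l : Module.End (K l) (Tot (W l) X.Y)) ∈ BY)
    (hBY : ∀ U ∈ BY, ∀ i j : ℕ, (∀ x, U x ∈ X.prim l i j) →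
      (∀ x y, X.pair l (U x) ((X.L l ^ j) (U y)) = 0) → U = 0) :
    (X.complex.d l : Module.End (K l) (Tot (W l) X.complex.Y)) *
      MA.val (aeval ((X.toLefschetz hW).lapA hW) p) l = 0 := by
  obtain ⟨-, -, hSf, hSg, ε, hε, hSd⟩ := X.isForm hW l
  refine zero_of_noIso F (S := X.eS l) ⟨hSf.exists_sign, hSg.exists_sign, ε, hε,
    fun w p x y => by
      have h2 : degProj (W l) X.complex.Y X.complex.pos X.complex.tw w
          (posProj (W l) X.complex.Y X.complex.pos p x) ∈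
          posPart (W l) X.complex.Y X.complex.pos p := by
        have h3 := LinearMap.congr_fun
          (degProj_comm_posProj (W l) X.complex.Y X.complex.pos X.complex.tw w p) x
        rw [LinearMap.comp_apply, LinearMap.comp_apply] at h3
        rw [h3]
        exact posProj_mem _ _ _ _ _
      exact hSd w p _ (degProj_mem _ _ _ _ _ _) h2 y⟩ (X.bring l BY hpos)
    (X.ed_mem_bring l BY hpos h1 h2) (X.eN_mem_bring l BY hpos)
    (X.lift_mem_bring l BY hpos h3) (X.eNd_mem_bring l BY hpos)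
    (X.lift_mem_bring l BY hpos h4) ?_
  exact X.noIso_of_strata l BY hpos (S := X.eS l) (fun _ _ => rfl) hBY

end Strata

theorem final2 (hW : Compatible W) (X : Strata W) :
    ∃ χ : ℚ[X], (∀ l, TCharpoly (W l) X.EY (X.laplacian l) χ) ∧
      (∀ l, X.betti l ≤ χ.rootMultiplicity 0) ∧
      (∀ l, X.Anisotropic l → X.betti l = χ.rootMultiplicity 0) ∧
      ((∀ l, X.betti l = χ.rootMultiplicity 0) →
        ∀ M : X.Motive, (∀ l, M.WeightMonodromy l) ∧ M.Independence) := by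
  rcases isEmpty_or_nonempty I with hI | hI
  · exact ⟨0, fun l => hI.elim l, fun l => hI.elim l, fun l => hI.elim l,
      fun _ R => ⟨fun l => hI.elim l, fun _ => ⟨0, 0, fun l => hI.elim l⟩⟩⟩
  · have hK := (X.toLefschetz hW).kunneth hW
    obtain ⟨χ, hχ⟩ := (X.toLefschetz hW).exists_char hW hK
    obtain ⟨p, q, F⟩ := hχ.exists_fitting hW
    refine ⟨χ, hχ, fun l => betti_le hχ F l, fun l hl => eq_of_zero hχ F
      (X.zero_of_ring hW F l (X.mring hW l) (X.pos_mem_mring hW l)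
        (X.mem_mring.2 ⟨_, X.motivic.1, rfl⟩) (X.mem_mring.2 ⟨_, X.motivic.2.1, rfl⟩)
        (X.mem_mring.2 ⟨_, X.motivic.2.2.1, rfl⟩) (X.mem_mring.2 ⟨_, X.motivic.2.2.2, rfl⟩)
        fun u hu i j h1 h2 => ?_),
      fun hb M => ?_⟩
    · obtain ⟨U, hU, rfl⟩ := X.mem_mring.1 hu
      exact hl U hU i j h1 h2
    · have h0 := fun l => zero_of_eq hχ F (hb l)
      have hN : H62A.IsChain X.complex 2 X.eN := ⟨X.motivic_eN hW, X.eN_bidegree,
        fun l x => LinearMap.congr_fun (X.eN_ed l) x⟩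
      have hR : (X.toLefschetz hW).Compat (M.toReal hN) := ⟨rfl, M.com_mod⟩
      exact ⟨fun l => wm_real F h0 hR l, fun w => real_main hK F h0 (M.toReal hN) hR w⟩

end Pool.Agent.H62S
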