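import Mathlib

/-! Traces on the kernel of the monodromy operator from weight-monodromy. -/

noncomputable section

namespace Pool.Agent.H62S

open Module

universe v w

variable {K : Type v} [Field K] {V : Type w} [AddCommGroup V] [Module K V]

theorem exists_quasiInverse (y : Module.End K V) : ∃ h : Module.End K V, y * h * y = y := by
  obtain ⟨σ, hσ⟩ := y.rangeRestrict.exists_rightInverse_of_surjective y.range_rangeRestrict
  obtain ⟨h, hh⟩ := LinearMap.exists_extend σ
  refine ⟨h, LinearMap.ext fun x => ?_⟩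
  have h1 : h (y x) = σ (y.rangeRestrict x) := LinearMap.congr_fun hh (y.rangeRestrict x)
  have h2 := congrArg Subtype.val (LinearMap.congr_fun hσ (y.rangeRestrict x))
  rw [Module.End.mul_apply, Module.End.mul_apply, h1]
  exact h2

variable [FiniteDimensional K V]

theorem trace_eq_of_range {φ e e' : Module.End K V} (he : e * e = e) (he' : e' * e' = e')
    (h : LinearMap.range e = LinearMap.range e') (hφ : φ * e' = e' * φ) :
    LinearMap.trace K V (φ * e) = LinearMap.trace K V (φ * e') := by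
  have h1 : e' * e = e := by
    refine LinearMap.ext fun x => ?_
    have : e x ∈ LinearMap.range e' := by rw [← h]; exact ⟨x, rfl⟩
    obtain ⟨y, hy⟩ := this
    rw [Module.End.mul_apply, ← hy]
    exact LinearMap.congr_fun he' y
  have h2 : e * e' = e' := by
    refine LinearMap.ext fun x => ?_
    have : e' x ∈ LinearMap.range e := by rw [h]; exact ⟨x, rfl⟩
    obtain ⟨y, hy⟩ := this
    rw [Module.End.mul_apply, ← hy]
    exact LinearMap.congr_fun he y
  calc LinearMap.trace K V (φ * e) = LinearMap.trace K V (e' * (φ * e)) := by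
        rw [← mul_assoc, ← hφ, mul_assoc, h1]
    _ = LinearMap.trace K V (φ * e * e') := LinearMap.trace_mul_comm _ _ _
    _ = _ := by rw [mul_assoc, h2]

theorem trace_inv {φ ν g : Module.End K V} {s : ℤ → Module.End K V} {P : Finset ℤ} {q : K}
    (hg : g * g = g) (hs : ∀ p, s p * s p = s p)
    (sum : ∑ p ∈ P, s p = 1) (gs : ∀ p, g * s p = s p * g) (φg : φ * g = g * φ)
    (φs : ∀ p, φ * s p = s p * φ) (νg : ν * g = g * ν) (νs : ∀ p, ν * s p = s (p + 2) * ν)
    (νφ : ν * φ = q • (φ * ν))
    (wm : ∀ i : ℕ, Set.BijOn (ν ^ i) (LinearMap.range (g * s (-i))) (LinearMap.range (g * s i))) :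
    ∃ e : Module.End K V, e * e = e ∧ LinearMap.range e = LinearMap.range g ⊓ LinearMap.ker ν ∧
      ∀ m : ℕ, LinearMap.trace K V (φ ^ m * e) = ∑ p ∈ P.filter fun p => 0 ≤ p,
        (LinearMap.trace K V (φ ^ m * (g * s p)) -
          q ^ m * LinearMap.trace K V (φ ^ m * (g * s (p + 2)))) := by
  have idem : ∀ p, (g * s p) * (g * s p) = g * s p := by
    intro p
    rw [mul_assoc, ← mul_assoc (s p), ← gs, mul_assoc g, hs, ← mul_assoc, hg]
  have νgs : ∀ p, ν * (g * s p) = (g * s (p + 2)) * ν := by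
    intro p
    rw [← mul_assoc, νg, mul_assoc, νs, mul_assoc]
  have φgs : ∀ p, φ * (g * s p) = (g * s p) * φ := by
    intro p
    rw [← mul_assoc, φg, mul_assoc, φs, mul_assoc]
  have φmgs : ∀ (m : ℕ) p, φ ^ m * (g * s p) = (g * s p) * φ ^ m := fun m p =>
    ((show Commute φ (g * s p) from φgs p).pow_left m).eq
  have νφm : ∀ m : ℕ, ν * φ ^ m = q ^ m • (φ ^ m * ν) := by
    intro m
    induction m with
    | zero => simp
    | succ m ih =>
      rw [pow_succ, ← mul_assoc, ih, smul_mul_assoc, mul_assoc, νφ, mul_smul_comm, smul_smul,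
        ← mul_assoc, ← pow_succ, ← pow_succ]
  have νpow : ∀ (i : ℕ) p, ν ^ i * (g * s p) = (g * s (p + 2 * i)) * ν ^ i := by
    intro i
    induction i with
    | zero => intro p; simp
    | succ i ih =>
      intro p
      rw [pow_succ', mul_assoc, ih, ← mul_assoc, νgs, mul_assoc, ← pow_succ']
      congr 3
      push_cast
      ring
  -- injectivity on negative positions
  have inj : ∀ p : ℤ, p < 0 → ∀ x, ν (g (s p x)) = 0 → g (s p x) = 0 := by
    intro p hp x hx
    obtain ⟨i, rfl⟩ : ∃ i : ℕ, p = -((i + 1 : ℕ) : ℤ) := ⟨(-p - 1).toNat, by push_cast; omega⟩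
    have h1 := (wm (i + 1)).injOn
    refine h1 (show g (s _ x) ∈ _ from ⟨x, rfl⟩) (Submodule.zero_mem _) ?_
    rw [map_zero, pow_succ, Module.End.mul_apply, hx, map_zero]
  have surj : ∀ p : ℤ, 0 ≤ p → LinearMap.range (ν * (g * s p)) =
      LinearMap.range (g * s (p + 2)) := by
    intro p hp
    refine le_antisymm ?_ ?_
    · rw [νgs]
      rintro _ ⟨x, rfl⟩
      exact ⟨ν x, rfl⟩
    · intro y hy
      obtain ⟨i, rfl⟩ : ∃ i : ℕ, p = i := ⟨p.toNat, by omega⟩
      have h1 := (wm (i + 2)).surjOn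
      have h2 : ((i + 2 : ℕ) : ℤ) = (i : ℤ) + 2 := by push_cast; ring
      rw [h2] at h1
      obtain ⟨_, ⟨z, rfl⟩, hz⟩ := h1 hy
      have h3 := LinearMap.congr_fun (νpow (i + 1) (-((i : ℤ) + 2))) z
      have h4 : -((i : ℤ) + 2) + 2 * ((i + 1 : ℕ) : ℤ) = i := by push_cast; ring
      rw [h4] at h3
      rw [← hz, show i + 2 = (i + 1) + 1 by ring, pow_succ', Module.End.mul_apply]
      refine ⟨(ν ^ (i + 1)) ((g * s (-((i : ℤ) + 2))) z), ?_⟩
      rw [Module.End.mul_apply]
      congr 1
      have h5 : (ν ^ (i + 1)) ((g * s (-((i : ℤ) + 2))) z) =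
        (g * s (i : ℤ)) ((ν ^ (i + 1)) z) := h3
      rw [h5]
      exact LinearMap.congr_fun (idem i) _
  choose h hh using fun p => exists_quasiInverse (ν * (g * s p))
  let t : ℤ → Module.End K V := fun p => g * s p - (g * s p) * (h p * (ν * (g * s p)))
  have kν : ∀ p x, ν (t p x) = 0 := by
    intro p x
    have h1 : ν * t p = 0 := by
      have h2 : ν * t p = ν * (g * s p) - ν * (g * s p) * h p * (ν * (g * s p)) := by
        change ν * (g * s p - (g * s p) * (h p * (ν * (g * s p)))) = _
        rw [mul_sub]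
        simp only [mul_assoc]
      rw [h2, hh, sub_self]
    exact LinearMap.congr_fun h1 x
  have kg : ∀ p x, g (t p x) = t p x := by
    intro p x
    have h1 : g * t p = t p := by
      change g * (g * s p - (g * s p) * (h p * (ν * (g * s p)))) = _
      rw [mul_sub, ← mul_assoc g, hg, ← mul_assoc g (g * s p), ← mul_assoc g g, hg]
    exact LinearMap.congr_fun h1 x
  have fix : ∀ x ∈ LinearMap.range g ⊓ LinearMap.ker ν,
      (∑ p ∈ P.filter fun p => 0 ≤ p, t p) x = x := by
    rintro x ⟨⟨y, hy⟩, hx⟩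
    have gx : g x = x := by rw [← hy]; exact LinearMap.congr_fun hg y
    have hx' : ν x = 0 := hx
    have h0 : ∀ p, ν (g (s p x)) = 0 := by
      intro p
      have h1 := LinearMap.congr_fun (νgs p) x
      simp only [Module.End.mul_apply] at h1
      rw [h1, hx', map_zero, map_zero]
    have h1 : ∀ p, t p x = g (s p x) := by
      intro p
      change g (s p x) - g (s p (h p (ν (g (s p x))))) = _
      rw [h0, map_zero, map_zero, map_zero, sub_zero]
    rw [LinearMap.sum_apply, Finset.sum_congr rfl fun p _ => h1 p]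
    have h2 : ∑ p ∈ P, g (s p x) = x := by
      rw [← map_sum, ← LinearMap.sum_apply, sum]
      exact gx
    conv_rhs => rw [← h2]
    rw [Finset.sum_filter]
    refine Finset.sum_congr rfl fun p _ => ?_
    split_ifs with hp
    · rfl
    · exact (inj p (not_le.1 hp) x (h0 p)).symm
  have rng : LinearMap.range (∑ p ∈ P.filter fun p => 0 ≤ p, t p) =
      LinearMap.range g ⊓ LinearMap.ker ν := by
    refine le_antisymm ?_ fun x hx => ⟨x, fix x hx⟩
    rintro _ ⟨x, rfl⟩
    rw [LinearMap.sum_apply]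
    refine Submodule.sum_mem _ fun p _ => ⟨⟨t p x, kg p x⟩, kν p x⟩
  refine ⟨∑ p ∈ P.filter fun p => 0 ≤ p, t p, ?_, rng, ?_⟩
  · refine LinearMap.ext fun x => ?_
    rw [Module.End.mul_apply]
    exact fix _ (by rw [← rng]; exact ⟨x, rfl⟩)
  · intro m
    rw [Finset.mul_sum, map_sum]
    refine Finset.sum_congr rfl fun p hp => ?_
    have hp0 : 0 ≤ p := (Finset.mem_filter.1 hp).2
    change LinearMap.trace K V (φ ^ m * (g * s p - (g * s p) * (h p * (ν * (g * s p))))) = _
    rw [mul_sub, map_sub]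
    congr 1
    have h1 : φ ^ m * ((g * s p) * (h p * (ν * (g * s p)))) =
        (φ ^ m * (g * s p) * h p) * (ν * (g * s p)) := by simp only [mul_assoc]
    rw [h1, LinearMap.trace_mul_comm]
    have h2 : ν * (g * s p) * (φ ^ m * (g * s p) * h p) =
        q ^ m • (φ ^ m * (ν * (g * s p) * h p)) := by
      calc ν * (g * s p) * (φ ^ m * (g * s p) * h p) =
          ν * ((g * s p) * φ ^ m) * ((g * s p) * h p) := by simp only [mul_assoc]
        _ = (ν * φ ^ m) * ((g * s p) * (g * s p) * h p) := by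
          rw [← φmgs]; simp only [mul_assoc]
        _ = _ := by rw [idem, νφm]; simp only [smul_mul_assoc, mul_assoc]
    rw [h2, map_smul, smul_eq_mul]
    congr 1
    refine trace_eq_of_range ?_ (idem _) ?_ (φmgs m (p + 2))
    · rw [← mul_assoc, hh]
    · rw [← surj p hp0]
      refine le_antisymm ?_ ?_
      · rintro _ ⟨x, rfl⟩
        exact ⟨h p x, rfl⟩
      · rintro _ ⟨x, rfl⟩
        exact ⟨(ν * (g * s p)) x, LinearMap.congr_fun (hh p) x⟩

end Pool.Agent.H62S
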