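import Pool.Agent.W_MP_a3c811_h79.MF.Tr
import Pool.Agent.W_MP_a3c811_h79.MF.TrInv
import Pool.Agent.W_a3c811_h62.Build2

/-! Weight-monodromy and purity: the characteristic polynomial on the whole cohomology determines the
one on the inertia invariants. -/

noncomputable section

namespace Pool.Agent.H62S

open Polynomial Module Pool.Agent.WeilH_h6 Pool.Agent.WeilH_h6.VarClass Pool.Agent.H62D
  Pool.Agent.H62A

universe u v w

variable {k : Type u} [Field k] {𝒱 : VarClass k} {I : Type} {K : I → Type v} [∀ l, Field (K l)]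
  [∀ l, CharZero (K l)] {W : ∀ l, Weil.{u, v, w} 𝒱 (K l)} {C : MComplex W} (R : Realisation C)

theorem desc_one (l : I) : Desc R l LinearMap.id 1 := ⟨fun _ h => h, fun _ _ => rfl⟩

theorem Desc.pow {l : I} {T : TEnd (W l) C.Y} {θ : Module.End (K l) (R.V l)}
    (h : Desc R l T θ) (n : ℕ) :
    Desc R l ((T : Module.End (K l) (Tot (W l) C.Y)) ^ n) (θ ^ n) := by
  induction n with
  | zero => exact desc_one R l
  | succ n ih =>
    rw [pow_succ, pow_succ]
    exact ih.mul R h

theorem Desc.aeval {l : I} {T : TEnd (W l) C.Y} {θ : Module.End (K l) (R.V l)}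
    (h : Desc R l T θ) (G : (K l)[X]) :
    Desc R l (Polynomial.aeval (T : Module.End (K l) (Tot (W l) C.Y)) G)
      (Polynomial.aeval θ G) := by
  induction G using Polynomial.induction_on' with
  | add p q hp hq =>
    rw [map_add, map_add]
    refine ⟨fun x hx => ?_, fun x hx => ?_⟩
    · rw [LinearMap.add_apply, map_add, hp.1 x hx, hq.1 x hx, add_zero]
    · rw [LinearMap.add_apply, map_add, hp.2 x hx, hq.2 x hx]
      rfl
  | monomial n a =>
    rw [aeval_monomial, aeval_monomial]
    have h1 := Desc.pow R h n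
    refine ⟨fun x hx => ?_, fun x hx => ?_⟩
    · change C.d l (a • ((T : Module.End (K l) (Tot (W l) C.Y)) ^ n) x) = 0
      rw [map_smul, h1.1 x hx, smul_zero]
    · change R.u l (a • ((T : Module.End (K l) (Tot (W l) C.Y)) ^ n) x) = a • (θ ^ n) (R.u l x)
      rw [map_smul, h1.2 x hx]

/-- `E (φ) = 0` on the part of position `p` if `E (F) = 0` on the corresponding part of the
complex -/
theorem aeval_gr {l : I} {w p : ℤ} {E : (K l)[X]}
    (hE : ∀ x ∈ degPart (W l) C.Y C.pos C.tw w, x ∈ posPart (W l) C.Y C.pos p →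
      aeval (R.F l : Module.End (K l) (Tot (W l) C.Y)) E x = 0) :
    aeval (R.φ l : Module.End (K l) (R.V l)) E * (R.pdeg l w * R.ppos l p) = 0 := by
  refine LinearMap.ext fun y => ?_
  obtain ⟨x, hx, rfl⟩ := R.u_surj l y
  have hD := (R.desc_pdeg l w).mul R (R.desc_ppos l p)
  have h1 := (Desc.aeval R (Desc.phi R l) E).2 _ (hD.1 x hx)
  rw [Module.End.mul_apply, LinearMap.zero_apply, ← hD.2 x hx, ← h1, hE, map_zero]
  · exact degProj_mem _ _ _ _ _ _
  · rw [degProj_comm_posProj]
    exact posProj_mem _ _ _ _ _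

/-- the projector polynomials -/
theorem exists_crt (P : Finset ℤ) (E : ℤ → ℚ[X])
    (hE : ∀ p ∈ P, ∀ p' ∈ P, p ≠ p' → IsCoprime (E p) (E p')) (p : ℤ) (hp : p ∈ P) :
    ∃ e : ℚ[X], E p ∣ 1 - e ∧ ∀ p' ∈ P, p' ≠ p → E p' ∣ e := by
  classical
  have h1 : IsCoprime (E p) (∏ p' ∈ P.erase p, E p') := by
    refine IsCoprime.prod_right fun p' hp' => ?_
    exact hE p hp p' (Finset.mem_of_mem_erase hp') (Finset.ne_of_mem_erase hp').symm
  obtain ⟨a, b, hab⟩ := h1
  refine ⟨b * ∏ p' ∈ P.erase p, E p', ⟨a, ?_⟩, fun p' hp' hne => ?_⟩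
  · rw [← hab]; ring
  · exact (Finset.dvd_prod_of_mem E (Finset.mem_erase.2 ⟨hne, hp'⟩)).mul_left _

theorem ppos_zero (l : I) {p : ℤ} (hp : p ∉ Finset.univ.image C.pos) : R.ppos l p = 0 := by
  rw [← mul_one (R.ppos l p), ← ppos_sum R l, Finset.mul_sum]
  refine Finset.sum_eq_zero fun p' hp' => ppos_orth R l p p' ?_
  rintro rfl
  exact hp hp'

/-- Weight-monodromy and purity: the characteristic polynomial on the inertia invariants is rational
and the same for all theories for which weight-monodromy holds. -/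
theorem only_wm (w : ℤ) (A : ℚ[X]) (hA : ∀ l, CharpolyOn (R.φ l) (R.deg l w) A) (E : ℤ → ℚ[X])
    (hcop : ∀ p ∈ Finset.univ.image C.pos, ∀ p' ∈ Finset.univ.image C.pos, p ≠ p' →
      IsCoprime (E p) (E p'))
    (hE : ∀ l p, ∀ x ∈ degPart (W l) C.Y C.pos C.tw w, x ∈ posPart (W l) C.Y C.pos p →
      aeval (R.F l : Module.End (K l) (Tot (W l) C.Y)) ((E p).map (algebraMap ℚ (K l))) x = 0) :
    ∃ B : ℚ[X], ∀ l, R.WeightMonodromy l → CharpolyOn (R.φ l) (R.inv l w) B := by
  classical
  obtain ⟨τ, hτ⟩ := exists_traces.{v, w} A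
  set P := Finset.univ.image C.pos with hP
  have hex : ∀ p : ℤ, ∃ e : ℚ[X], p ∈ P → E p ∣ 1 - e ∧ ∀ p' ∈ P, p' ≠ p → E p' ∣ e := by
    intro p
    by_cases hp : p ∈ P
    · obtain ⟨e, he⟩ := exists_crt P E hcop p hp
      exact ⟨e, fun _ => he⟩
    · exact ⟨0, fun h => absurd h hp⟩
  choose e he using hex
  let T : ℤ → ℕ → ℚ := fun p m => if p ∈ P then
    ∑ i ∈ Finset.range ((e p).natDegree + 1), (e p).coeff i * τ (m + i) else 0
  have φg : ∀ l, (R.φ l : Module.End (K l) (R.V l)) * R.pdeg l w = R.pdeg l w * R.φ l := by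
    intro l
    refine comm_of_comp R (Desc.phi R l) (R.desc_pdeg l w) (R.desc_pdeg l w) (Desc.phi R l) ?_
    have := comp_degProj (W l) C.Y C.pos C.tw (R.F_chain.bidegree l) w
    rwa [add_zero] at this
  have φs : ∀ l p, (R.φ l : Module.End (K l) (R.V l)) * R.ppos l p = R.ppos l p * R.φ l := by
    intro l p
    refine comm_of_comp R (Desc.phi R l) (R.desc_ppos l p) (R.desc_ppos l p) (Desc.phi R l) ?_
    have := comp_posProj (W l) C.Y C.pos C.tw (R.F_chain.bidegree l) p
    rwa [add_zero] at this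
  have νg : ∀ l, (R.ν l : Module.End (K l) (R.V l)) * R.pdeg l w = R.pdeg l w * R.ν l := by
    intro l
    refine comm_of_comp R (Desc.nu R l) (R.desc_pdeg l w) (R.desc_pdeg l w) (Desc.nu R l) ?_
    have := comp_degProj (W l) C.Y C.pos C.tw (R.N_chain.bidegree l) w
    rwa [add_zero] at this
  have νs : ∀ l p, (R.ν l : Module.End (K l) (R.V l)) * R.ppos l p =
      R.ppos l (p + 2) * R.ν l := fun l p =>
    comm_of_comp R (Desc.nu R l) (R.desc_ppos l p) (R.desc_ppos l (p + 2)) (Desc.nu R l)
      (comp_posProj (W l) C.Y C.pos C.tw (R.N_chain.bidegree l) p)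
  have gs : ∀ l p, R.pdeg l w * R.ppos l p = R.ppos l p * R.pdeg l w := fun l p =>
    comm_of_comp R (R.desc_pdeg l w) (R.desc_ppos l p) (R.desc_ppos l p) (R.desc_pdeg l w)
      (degProj_comm_posProj _ _ _ _ _ _)
  have νφ : ∀ l, (R.ν l : Module.End (K l) (R.V l)) * R.φ l =
      (R.q : K l) • ((R.φ l : Module.End (K l) (R.V l)) * R.ν l) := fun l =>
    LinearMap.ext fun y => R.comm l y
  -- traces on the degree part
  have t1 : ∀ l m, LinearMap.trace (K l) (R.V l)
      ((R.φ l : Module.End (K l) (R.V l)) ^ m * R.pdeg l w) = (τ m : K l) := by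
    intro l m
    obtain ⟨h, hh⟩ := hA l
    have h1 := hτ (K l) _ ((R.φ l).restrict h) hh m
    have hr : LinearMap.range (R.pdeg l w) = R.deg l w := R.range_pdeg l w
    have hst : ∀ x ∈ LinearMap.range (R.pdeg l w),
        ((R.φ l : Module.End (K l) (R.V l)) ^ m) x ∈ LinearMap.range (R.pdeg l w) := by
      rintro _ ⟨y, rfl⟩
      have h2 := ((show Commute (R.φ l : Module.End (K l) (R.V l)) (R.pdeg l w) from φg l).pow_left
        m).eq
      have h3 := LinearMap.congr_fun h2 y
      rw [Module.End.mul_apply, Module.End.mul_apply] at h3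
      rw [h3]
      exact ⟨_, rfl⟩
    rw [← trace_restrict_range _ _ (pdeg_idem R l w) hst, ← h1, Module.End.pow_restrict]
    have key : ∀ (U U' : Submodule (K l) (R.V l)) (hU : U = U')
        (ψ : Module.End (K l) (R.V l)) (a : ∀ x ∈ U, ψ x ∈ U) (b : ∀ x ∈ U', ψ x ∈ U'),
        LinearMap.trace (K l) U (ψ.restrict a) = LinearMap.trace (K l) U' (ψ.restrict b) := by
      rintro U _ rfl ψ a b
      rfl
    exact key _ _ hr _ _ _
  -- traces on the graded parts
  have t2 : ∀ l p m, LinearMap.trace (K l) (R.V l)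
      ((R.φ l : Module.End (K l) (R.V l)) ^ m * (R.pdeg l w * R.ppos l p)) = (T p m : K l) := by
    intro l p m
    by_cases hp : p ∈ P
    · obtain ⟨⟨a, ha⟩, hb⟩ := he p hp
      have hz : ∀ p' ∈ P, p' ≠ p → aeval (R.φ l : Module.End (K l) (R.V l))
          ((e p).map (algebraMap ℚ (K l))) * (R.pdeg l w * R.ppos l p') = 0 := by
        intro p' hp' hne
        obtain ⟨b, hb'⟩ := hb p' hp' hne
        rw [hb', Polynomial.map_mul, mul_comm, map_mul, mul_assoc, aeval_gr R (hE l p'), mul_zero]
      have ho : aeval (R.φ l : Module.End (K l) (R.V l))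
          ((e p).map (algebraMap ℚ (K l))) * (R.pdeg l w * R.ppos l p) =
            R.pdeg l w * R.ppos l p := by
        have h1 : e p = 1 - a * E p := by
          have h2 : 1 - e p = a * E p := by rw [ha]; ring
          rw [← h2]; ring
        rw [h1, Polynomial.map_sub, Polynomial.map_one, Polynomial.map_mul, map_sub, map_one,
          map_mul, sub_mul, one_mul, mul_assoc, aeval_gr R (hE l p), mul_zero, sub_zero]
      have hsum : aeval (R.φ l : Module.End (K l) (R.V l))
          ((e p).map (algebraMap ℚ (K l))) * R.pdeg l w = R.pdeg l w * R.ppos l p := by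
        have h1 : R.pdeg l w = ∑ p' ∈ P, R.pdeg l w * R.ppos l p' := by
          rw [← Finset.mul_sum, ppos_sum R l, mul_one]
        conv_lhs => rw [h1]
        rw [Finset.mul_sum, Finset.sum_eq_single p]
        · exact ho
        · intro p' hp' hne
          exact hz p' hp' hne
        · intro h; exact absurd hp h
      rw [← hsum, aeval_eq_sum_range, Finset.sum_mul, Finset.mul_sum, map_sum]
      have hdeg : ((e p).map (algebraMap ℚ (K l))).natDegree = (e p).natDegree :=
        natDegree_map _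
      rw [hdeg]
      simp only [T, if_pos hp]
      rw [Rat.cast_sum]
      refine Finset.sum_congr rfl fun i _ => ?_
      rw [coeff_map, smul_mul_assoc, mul_smul_comm, map_smul, ← mul_assoc, ← pow_add, t1 l,
        smul_eq_mul, Rat.cast_mul, eq_ratCast]
    · rw [ppos_zero R l hp, mul_zero, mul_zero, map_zero]
      simp only [T, if_neg hp]
      simp
  -- the family of the theories with weight-monodromy
  let J := {l : I // R.WeightMonodromy l}
  have hst : ∀ l, ∀ x ∈ R.inv l w, R.φ l x ∈ R.inv l w := by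
    rintro l x ⟨hx1, hx2⟩
    refine ⟨?_, ?_⟩
    · have h1 : x ∈ R.deg l w := hx1
      rw [← R.range_pdeg] at h1
      obtain ⟨y, rfl⟩ := h1
      change R.φ l (R.pdeg l w y) ∈ R.deg l w
      rw [← R.range_pdeg]
      have h3 := LinearMap.congr_fun (φg l) y
      rw [Module.End.mul_apply, Module.End.mul_apply] at h3
      rw [h3]
      exact ⟨_, rfl⟩
    · change R.ν l (R.φ l x) = 0
      have h1 : R.ν l x = 0 := hx2
      rw [R.comm, h1, map_zero, smul_zero]
  obtain ⟨B, hB⟩ := exists_charpoly (I := J) (K := fun l => K l.1) (V := fun l => R.inv l.1 w)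
    (fun l => (R.φ l.1).restrict (hst l.1))
    (fun m => ∑ p ∈ P.filter fun p => 0 ≤ p, (T p m - R.q ^ m * T (p + 2) m)) (by
      rintro ⟨l, hl⟩ m
      have hwm : ∀ i : ℕ, Set.BijOn ((R.ν l : Module.End (K l) (R.V l)) ^ i)
          (LinearMap.range (R.pdeg l w * R.ppos l (-i)))
          (LinearMap.range (R.pdeg l w * R.ppos l i)) := by
        intro i
        rw [R.range_pgr, R.range_pgr]
        exact hl w i
      obtain ⟨ee, h1, h2, h3⟩ := trace_inv (pdeg_idem R l w) (ppos_idem R l) (ppos_sum R l) (gs l)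
        (φg l) (φs l) (νg l) (νs l) (νφ l) hwm
      have hr : LinearMap.range ee = R.inv l w := by
        rw [h2, R.range_pdeg]
        rfl
      have hst' : ∀ x ∈ LinearMap.range ee,
          ((R.φ l : Module.End (K l) (R.V l)) ^ m) x ∈ LinearMap.range ee := by
        intro x hx
        rw [hr] at hx ⊢
        induction m with
        | zero => exact hx
        | succ m ih => rw [pow_succ']; exact hst l _ ih
      have h4 := trace_restrict_range ((R.φ l : Module.End (K l) (R.V l)) ^ m) ee h1 hst'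
      have key : ∀ (U U' : Submodule (K l) (R.V l)) (hU : U = U')
          (ψ : Module.End (K l) (R.V l)) (a : ∀ x ∈ U, ψ x ∈ U) (b : ∀ x ∈ U', ψ x ∈ U'),
          LinearMap.trace (K l) U (ψ.restrict a) = LinearMap.trace (K l) U' (ψ.restrict b) := by
        rintro U _ rfl ψ a b
        rfl
      have h5 : LinearMap.trace (K l) (R.inv l w) (((R.φ l).restrict (hst l)) ^ m) =
          LinearMap.trace (K l) _ (((R.φ l : Module.End (K l) (R.V l)) ^ m).restrict hst') := by
        rw [Module.End.pow_restrict]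
        exact key _ _ hr.symm _ _ _
      refine h5.trans (h4.trans ?_)
      rw [h3 m, Rat.cast_sum]
      refine Finset.sum_congr rfl fun p _ => ?_
      rw [t2 l, t2 l]
      push_cast
      rfl)
  exact ⟨B, fun l hl => ⟨hst l, hB ⟨l, hl⟩⟩⟩

end Pool.Agent.H62S
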