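import Pool.Agent.W_MP_a3c811_h79.MF.StMF
import Pool.Agent.W_MP_a3c811_h79.Lap.Kun
import Pool.Agent.W_a3c811_h62w.StrataC

/-! The normalised Frobenius of the strata. -/

noncomputable section

set_option linter.unusedSectionVars false

namespace Pool.Agent.H62S

open Pool.Agent.WeilH_h6 Pool.Agent.WeilH_h6.VarClass Pool.Agent.H62D Pool.Agent.H62A
  Pool.Agent.H79L

universe u v w

variable {k : Type u} [Field k] {𝒱 : VarClass k} {I : Type} {K : I → Type v} [∀ l, Field (K l)]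
  [∀ l, CharZero (K l)] {W : ∀ l, Weil.{u, v, w} 𝒱 (K l)} {X : Strata W}

namespace Strata

variable (l : I)

/-- the part of degree `m` of the sum of the `H(Y a)` -/
abbrev hdeg (X : Strata W) (l : I) (m : ℤ) : Submodule (K l) (Tot (W l) X.Y) :=
  degPart (W l) X.Y 0 0 m

/-- the projector onto the part of degree `m` -/
abbrev kp (X : Strata W) (l : I) (m : ℤ) : TEnd (W l) X.Y := degProj (W l) X.Y 0 0 m

lemma mem_hdeg {m : ℤ} {x : Tot (W l) X.Y} :
    x ∈ X.hdeg l m ↔ ∀ a, x a ∈ gradZ (W l) (X.Y a) m := by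
  constructor
  · intro h a
    have h1 := h a (Set.mem_univ a)
    simp only [Pi.zero_apply, sub_zero, mul_zero] at h1
    exact h1
  · intro h a _
    simp only [Pi.zero_apply, sub_zero, mul_zero]
    exact h a

lemma mem_ldeg {w : ℤ} {x : Tot (W l) X.Y} :
    x ∈ degPart (W l) X.Y X.ilev 0 w ↔ ∀ a, x a ∈ gradZ (W l) (X.Y a) (w - X.lev a) := by
  constructor
  · intro h a
    have h1 := h a (Set.mem_univ a)
    simp only [Pi.zero_apply, sub_zero, mul_zero] at h1
    exact h1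
  · intro h a _
    simp only [Pi.zero_apply, sub_zero, mul_zero]
    exact h a

lemma mem_lpos {i : ℤ} {x : Tot (W l) X.Y} :
    x ∈ posPart (W l) X.Y X.ilev i ↔ ∀ a, (X.lev a : ℤ) ≠ i → x a = 0 := by
  constructor
  · intro h a ha
    have h1 : x a ∈ (if X.ilev a = i then ⊤ else ⊥ : Submodule (K l) ((W l).H (X.Y a))) :=
      h a (Set.mem_univ a)
    have h2 : ¬ X.ilev a = i := ha
    rw [if_neg h2] at h1
    exact (Submodule.mem_bot _).1 h1
  · intro h a _
    change x a ∈ (if X.ilev a = i then ⊤ else ⊥ : Submodule (K l) ((W l).H (X.Y a)))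
    by_cases h2 : X.ilev a = i
    · rw [if_pos h2]; exact Submodule.mem_top
    · rw [if_neg h2, h a h2]; exact Submodule.zero_mem _

/-- the projectors onto the levels -/
lemma posProj_ilev_apply (i : ℤ) (x : Tot (W l) X.Y) (a : X.J) :
    posProj (W l) X.Y X.ilev i x a = if (X.lev a : ℤ) = i then x a else 0 :=
  Proj_posProj_apply (W l) X.Y X.ilev i x a

lemma bideg0 {s t : ℤ} {T : TEnd (W l) X.Y} (hT : HasBidegree (W l) X.Y X.ilev 0 s t T) :
    HasBidegree (W l) X.Y 0 0 (s - t) 0 T := by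
  constructor
  · intro m x hx
    have hx' := (mem_hdeg l).1 hx
    have hs : x = ∑ p ∈ Finset.univ.image X.ilev, posProj (W l) X.Y X.ilev p x := by
      conv_lhs => rw [← LinearMap.id_apply (R := K l) x, ← sum_posProj (W l) X.Y X.ilev,
        LinearMap.sum_apply]
    rw [hs, map_sum]
    refine Submodule.sum_mem _ fun p _ => ?_
    have h1 : posProj (W l) X.Y X.ilev p x ∈ degPart (W l) X.Y X.ilev 0 (m + p) := by
      rw [mem_ldeg]
      intro a
      rw [posProj_ilev_apply]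
      split_ifs with ha
      · rw [ha, add_sub_cancel_right]
        exact hx' a
      · exact Submodule.zero_mem _
    have h2 := hT.1 _ _ h1
    have h3 := hT.2 _ _ (posProj_mem (W l) X.Y X.ilev p x)
    rw [mem_ldeg] at h2
    rw [mem_lpos] at h3
    rw [mem_hdeg]
    intro a
    by_cases ha : (X.lev a : ℤ) = p + t
    · have h4 := h2 a
      rw [ha, show m + p + s - (p + t) = m + (s - t) by ring] at h4
      exact h4
    · rw [h3 a ha]
      exact Submodule.zero_mem _
  · intro p x hx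
    rw [add_zero]
    intro a ha
    have h1 := hx
    by_cases hp : (0 : ℤ) = p
    · simp only [Pi.zero_apply]
      rw [if_pos hp]
      exact Submodule.mem_top
    · have hx0 : x = 0 := by
        funext b
        have h2 := hx b (Set.mem_univ b)
        simp only [Pi.zero_apply] at h2
        rw [if_neg hp] at h2
        exact (Submodule.mem_bot _).1 h2
      rw [hx0, map_zero]
      exact Submodule.zero_mem _

/-- scaling of the degrees -/
def sc (X : Strata W) (l : I) (r : ℤ → K l) : TEnd (W l) X.Y :=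
  ∑ m ∈ degs X.Y 0 0, r m • X.kp l m

lemma sum_kp : ∑ m ∈ degs X.Y 0 0, X.kp l m = LinearMap.id := sum_degs X.Y 0 0 (W l)

lemma sc_of_mem (r : ℤ → K l) {m : ℤ} {x : Tot (W l) X.Y} (hx : x ∈ X.hdeg l m) :
    X.sc l r x = r m • x := by
  unfold sc
  rw [LinearMap.sum_apply]
  have h1 : ∀ m' ∈ degs X.Y 0 0, (r m' • X.kp l m') x = r m • X.kp l m' x := by
    intro m' _
    by_cases h : m = m'
    · subst h; rfl
    · rw [LinearMap.smul_apply, Proj_degProj_of_mem_ne _ _ _ _ h hx, smul_zero, smul_zero]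
  rw [Finset.sum_congr rfl h1, ← Finset.smul_sum]
  have h2 := LinearMap.congr_fun (sum_kp (X := X) l) x
  rw [LinearMap.sum_apply] at h2
  rw [h2]
  rfl

/-- two endomorphisms are equal if they are equal on all degrees -/
lemma ext_hdeg {S T : TEnd (W l) X.Y} (h : ∀ m, ∀ x ∈ X.hdeg l m, S x = T x) : S = T := by
  refine LinearMap.ext fun x => ?_
  have hs : x = ∑ m ∈ degs X.Y 0 0, X.kp l m x := by
    conv_lhs => rw [← LinearMap.id_apply (R := K l) x, ← sum_kp (X := X) l, LinearMap.sum_apply]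
  rw [hs, map_sum, map_sum]
  exact Finset.sum_congr rfl fun m _ => h m _ (degProj_mem _ _ _ _ _ _)

variable (Fr : X.Frobenius)

/-- the normalised Frobenius: `q ^ (- ceil (m / 2)) F` on the part of degree `m` -/
def Frobenius.phi (l : I) : TEnd (W l) X.Y :=
  Fr.F l ∘ₗ X.sc l fun m => (Fr.q : K l) ^ (-((m + 1) / 2))

lemma Frobenius.q_ne : (Fr.q : K l) ≠ 0 := by
  have := Fr.one_lt
  exact Nat.cast_ne_zero.2 (by omega)

lemma Frobenius.phi_of_mem {m : ℤ} {x : Tot (W l) X.Y} (hx : x ∈ X.hdeg l m) :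
    Fr.phi l x = (Fr.q : K l) ^ (-((m + 1) / 2)) • Fr.F l x := by
  unfold Frobenius.phi
  rw [LinearMap.comp_apply, sc_of_mem l _ hx, map_smul]

lemma Frobenius.F_of_mem {m : ℤ} {x : Tot (W l) X.Y} (hx : x ∈ X.hdeg l m) :
    Fr.F l x = (Fr.q : K l) ^ ((m + 1) / 2) • Fr.phi l x := by
  rw [Fr.phi_of_mem l hx, smul_smul, ← zpow_add₀ (Fr.q_ne l), add_neg_cancel, zpow_zero, one_smul]

lemma Frobenius.F_mem {m : ℤ} {x : Tot (W l) X.Y} (hx : x ∈ X.hdeg l m) :
    Fr.F l x ∈ X.hdeg l m := by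
  have h := (bideg0 l (Fr.bidegree l)).1 m x hx
  rw [sub_zero, add_zero] at h
  exact h

lemma Frobenius.phi_mem {m : ℤ} {x : Tot (W l) X.Y} (hx : x ∈ X.hdeg l m) :
    Fr.phi l x ∈ X.hdeg l m := by
  rw [Fr.phi_of_mem l hx]
  exact Submodule.smul_mem _ _ (Fr.F_mem l hx)

/-- an operator of even degree which is homogeneous for `F` commutes with `phi` -/
lemma Frobenius.phi_comm_of {e : ℤ} {T : TEnd (W l) X.Y}
    (hT : ∀ m, ∀ x ∈ X.hdeg l m, T x ∈ X.hdeg l (m + 2 * e))
    (hF : ∀ x, Fr.F l (T x) = (Fr.q : K l) ^ e • T (Fr.F l x)) :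
    Fr.phi l ∘ₗ T = T ∘ₗ Fr.phi l := by
  refine ext_hdeg l fun m x hx => ?_
  rw [LinearMap.comp_apply, LinearMap.comp_apply, Fr.phi_of_mem l (hT m x hx), hF,
    Fr.phi_of_mem l hx, map_smul, smul_smul, ← zpow_add₀ (Fr.q_ne l)]
  congr 2
  have : m + 2 * e + 1 = m + 1 + e * 2 := by ring
  rw [this, Int.add_mul_ediv_right _ _ (by norm_num)]
  ring

lemma Frobenius.phi_res : Fr.phi l ∘ₗ X.res l = X.res l ∘ₗ Fr.phi l := by
  refine Fr.phi_comm_of l (e := 0) (fun m x hx => ?_) (fun x => ?_)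
  · have h := (bideg0 l (X.bidegree l).1).1 m x hx
    simpa using h
  · rw [zpow_zero, one_smul]
    exact Fr.comm_res l x

lemma Frobenius.phi_gys : Fr.phi l ∘ₗ X.gys l = X.gys l ∘ₗ Fr.phi l := by
  refine Fr.phi_comm_of l (e := 1) (fun m x hx => ?_) (fun x => ?_)
  · have h := (bideg0 l (X.bidegree l).2.1).1 m x hx
    have h1 : m + (1 - -1 : ℤ) = m + 2 * 1 := by norm_num
    rw [h1] at h
    exact h
  · rw [zpow_one]
    exact Fr.comm_gys l x

lemma Frobenius.phi_L : Fr.phi l ∘ₗ X.L l = X.L l ∘ₗ Fr.phi l := by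
  refine Fr.phi_comm_of l (e := 1) (fun m x hx => ?_) (fun x => ?_)
  · have h := (bideg0 l (X.bidegree l).2.2.1).1 m x hx
    have h1 : m + (2 - 0 : ℤ) = m + 2 * 1 := by norm_num
    rw [h1] at h
    exact h
  · rw [zpow_one]
    exact Fr.comm_L l x

lemma Frobenius.phi_kp (m : ℤ) : Fr.phi l ∘ₗ X.kp l m = X.kp l m ∘ₗ Fr.phi l := by
  refine ext_hdeg l fun m' x hx => ?_
  rw [LinearMap.comp_apply, LinearMap.comp_apply]
  by_cases h : m' = m
  · subst h
    rw [degProj_of_mem _ _ _ _ hx, degProj_of_mem _ _ _ _ (Fr.phi_mem l hx)]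
  · rw [Proj_degProj_of_mem_ne _ _ _ _ h hx, map_zero,
      Proj_degProj_of_mem_ne _ _ _ _ h (Fr.phi_mem l hx)]

lemma kp_posProj (m i : ℤ) : X.kp l m ∘ₗ posProj (W l) X.Y X.ilev i =
    posProj (W l) X.Y X.ilev i ∘ₗ X.kp l m := by
  refine LinearMap.ext fun x => funext fun a => ?_
  rw [LinearMap.comp_apply, LinearMap.comp_apply, Proj_posProj_apply, Proj_degProj_apply,
    Proj_degProj_apply, Proj_posProj_apply]
  split_ifs with h
  · rfl
  · rw [map_zero]

lemma sc_posProj (r : ℤ → K l) (i : ℤ) : X.sc l r ∘ₗ posProj (W l) X.Y X.ilev i =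
    posProj (W l) X.Y X.ilev i ∘ₗ X.sc l r := by
  unfold sc
  refine LinearMap.ext fun x => ?_
  simp only [LinearMap.comp_apply, LinearMap.sum_apply, LinearMap.smul_apply, map_sum, map_smul]
  refine Finset.sum_congr rfl fun m _ => ?_
  congr 1
  exact LinearMap.congr_fun (kp_posProj (X := X) l m i) x

lemma Frobenius.phi_posProj (i : ℤ) : Fr.phi l ∘ₗ posProj (W l) X.Y X.ilev i =
    posProj (W l) X.Y X.ilev i ∘ₗ Fr.phi l := by
  unfold Frobenius.phi
  have h := comp_posProj (W l) X.Y X.ilev 0 (Fr.bidegree l) i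
  rw [add_zero] at h
  rw [LinearMap.comp_assoc, sc_posProj, ← LinearMap.comp_assoc, h, LinearMap.comp_assoc]

/-- the degree projector of `Strata` in terms of levels and degrees -/
lemma degProj_ilev (w : ℤ) : degProj (W l) X.Y X.ilev 0 w =
    ∑ i ∈ Finset.univ.image X.ilev, X.kp l (w - i) ∘ₗ posProj (W l) X.Y X.ilev i := by
  refine LinearMap.ext fun x => funext fun a => ?_
  rw [LinearMap.sum_apply, Finset.sum_apply, Proj_degProj_apply]
  have h1 : ∀ i ∈ Finset.univ.image X.ilev,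
      (X.kp l (w - i) ∘ₗ posProj (W l) X.Y X.ilev i) x a =
        if X.ilev a = i then kapZ (W l) (X.Y a) (w - i) (x a) else 0 := by
    intro i _
    rw [LinearMap.comp_apply, Proj_degProj_apply, Proj_posProj_apply]
    simp only [Pi.zero_apply, mul_zero, sub_zero]
    split_ifs with h
    · rfl
    · rw [map_zero]
  rw [Finset.sum_congr rfl h1, Finset.sum_ite_eq,
    if_pos (Finset.mem_image_of_mem X.ilev (Finset.mem_univ a))]
  simp only [Pi.zero_apply, mul_zero, sub_zero]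

lemma Frobenius.phi_degProj (w : ℤ) : Fr.phi l ∘ₗ degProj (W l) X.Y X.ilev 0 w =
    degProj (W l) X.Y X.ilev 0 w ∘ₗ Fr.phi l := by
  rw [degProj_ilev]
  refine LinearMap.ext fun x => ?_
  simp only [LinearMap.comp_apply, LinearMap.sum_apply, map_sum]
  refine Finset.sum_congr rfl fun i _ => ?_
  have h1 := LinearMap.congr_fun (Fr.phi_kp l (w - i)) (posProj (W l) X.Y X.ilev i x)
  have h2 := LinearMap.congr_fun (Fr.phi_posProj l i) x
  simp only [LinearMap.comp_apply] at h1 h2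
  rw [h1, h2]

lemma Frobenius.phi_Lam : Fr.phi l ∘ₗ X.Lam l = X.Lam l ∘ₗ Fr.phi l := by
  obtain ⟨P, hP⟩ := X.exists_sl l
  exact hP.comm_f (Fr.phi l) (Fr.phi_L l) (fun p => Fr.phi_degProj l (p + X.n))

/-- `phi` is a similitude on the parts of a level, with multiplier depending on the parity -/
lemma Frobenius.phi_form {i : ℕ} (hi : i ≤ X.n) {m m' : ℤ} (hm : m + m' = 2 * (X.n - i))
    {x y : Tot (W l) X.Y} (hx : x ∈ X.hdeg l m) (hx' : x ∈ posPart (W l) X.Y X.ilev i)
    (hy : y ∈ X.hdeg l m') :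
    X.pair l (Fr.phi l x) (Fr.phi l y) =
      (Fr.q : K l) ^ (-((m + 1) / 2) - (m' + 1) / 2 + (X.n - i)) * X.pair l x y := by
  have h1 := Fr.form l i x hx' y
  have h2 : X.pair l (Fr.phi l x) (Fr.phi l y) =
      (Fr.q : K l) ^ (-((m + 1) / 2)) * ((Fr.q : K l) ^ (-((m' + 1) / 2)) *
        X.pair l (Fr.F l x) (Fr.F l y)) := by
    rw [Fr.phi_of_mem l hx, Fr.phi_of_mem l hy]
    change tform (W l) X.Y _ _ = _ * (_ * tform (W l) X.Y _ _)
    rw [LinearMap.map_smul₂, map_smul, smul_eq_mul, smul_eq_mul]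
  rw [h2, h1, ← mul_assoc, ← mul_assoc]
  congr 1
  have h3 : (Fr.q : K l) ^ (X.n - i) = (Fr.q : K l) ^ ((X.n : ℤ) - i) := by
    rw [← zpow_natCast, Nat.cast_sub hi]
  rw [h3, ← zpow_add₀ (Fr.q_ne l), ← zpow_add₀ (Fr.q_ne l)]
  congr 1

end Strata

end Pool.Agent.H62S
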