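import Mathlib

/-! Polynomials: the decomposition of a polynomial into a part prime to `G` and a part dividing a
power of `G`. -/

namespace Pool.Agent.H62S

open Polynomial

theorem exists_split {F : Type*} [Field F] (G : F[X]) :
    ∀ (n : ℕ) (χ : F[X]), χ ≠ 0 → χ.natDegree ≤ n →
      ∃ A Q : F[X], χ = A * Q ∧ IsCoprime A G ∧ ∃ m, Q ∣ G ^ m := by
  intro n
  induction n with
  | zero =>
    intro χ h0 hχ
    refine ⟨χ, 1, by rw [mul_one], ?_, 0, by simp⟩
    rw [eq_C_of_natDegree_le_zero hχ] at h0 ⊢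
    have hu : χ.coeff 0 ≠ 0 := fun h => h0 (by rw [h, C_0])
    exact ⟨C (χ.coeff 0)⁻¹, 0, by rw [zero_mul, add_zero, ← C_mul, inv_mul_cancel₀ hu, C_1]⟩
  | succ n ih =>
    intro χ h0 hχ
    by_cases hc : IsCoprime χ G
    · exact ⟨χ, 1, by rw [mul_one], hc, 0, by simp⟩
    · have hg : ∃ p : F[X], Irreducible p ∧ p ∣ χ ∧ p ∣ G := by
        by_contra hcon
        push Not at hcon
        exact hc (isCoprime_of_irreducible_dvd (fun h => h0 h.1) fun p hp h1 h2 => hcon p hp h1 h2)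
      obtain ⟨p, hp, ⟨χ', rfl⟩, hpG⟩ := hg
      have h1 : χ' ≠ 0 := right_ne_zero_of_mul h0
      have h2 := natDegree_mul hp.ne_zero h1
      have h3 := hp.natDegree_pos
      obtain ⟨A, Q, rfl, hA, m, hm⟩ := ih χ' h1 (by omega)
      refine ⟨A, p * Q, by ring, hA, m + 1, ?_⟩
      rw [pow_succ, mul_comm]
      exact mul_dvd_mul hm hpG

/-- a polynomial whose roots prime to `G` are simple -/
theorem squarefree_of_simple {χ A Q G : ℚ[X]} (h0 : χ ≠ 0) (h : χ = A * Q) (hA : IsCoprime A G)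
    (hs : ∀ z : ℂ, aeval z χ = 0 → aeval z G = 0 ∨
      (χ.map (algebraMap ℚ ℂ)).rootMultiplicity z = 1) : Squarefree A := by
  intro p hp
  by_contra hu
  have hA0 : A ≠ 0 := by rintro rfl; rw [zero_mul] at h; exact h0 h
  have hp0 : p ≠ 0 := by rintro rfl; simp only [mul_zero, zero_dvd_iff] at hp; exact hA0 hp
  have hdeg : 0 < p.natDegree := by
    rw [Nat.pos_iff_ne_zero]
    intro hd
    rw [eq_C_of_natDegree_eq_zero hd] at hu hp0
    exact hu (isUnit_C.2 (isUnit_iff_ne_zero.2 (fun h => hp0 (by rw [h, C_0]))))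
  obtain ⟨z, hz⟩ := IsAlgClosed.exists_aeval_eq_zero ℂ p (by
    intro h1
    have h2 : p.natDegree = 0 := natDegree_eq_of_degree_eq_some (n := 0) (by simpa using h1)
    omega)
  have hzA : aeval z A = 0 := by
    obtain ⟨R, rfl⟩ := hp
    rw [map_mul, map_mul, hz, zero_mul, zero_mul]
  have hzχ : aeval z χ = 0 := by rw [h, map_mul, hzA, zero_mul]
  rcases hs z hzχ with h1 | h1
  · obtain ⟨a, b, hab⟩ := hA
    have h2 := congrArg (aeval z) hab
    rw [map_add, map_mul, map_mul, hzA, h1, mul_zero, mul_zero, add_zero, map_one] at h2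
    exact zero_ne_one h2
  · have h2 : (X - C z) ^ 2 ∣ χ.map (algebraMap ℚ ℂ) := by
      have h3 : X - C z ∣ p.map (algebraMap ℚ ℂ) := by
        rw [dvd_iff_isRoot, IsRoot.def, eval_map_algebraMap]
        exact hz
      obtain ⟨R, rfl⟩ := hp
      rw [h, Polynomial.map_mul, Polynomial.map_mul, Polynomial.map_mul, sq, mul_assoc]
      exact (mul_dvd_mul h3 h3).mul_right _
    have h4 : χ.map (algebraMap ℚ ℂ) ≠ 0 := by
      rwa [Polynomial.map_ne_zero_iff (algebraMap ℚ ℂ).injective]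
    have h5 := (le_rootMultiplicity_iff h4).2 h2
    omega

end Pool.Agent.H62S
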