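import Pool.Agent.W_MP_a3c811_h79.MF.SimE

/-! Condition (E) for operators which vanish where all components of the differential vanish. -/

noncomputable section

set_option linter.unusedSectionVars false

namespace Pool.Agent.H79E

open Module Polynomial Pool.Agent.H79L Pool.Agent.B4801b Pool.Agent.H62X

universe v w

variable {K : Type v} [Field K] [CharZero K] {E : Type w} [AddCommGroup E] [Module K E]
  [FiniteDimensional K E]
  {N f L g d : Module.End K E} {n : ℤ} {s t : ℤ → Module.End K E}
  {P D : Finset ℤ} {S : E →ₗ[K] E →ₗ[K] K} {B : Subring (Module.End K E)}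

/-- self-adjoint operators with values in the sum of the images of the components vanish on the
primitive vectors killed by the components -/
lemma van_of_rad (h : Pol N f L g d n s t P D S B) {i j : ℕ} {u : Module.End K E}
    (hur : ∀ x, u x ∈ radS f g d) (hup : ∀ x ∈ prim f g n s t i j, u x ∈ prim f g n s t i j)
    (hself : ∀ x ∈ prim f g n s t i j, ∀ y ∈ prim f g n s t i j,
      S (u x) ((N ^ i) ((L ^ j) y)) = S x ((N ^ i) ((L ^ j) (u y))))
    {y : E} (hy : y ∈ prim f g n s t i j) (h0 : ∀ k, cmp f g d k y = 0) : u y = 0 := by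
  refine nd_prim_r h (hup y hy) fun z hz => ?_
  rw [← hself z hz y hy]
  exact rad_kill h (hur z) h0 i j

/-- `d x = 0` is enough for primitive vectors -/
lemma cmp_zero {x : E} (hd : d x = 0) (hf : f x = 0) (hg : g x = 0) (k : Fin 4) :
    cmp f g d k x = 0 := by
  have e1 : br f d x = 0 := by
    change f (d x) - d (f x) = 0
    rw [hd, hf, map_zero, map_zero, sub_zero]
  have e2 : br g d x = 0 := by
    change g (d x) - d (g x) = 0
    rw [hd, hg, map_zero, map_zero, sub_zero]
  have e3 : br f (br g d) x = 0 := by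
    change f (br g d x) - br g d (f x) = 0
    rw [e2, hf, map_zero, map_zero, sub_zero]
  fin_cases k
  · exact hd
  · exact e1
  · exact e2
  · exact e3

/-- condition (E) from its form on the primitive part, for operators which vanish on the cocycles -/
theorem gd_P (h : Pol N f L g d n s t P D S B) {i j : ℕ}
    (hP : ∀ u ∈ B, (∀ x ∈ prim f g n s t i j, u x ∈ prim f g n s t i j) →
      (∀ x ∈ prim f g n s t i j, ∀ y ∈ prim f g n s t i j,
        S (u x) ((N ^ i) ((L ^ j) y)) = S x ((N ^ i) ((L ^ j) (u y)))) →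
      (∀ x ∈ prim f g n s t i j, u (u x) = 0) →
      (∀ x ∈ prim f g n s t i j, d x = 0 → u x = 0) → ∀ x ∈ prim f g n s t i j, u x = 0) :
    Gd N f L g d n s t S B i j := by
  intro u hu hur hup hself hsq
  refine hP u hu hup hself hsq fun x hx hd => ?_
  obtain ⟨-, -, h3, h4⟩ := (mem_prim_iff h.bi).1 hx
  exact van_of_rad h hur hup hself hx (cmp_zero hd h3 h4)

/-- condition (E) from its form on the transcendental part, for operators which vanish on the
cocycles -/
theorem gd_T (h : Pol N f L g d n s t P D S B) {Al : AddSubgroup E} {i j : ℕ}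
    (hC : ClsAt N f L g n s t S B Al i j)
    (hT : ∀ u ∈ B, (∀ x ∈ Tp f g n s t S Al i j, u x ∈ Tp f g n s t S Al i j) →
      (∀ x ∈ Tp f g n s t S Al i j, ∀ y ∈ Tp f g n s t S Al i j,
        S (u x) ((N ^ i) ((L ^ j) y)) = S x ((N ^ i) ((L ^ j) (u y)))) →
      (∀ x ∈ Tp f g n s t S Al i j, u (u x) = 0) →
      (∀ x ∈ Tp f g n s t S Al i j, d x = 0 → u x = 0) →
      ∀ x ∈ Tp f g n s t S Al i j, u x = 0) :
    Gd N f L g d n s t S B i j := by
  intro u hu hur hup hself hsq
  have hbi := h.bi
  obtain ⟨u', hu', hadj⟩ := h.star u hu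
  -- `u` kills the classes
  have hk : ∀ a ∈ Submodule.span K ((Al : Set E) ∩ prim f g n s t i j), u a = 0 := by
    intro a ha
    induction ha using Submodule.span_induction with
    | mem a ha =>
      refine hC.hodge _ (hC.stab u hu a ha.1) (hup a ha.2) ?_
      rw [hself a ha.2 _ (hup a ha.2), hsq a ha.2, map_zero, map_zero, map_zero]
    | zero => rw [map_zero]
    | add x y _ _ h1 h2 => rw [map_add, h1, h2, add_zero]
    | smul c x _ h1 => rw [map_smul, h1, smul_zero]
  -- `u` respects the transcendental part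
  have hTT : ∀ x ∈ Tp f g n s t S Al i j, u x ∈ Tp f g n s t S Al i j := by
    intro x hx
    refine ⟨hup x hx.1, fun a ha => ?_⟩
    rw [hadj.1]
    exact hx.2 _ (hC.stab u' hu' a ha)
  have hz := hT u hu hTT (fun x hx y hy => hself x hx.1 y hy.1) (fun x hx => hsq x hx.1)
    (fun x hx hd => by
      obtain ⟨-, -, h3, h4⟩ := (mem_prim_iff hbi).1 hx.1
      exact van_of_rad h hur hup hself hx.1 (cmp_zero hd h3 h4))
  intro x hx
  obtain ⟨a, ha, b, hb, rfl⟩ := hC.split x hx
  rw [map_add, hk a ha, hz b hb, add_zero]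

end Pool.Agent.H79E
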