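import Pool.Agent.W_MP_a3c811_h79.MF.GdY

/-! The ring of the motivic endomorphisms which, with their adjoints, commute with a set of
endomorphisms. -/

noncomputable section

set_option linter.unusedSectionVars false

namespace Pool.Agent.H62S

open Module Polynomial Pool.Agent.WeilH_h6 Pool.Agent.WeilH_h6.VarClass Pool.Agent.H62D
  Pool.Agent.H62A Pool.Agent.H79L Pool.Agent.H62X Pool.Agent.H79E

universe u v w

variable {k : Type u} [Field k] {𝒱 : VarClass k} {I : Type} {K : I → Type v} [∀ l, Field (K l)]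
  [∀ l, CharZero (K l)] {W : ∀ l, Weil.{u, v, w} 𝒱 (K l)} {X : Strata W}

namespace Strata

variable {l : I}

variable (X l) in
/-- The motivic endomorphisms which commute with `G` and whose adjoint commutes with `G`. -/
def sring (hW : Compatible W) (G : Set (Module.End (K l) (Tot (W l) X.Y))) :
    Subring (Module.End (K l) (Tot (W l) X.Y)) where
  carrier := {U | U ∈ (MA hW X.Y).map
      (Pi.evalRingHom (fun l => Module.End (K l) (Tot (W l) X.Y)) l) ∧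
    (∀ φ ∈ G, φ * U = U * φ) ∧
    ∃ U', Adj (tform (W l) X.Y) U U' ∧ ∀ φ ∈ G, φ * U' = U' * φ}
  mul_mem' := by
    rintro U V ⟨h1, h2, U', h3, h4⟩ ⟨k1, k2, V', k3, k4⟩
    refine ⟨Subring.mul_mem _ h1 k1, fun φ hφ => ?_, V' * U', h3.mul k3, fun φ hφ => ?_⟩
    · rw [← mul_assoc, h2 φ hφ, mul_assoc, k2 φ hφ, mul_assoc]
    · rw [← mul_assoc, k4 φ hφ, mul_assoc, h4 φ hφ, mul_assoc]
  one_mem' := ⟨Subring.one_mem _, fun φ _ => by rw [mul_one, one_mul], 1, Adj.one,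
    fun φ _ => by rw [mul_one, one_mul]⟩
  add_mem' := by
    rintro U V ⟨h1, h2, U', h3, h4⟩ ⟨k1, k2, V', k3, k4⟩
    exact ⟨Subring.add_mem _ h1 k1, fun φ hφ => by rw [mul_add, add_mul, h2 φ hφ, k2 φ hφ],
      U' + V', h3.add k3, fun φ hφ => by rw [mul_add, add_mul, h4 φ hφ, k4 φ hφ]⟩
  zero_mem' := ⟨Subring.zero_mem _, fun φ _ => by rw [mul_zero, zero_mul], 0, Adj.zero,
    fun φ _ => by rw [mul_zero, zero_mul]⟩
  neg_mem' := by
    rintro U ⟨h1, h2, U', h3, h4⟩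
    have key : ∀ {φ V : Module.End (K l) (Tot (W l) X.Y)}, φ * V = V * φ → φ * -V = -V * φ := by
      intro φ V hV
      refine LinearMap.ext fun x => ?_
      change φ (-(V x)) = -(V (φ x))
      rw [map_neg]
      exact congrArg Neg.neg (LinearMap.congr_fun hV x)
    exact ⟨Subring.neg_mem _ h1, fun φ hφ => key (h2 φ hφ), -U', h3.neg,
      fun φ hφ => key (h4 φ hφ)⟩

lemma mem_sring (hW : Compatible W) {G : Set (Module.End (K l) (Tot (W l) X.Y))}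
    {U : Module.End (K l) (Tot (W l) X.Y)} :
    U ∈ X.sring l hW G ↔ (∃ V : ∀ l, TEnd (W l) X.Y, Motivic W X.Y V ∧ V l = U) ∧
      (∀ φ ∈ G, φ * U = U * φ) ∧
      ∃ U', Adj (tform (W l) X.Y) U U' ∧ ∀ φ ∈ G, φ * U' = U' * φ := by
  constructor
  · rintro ⟨⟨V, hV, rfl⟩, h2, h3⟩
    exact ⟨⟨V, hV, rfl⟩, h2, h3⟩
  · rintro ⟨⟨V, hV, rfl⟩, h2, h3⟩
    exact ⟨⟨V, hV, rfl⟩, h2, h3⟩

variable {G : Set (Module.End (K l) (Tot (W l) X.Y))} (hW : Compatible W)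
  (hG : ∀ φ ∈ G, Com X l φ)
include hG

/-- the ring has all the properties -/
theorem yring_sring [DecidableEq X.J] : X.YRing l (X.sring l hW G) where
  pos p := (mem_sring hW).2 ⟨⟨_, motivic_posProj hW p, rfl⟩, fun φ hφ => (hG φ hφ).pos p,
    _, ⟨tform_posl p, tform_posl p⟩, fun φ hφ => (hG φ hφ).pos p⟩
  deg w := by
    refine (mem_sring hW).2 ⟨⟨_, motivic_degProj (fun a n => ?_) w, rfl⟩,
      fun φ hφ => (hG φ hφ).deg w,
      _, ⟨X.tform_deg l w, fun x y => ?_⟩, fun φ hφ => (hG φ hφ).deg (2 * X.n - w)⟩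
    · exact (X.toLefschetz hW).kunneth hW (⟨a, ⟨0, Nat.succ_pos _⟩⟩ : X.Idx) n
    · have := X.tform_deg l (2 * X.n - w) x y
      rwa [show 2 * (X.n : ℤ) - (2 * X.n - w) = w by ring] at this
  res := (mem_sring hW).2 ⟨⟨_, X.motivic.1, rfl⟩, fun φ hφ => (hG φ hφ).res,
    X.gys l, ⟨(X.adjoint l).1, X.adj_gys l⟩, fun φ hφ => (hG φ hφ).gys⟩
  gys := (mem_sring hW).2 ⟨⟨_, X.motivic.2.1, rfl⟩, fun φ hφ => (hG φ hφ).gys,
    X.res l, ⟨X.adj_gys l, (X.adjoint l).1⟩, fun φ hφ => (hG φ hφ).res⟩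
  L := (mem_sring hW).2 ⟨⟨_, X.motivic.2.2.1, rfl⟩, fun φ hφ => (hG φ hφ).L,
    X.L l, ⟨(X.adjoint l).2, (X.adjoint l).2⟩, fun φ hφ => (hG φ hφ).L⟩
  Lam := (mem_sring hW).2 ⟨⟨_, X.motivic.2.2.2, rfl⟩, fun φ hφ => (hG φ hφ).Lam,
    X.Lam l, ⟨X.adj_Lam l, X.adj_Lam l⟩, fun φ hφ => (hG φ hφ).Lam⟩
  rat := by
    intro q U hU
    obtain ⟨⟨V, hV, rfl⟩, h2, U', h3, h4⟩ := (mem_sring hW).1 hU
    refine (mem_sring hW).2 ⟨⟨_, motivic_smul q hV, rfl⟩, fun φ hφ => ?_, (q : K l) • U', ?_,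
      fun φ hφ => ?_⟩
    · rw [mul_smul_comm, smul_mul_assoc, h2 φ hφ]
    · refine ⟨fun x y => ?_, fun x y => ?_⟩
      · rw [LinearMap.smul_apply, LinearMap.smul_apply, map_smul, map_smul,
          LinearMap.smul_apply, h3.1]
      · rw [LinearMap.smul_apply, LinearMap.smul_apply, map_smul, map_smul,
          LinearMap.smul_apply, h3.2]
    · rw [mul_smul_comm, smul_mul_assoc, h4 φ hφ]
  star := by
    intro U hU
    obtain ⟨⟨V, hV, rfl⟩, h2, U', h3, h4⟩ := (mem_sring hW).1 hU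
    obtain ⟨V', hV', k3, k4⟩ := motivic_adj hW hV
    have hadj : Adj (tform (W l) X.Y) (V l) (V' l) := ⟨k3 l, k4 l⟩
    have he : V' l = U' := adj_unique hadj h3.1
    exact ⟨V' l, (mem_sring hW).2 ⟨⟨V', hV', rfl⟩, by rw [he]; exact h4, V l, hadj.symm, h2⟩,
      hadj⟩

end Strata

end Pool.Agent.H62S
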