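import Pool.Agent.W_a3c811_h62w.Ab22

/-! Simple common eigenvalues exclude self-adjoint operators with square zero: no duality and no
choice of a prime is needed. -/

noncomputable section

set_option linter.unusedSectionVars false

namespace Pool.Agent.H79E

open Module Polynomial Pool.Agent.H79L Pool.Agent.B4801b Pool.Agent.H62X

universe v w

section lin

variable {K : Type v} [Field K] {V : Type w} [AddCommGroup V] [Module K V]

/-- polynomials of the operator induced on a quotient -/
lemma aeval_mapQ (W : Submodule K V) (Φ : Module.End K V) (he : W ≤ W.comap Φ) (q : K[X]) (x : V) :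
    aeval (W.mapQ W Φ he : Module.End K (V ⧸ W)) q (W.mkQ x) = W.mkQ (aeval Φ q x) := by
  induction q using Polynomial.induction_on' with
  | add p q hp hq => simp only [map_add, LinearMap.add_apply, hp, hq]
  | monomial n a =>
    simp only [aeval_monomial, Module.End.mul_apply, Module.algebraMap_end_apply, map_smul]
    congr 1
    induction n with
    | zero => simp
    | succ n ih =>
      rw [pow_succ', pow_succ', Module.End.mul_apply, Module.End.mul_apply, ih]
      rfl

variable [FiniteDimensional K V]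

/-- an irreducible polynomial which kills a nonzero vector divides the characteristic polynomial -/
lemma dvd_of_kill {Φ : Module.End K V} {q : K[X]} (hq : Irreducible q) {x : V} (hx : x ≠ 0)
    (h0 : aeval Φ q x = 0) : q ∣ Φ.charpoly := by
  by_contra hnd
  obtain ⟨a, b, hab⟩ := hq.coprime_iff_not_dvd.2 hnd
  have h2 := congrArg (fun q => aeval Φ q x) hab
  simp only [map_add, map_mul, map_one, LinearMap.add_apply, Module.End.mul_apply,
    Module.End.one_apply] at h2
  rw [h0, LinearMap.aeval_self_charpoly, LinearMap.zero_apply, map_zero, map_zero, add_zero] at h2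
  exact hx h2.symm

/-- An operator with square zero which commutes with `Φ`: the irreducible factors which occur in its
image divide the characteristic polynomial twice. -/
theorem sq_dvd [CharZero K] {Φ u : Module.End K V} (hc : ∀ x, Φ (u x) = u (Φ x))
    (hu : ∀ x, u (u x) = 0) {q : K[X]} (hq : Irreducible q) {x : V} (hx : u x ≠ 0)
    (hqx : aeval Φ q (u x) = 0) : q ^ 2 ∣ Φ.charpoly := by
  have hk : ∀ y ∈ LinearMap.ker u, Φ y ∈ LinearMap.ker u := by
    intro y hy
    rw [LinearMap.mem_ker] at hy ⊢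
    rw [← hc, hy, map_zero]
  rw [charpoly_mul (LinearMap.ker u) Φ hk, pow_two]
  refine mul_dvd_mul ?_ ?_
  · refine dvd_of_kill (x := ⟨u x, hu x⟩) hq ?_ ?_
    · intro h0
      exact hx (congrArg Subtype.val h0)
    · exact Subtype.ext ((aeval_restrict hk q ⟨u x, hu x⟩).trans hqx)
  · refine dvd_of_kill (x := (LinearMap.ker u).mkQ x) hq ?_ ?_
    · intro h0
      rw [Submodule.mkQ_apply, Submodule.Quotient.mk_eq_zero, LinearMap.mem_ker] at h0
      exact hx h0
    · rw [aeval_mapQ, Submodule.mkQ_apply, Submodule.Quotient.mk_eq_zero, LinearMap.mem_ker,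
        ← aeval_comm (LinearMap.ext hc), hqx]

end lin

variable {K : Type v} [Field K] [CharZero K] {E : Type w} [AddCommGroup E] [Module K E]
  [FiniteDimensional K E]
  {N f L g d : Module.End K E} {n : ℤ} {s t : ℤ → Module.End K E}
  {P D : Finset ℤ} {S : E →ₗ[K] E →ₗ[K] K} {B : Subring (Module.End K E)}

/-- The algebraic classes at `(i, j)`: stable under `B`, no nonzero primitive one is isotropic, and
together with their orthogonal complement they span the primitive part. -/
structure ClsAt (N f L g : Module.End K E) (n : ℤ) (s t : ℤ → Module.End K E)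
    (S : E →ₗ[K] E →ₗ[K] K) (B : Subring (Module.End K E)) (Al : AddSubgroup E) (i j : ℕ) :
    Prop where
  stab : ∀ u ∈ B, ∀ a ∈ Al, u a ∈ Al
  hodge : ∀ a ∈ Al, a ∈ prim f g n s t i j → S a ((N ^ i) ((L ^ j) a)) = 0 → a = 0
  split : ∀ y ∈ prim f g n s t i j, ∃ a ∈ Submodule.span K ((Al : Set E) ∩ prim f g n s t i j),
    ∃ b ∈ Tp f g n s t S Al i j, y = a + b

/-- the form on a primitive part is right nondegenerate -/
lemma nd_prim_r (h : Pol N f L g d n s t P D S B) {i j : ℕ} {w : E}
    (hw : w ∈ prim f g n s t i j)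
    (h0 : ∀ z ∈ prim f g n s t i j, S z ((N ^ i) ((L ^ j) w)) = 0) : w = 0 := by
  have h1 := right_nd (TT S N L i j (prim f g n s t i j))
    (fun x hx => Subtype.ext (nd_prim h x.2 fun y hy => hx ⟨y, hy⟩)) ⟨w, hw⟩
    (fun x => h0 x x.2)
  exact congrArg Subtype.val h1

/-- A vector of `Tp i j` killed by an operator `G` which commutes with the components and is
injective on the neighbours is killed by them. (As `cmp_kill`, with the stability of the classes
only.) -/
lemma cmp_kill' (h : Pol N f L g d n s t P D S B) {Al : AddSubgroup E}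
    (hst : ∀ u ∈ B, ∀ a ∈ Al, u a ∈ Al) {G : Module.End K E}
    (hG : ∀ k, ∀ x, G (cmp f g d k x) = cmp f g d k (G x))
    {i j : ℕ} (hinj : ∀ i' j', Nb i j i' j' → ∀ z ∈ Tp f g n s t S Al i' j', G z = 0 → z = 0)
    {y : E} (hy : y ∈ Tp f g n s t S Al i j) (hGy : G y = 0) (k : Fin 4) :
    cmp f g d k y = 0 := by
  have hbi := h.bi
  obtain ⟨y1, y2, y3, y4⟩ := (mem_prim_iff hbi).1 hy.1
  obtain ⟨r3, r1, r2, r0⟩ := cmp_rel hbi
  have ann' : ∀ k, cmp f g d k y ∈ ann S Al := by
    intro k a ha
    obtain ⟨u', hu', h1⟩ := h.star _ (cmp_mem h k)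
    rw [h1.1]
    exact hy.2 _ (hst u' hu' a ha)
  have step : ∀ k, f (cmp f g d k y) = 0 → g (cmp f g d k y) = 0 → cmp f g d k y = 0 := by
    intro k hk1 hk2
    obtain ⟨e1, e2⟩ := cmp_shift hbi k
    have e1' := e1 (-(i : ℤ)) y
    have e2' := e2 (n - j) y
    rw [y1] at e1'
    rw [y2] at e2'
    rcases prim_or hbi e1' e2' hk1 hk2 with h0 | ⟨i', j', hi', hj', hz⟩
    · exact h0
    · refine hinj i' j' ?_ _ ⟨hz, ann' k⟩ (by rw [hG, hGy, map_zero])
      unfold Nb
      fin_cases k
      · change -(i : ℤ) + 1 = -i' at hi'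
        change n - (j : ℤ) + 1 = n - j' at hj'
        omega
      · change -(i : ℤ) + -1 = -i' at hi'
        change n - (j : ℤ) + 1 = n - j' at hj'
        omega
      · change -(i : ℤ) + 1 = -i' at hi'
        change n - (j : ℤ) + -1 = n - j' at hj'
        omega
      · change -(i : ℤ) + -1 = -i' at hi'
        change n - (j : ℤ) + -1 = n - j' at hj'
        omega
  have c3 : cmp f g d 3 y = 0 := by
    refine step 3 ?_ ?_
    · rw [(r3 y).1, y3, map_zero]
    · rw [(r3 y).2, y4, map_zero]
  have c1 : cmp f g d 1 y = 0 := by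
    refine step 1 ?_ ?_
    · rw [(r1 y).1, y3, map_zero]
    · rw [(r1 y).2, y4, map_zero, zero_add, c3]
  have c2 : cmp f g d 2 y = 0 := by
    refine step 2 ?_ ?_
    · rw [(r2 y).1, y3, map_zero, zero_add, c3]
    · rw [(r2 y).2, y4, map_zero]
  have c0 : cmp f g d 0 y = 0 := by
    refine step 0 ?_ ?_
    · rw [(r0 y).1, y3, map_zero, zero_add, c1]
    · rw [(r0 y).2, y4, map_zero, zero_add, c2]
  fin_cases k
  · exact c0
  · exact c1
  · exact c2
  · exact c3

/-- Condition (E) from simple common eigenvalues. -/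
theorem simple_gd (h : Pol N f L g d n s t P D S B) {Al : AddSubgroup E} {i j : ℕ}
    (hC : ClsAt N f L g n s t S B Al i j) {Φ : Module.End K E} (hΦ : ∀ u ∈ B, Φ * u = u * Φ)
    {R : ℕ → ℕ → K[X]} (hR0 : HasCP Φ (Tp f g n s t S Al i j) (R i j))
    (hR : ∀ i' j', Nb i j i' j' → HasCP Φ (Tp f g n s t S Al i' j') (R i' j'))
    (hs : ∀ q : K[X], Irreducible q → q ∣ R i j → (∃ i' j', Nb i j i' j' ∧ q ∣ R i' j') →
      ¬ q ^ 2 ∣ R i j) : Gd N f L g d n s t S B i j := by
  intro u hu hur hup hself hsq
  have hbi := h.bi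
  obtain ⟨u', hu', hadj⟩ := h.star u hu
  obtain ⟨hst, hcp⟩ := hR0
  -- `u` kills the classes
  have hk : ∀ a ∈ Submodule.span K ((Al : Set E) ∩ prim f g n s t i j), u a = 0 := by
    intro a ha
    induction ha using Submodule.span_induction with
    | mem a ha =>
      refine hC.hodge _ (hC.stab u hu a ha.1) (hup a ha.2) ?_
      rw [hself a ha.2 _ (hup a ha.2), hsq a ha.2, map_zero, map_zero, map_zero]
    | zero => rw [map_zero]
    | add x y _ _ h1 h2 => rw [map_add, h1, h2, add_zero]
    | smul c x _ h1 => rw [map_smul, h1, smul_zero]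
  -- `u` respects the transcendental part
  have hT : ∀ x ∈ Tp f g n s t S Al i j, u x ∈ Tp f g n s t S Al i j := by
    intro x hx
    refine ⟨hup x hx.1, fun a ha => ?_⟩
    rw [hadj.1]
    exact hx.2 _ (hC.stab u' hu' a ha)
  set V := Tp f g n s t S Al i j with hV
  set Φ' : Module.End K V := Φ.restrict hst with hΦ'
  set v : Module.End K V := u.restrict hT with hv
  have hcomm : ∀ x : V, Φ' (v x) = v (Φ' x) := fun x =>
    Subtype.ext (LinearMap.congr_fun (hΦ u hu) (x : E))
  have hv2 : ∀ x : V, v (v x) = 0 := fun x => Subtype.ext (hsq x x.2.1)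
  -- vectors killed by the components are killed by `u`
  have hk0 : ∀ y : V, (∀ k, cmp f g d k (y : E) = 0) → v y = 0 := by
    intro y hy
    refine Subtype.ext ?_
    change u (y : E) = 0
    have key : ∀ z ∈ prim f g n s t i j, S z ((N ^ i) ((L ^ j) (u (y : E)))) = 0 := by
      intro z hz
      rw [← hself z hz y y.2.1]
      exact rad_kill h (hur z) hy i j
    -- the form is symmetric in the sense needed: use nondegeneracy of the other argument
    exact nd_prim_r h (hup y y.2.1) key
  have hzero : v = 0 := by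
    by_contra hv0
    set W := LinearMap.range v with hW
    have hWΦ : ∀ x ∈ W, Φ' x ∈ W := by
      rintro _ ⟨x, rfl⟩
      exact ⟨Φ' x, (hcomm x).symm⟩
    have hpos : 0 < finrank K W := by
      rw [Nat.pos_iff_ne_zero]
      intro h0
      exact hv0 (LinearMap.range_eq_bot.1 (Submodule.finrank_eq_zero.1 h0))
    set A := (Φ'.restrict hWΦ).charpoly with hA
    have hdeg : A.natDegree = finrank K W := LinearMap.charpoly_natDegree _
    have hA0 : A ≠ 0 := (LinearMap.charpoly_monic (Φ'.restrict hWΦ)).ne_zero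
    have hAu : ¬ IsUnit A := by
      intro hu
      have := natDegree_eq_zero_of_isUnit hu
      omega
    obtain ⟨q, hq, hqA⟩ := WfDvdMonoid.exists_irreducible_factor hAu hA0
    obtain ⟨x, hx0, hx⟩ := exists_ker_ne_zero (Φ'.restrict hWΦ) q hq hqA
    obtain ⟨⟨_, y, rfl⟩, rfl⟩ : ∃ z : W, z = x := ⟨x, rfl⟩
    have hy0 : v y ≠ 0 := fun h0 => hx0 (Subtype.ext h0)
    have h1 : aeval Φ' q (v y) = 0 := by
      rw [← aeval_restrict hWΦ q ⟨v y, y, rfl⟩, hx]
      rfl
    have h2 : q ^ 2 ∣ R i j := by
      rw [← hcp]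
      exact sq_dvd hcomm hv2 hq hy0 h1
    by_cases hn : ∃ i' j', Nb i j i' j' ∧ q ∣ R i' j'
    · exact hs q hq ((dvd_pow_self q two_ne_zero).trans h2) hn h2
    · -- the primary part of `q` is killed by the components
      obtain ⟨M, hM⟩ := Filter.eventually_atTop.1 (aeval Φ' q).eventually_isCompl_ker_pow_range_pow
      have hM' := hM (M + 1) (Nat.le_succ M)
      obtain ⟨y1, hy1, y2, ⟨z, hz⟩, hyy⟩ := Submodule.mem_sup.1
        (show y ∈ LinearMap.ker (aeval Φ' q ^ (M + 1)) ⊔ LinearMap.range (aeval Φ' q ^ (M + 1)) by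
          rw [hM'.sup_eq_top]; exact Submodule.mem_top)
      have e1 : v y1 = 0 := by
        refine hk0 y1 (cmp_kill' h hC.stab (G := aeval Φ (q ^ (M + 1))) ?_ ?_ y1.2 ?_)
        · intro k z
          exact aeval_comm (hΦ _ (cmp_mem h k)) _ _
        · intro i' j' hn' z hz hz0
          have hnd : ¬ q ∣ R i' j' := fun hd => hn ⟨i', j', hn', hd⟩
          exact coprime_inj (hR i' j' hn')
            ((hq.coprime_iff_not_dvd.2 hnd).pow_left) hz hz0
        · have h3 : (aeval Φ' q ^ (M + 1)) y1 = 0 := hy1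
          rw [← map_pow] at h3
          rw [← aeval_restrict hst, h3]
          rfl
      have e2 : v y = (aeval Φ' q ^ (M + 1)) (v z) := by
        rw [← hyy, map_add, e1, zero_add, ← hz, ← map_pow]
        exact (aeval_comm (LinearMap.ext hcomm) _ _).symm
      have e3 : v y ∈ LinearMap.ker (aeval Φ' q ^ (M + 1)) := by
        rw [LinearMap.mem_ker, pow_succ, Module.End.mul_apply, h1, map_zero]
      have e4 : v y ∈ LinearMap.range (aeval Φ' q ^ (M + 1)) := ⟨v z, e2.symm⟩
      exact hy0 ((Submodule.disjoint_def.1 hM'.disjoint) _ e3 e4)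
  intro x hx
  obtain ⟨a, ha, b, hb, rfl⟩ := hC.split x hx
  rw [map_add, hk a ha, zero_add]
  exact congrArg Subtype.val (LinearMap.congr_fun hzero ⟨b, hb⟩)

end Pool.Agent.H79E
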