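import Pool.Agent.W_MP_a3c811_h79.MF.StBase
import Pool.Agent.WeilH_h6.Api

/-! Definitions for the statement: Frobenius on the strata, primitive parts, the conjectures of Tate
and of Hodge type for the strata. -/

noncomputable section

namespace Pool.Agent.H62S

open Polynomial Pool.Agent.WeilH_h6 Pool.Agent.WeilH_h6.VarClass Pool.Agent.H62D Pool.Agent.H62A

universe u v w

/-- `z` is `q ^ r` times a root of unity, where `m = 2 r`. -/
def TateLike (q m : ℕ) (z : ℂ) : Prop :=
  ∃ r N : ℕ, 0 < N ∧ m = 2 * r ∧ z ^ N = ((q ^ (r * N) : ℕ) : ℂ)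

variable {k : Type u} [Field k] {𝒱 : VarClass k} {I : Type} {K : I → Type v} [∀ l, Field (K l)]
  {W : ∀ l, Weil.{u, v, w} 𝒱 (K l)}

namespace Strata

variable (X : Strata W)

/-- `x` is the class of a cycle with rational coefficients. -/
def IsClass (l : I) (x : Tot (W l) X.Y) : Prop :=
  ∃ z : ∀ a, TCyc (X.Y a), ∀ a, x a = clT (W l) (z a)

/-- The form `Tr (x L^j x)` has no zeros among the primitive classes of cycles (the Hodge index
theorem and homological equals numerical equivalence for these classes). -/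
def HodgeIndex (l : I) : Prop :=
  ∀ (i j : ℕ), ∀ x ∈ X.prim l i j, X.IsClass l x → X.pair l x ((X.L l ^ j) x) = 0 → x = 0

/-- The Frobenius endomorphism of the strata over the field with `q` elements (it may permute the
strata `Y a` of the same level). -/
structure Frobenius where
  /-- the number of elements of the residue field -/
  q : ℕ
  one_lt : 1 < q
  /-- the Frobenius endomorphism -/
  F : ∀ l, TEnd (W l) X.Y
  bidegree : ∀ l, HasBidegree (W l) X.Y (fun a => (X.lev a : ℤ)) 0 0 0 (F l)
  comm_res : ∀ l, Commutes (F l) (X.res l)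
  comm_gys : ∀ l x, F l (X.gys l x) = (q : K l) • X.gys l (F l x)
  comm_L : ∀ l x, F l (X.L l x) = (q : K l) • X.L l (F l x)
  form : ∀ l (i : ℕ), ∀ x ∈ posPart (W l) X.Y (fun a => (X.lev a : ℤ)) i, ∀ y,
    X.pair l (F l x) (F l y) = (q : K l) ^ (X.n - i) * X.pair l x y

variable {X}

/-- The Tate conjecture for the strata in the theory `l`: the classes of degree `2 r` on which some
power of Frobenius has only the eigenvalue `q ^ (r N)` are combinations of classes of cycles. -/
def Frobenius.Tate (Fr : X.Frobenius) (l : I) : Prop :=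
  ∀ (r N M : ℕ), 0 < N → ∀ x : Tot (W l) X.Y, (∀ a, x a ∈ (W l).grad (X.Y a) (2 * r)) →
    (((Fr.F l) ^ N - ((Fr.q ^ (r * N) : ℕ) : K l) • (LinearMap.id : TEnd (W l) X.Y)) ^ M) x = 0 →
      x ∈ Submodule.span (K l) {y | X.IsClass l y}

end Strata

/-- The primitive parts have Frobenius polynomials `χ i j` (the same for all `l`), pure of weight
`n - i - j`, whose roots are simple, except those which are `q ^ r` times a root of unity. -/
structure Simple (X : Strata W) (Fr : X.Frobenius) [∀ l, CharZero (K l)] (χ : ℕ → ℕ → ℚ[X]) :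
    Prop where
  charpoly : ∀ l i j, CharpolyOn (Fr.F l) (X.prim l i j) (χ i j)
  pure : ∀ i j, ∀ z : ℂ, aeval z (χ i j) = 0 → ‖z‖ ^ 2 = (Fr.q : ℝ) ^ (X.n - i - j)
  simple : ∀ i j, ∀ z : ℂ, aeval z (χ i j) = 0 → TateLike Fr.q (X.n - i - j) z ∨
    ((χ i j).map (algebraMap ℚ ℂ)).rootMultiplicity z = 1

end Pool.Agent.H62S
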