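import Pool.Agent.W_a3c811_h62w.Strata

/-! Definitions for the statement: the realisations of a motive computed by the `E_1`-term of the
weight spectral sequence, weight monodromy, independence of `l`. -/

noncomputable section

namespace Pool.Agent.H62S

open Polynomial Pool.Agent.WeilH_h6 Pool.Agent.WeilH_h6.VarClass Pool.Agent.H62A

universe u v w

section linear

variable {K : Type v} [Field K] {E V : Type w} [AddCommGroup E] [Module K E] [AddCommGroup V]
  [Module K V]

/-- `S` and `T` commute on the cohomology of `d`. -/
def ComMod (d S T : E →ₗ[K] E) : Prop := ∀ x, d x = 0 → S (T x) - T (S x) ∈ LinearMap.range d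

/-- The classes in `V` of the cocycles in `U`. -/
def classes (d : E →ₗ[K] E) (c : E →ₗ[K] V) (U : Submodule K E) : Submodule K V :=
  (LinearMap.ker d ⊓ U).map c

/-- The intersection. -/
def meet (U U' : Submodule K E) : Submodule K E := U ⊓ U'

/-- The kernel of `ν` on `U`. -/
def kerIn (ν : E →ₗ[K] E) (U : Submodule K E) : Submodule K E := U ⊓ LinearMap.ker ν

/-- The `i`-th power of `ν` maps `U` bijectively onto `U'`. -/
def PowBij (ν : E →ₗ[K] E) (i : ℕ) (U U' : Submodule K E) : Prop := Set.BijOn (ν ^ i) U U'

end linear

variable {k : Type u} [Field k] {𝒱 : VarClass k} {I : Type} {K : I → Type v} [∀ l, Field (K l)]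
  {W : ∀ l, Weil.{u, v, w} 𝒱 (K l)}

namespace Strata

/-- `T` is a motivic endomorphism of the `E_1`-term which keeps degree and position and commutes
with the differential. -/
def IsChain (X : Strata W) (T : ∀ l, TEnd (W l) X.EY) : Prop :=
  Motivic W X.EY T ∧ ∀ l, Bideg (W l) X.EY X.epos X.etw 0 0 (T l) ∧ ComT (W l) X.EY (T l) (X.ed l)

/-- The realisations of a motive computed by the `E_1`-term: spaces `V l` with a Frobenius `φ l` and
a monodromy operator `ν l`, `ν φ = q φ ν`, and a projector `e` (the motive) which commutes with the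
monodromy operator on the `E_2`-term, such that `V l` is the image of `e` in the `E_2`-term in the
theory `l`, compatibly with a motivic endomorphism `F` (Frobenius) and the monodromy operator. -/
structure Motive (X : Strata W) where
  /-- the cardinality of the residue field -/
  q : ℚ
  /-- the projector -/
  e : ∀ l, TEnd (W l) X.EY
  /-- the Frobenius of the `E_1`-term -/
  F : ∀ l, TEnd (W l) X.EY
  chain : X.IsChain e ∧ X.IsChain F
  com_mod : ∀ l, ComMod (X.ed l) (e l) (X.eN l)
  /-- the realisation in the theory `l` -/
  V : I → Type w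
  [acg : ∀ l, AddCommGroup (V l)]
  [mod : ∀ l, Module (K l) (V l)]
  [finite : ∀ l, FiniteDimensional (K l) (V l)]
  /-- the Frobenius on `V l` -/
  φ : ∀ l, V l →ₗ[K l] V l
  /-- the monodromy operator on `V l` -/
  ν : ∀ l, V l →ₗ[K l] V l
  /-- the class in `V l` of a cocycle -/
  u : ∀ l, Tot (W l) X.EY →ₗ[K l] V l
  computes : ∀ l, Computes (X.ed l) (e l) (F l) (X.eN l) (u l) (φ l) (ν l) (q : K l)

attribute [instance] Motive.acg Motive.mod Motive.finite

namespace Motive

variable {X : Strata W} (M : X.Motive)

/-- The part `V^w` of degree `w` of the realisation `V` in the theory `l`. -/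
def deg (l : I) (w : ℤ) : Submodule (K l) (M.V l) :=
  classes (X.ed l) (M.u l) (degPart (W l) X.EY X.epos X.etw w)

/-- The part of position `p` of `V^w`, which is of weight `w - p`. -/
def gr (l : I) (w p : ℤ) : Submodule (K l) (M.V l) :=
  classes (X.ed l) (M.u l) (meet (degPart (W l) X.EY X.epos X.etw w) (posPart (W l) X.EY X.epos p))

/-- The inertia invariants of `V^w`. -/
def inv (l : I) (w : ℤ) : Submodule (K l) (M.V l) := kerIn (M.ν l) (M.deg l w)

/-- The weight monodromy conjecture: the `i`-th power of the monodromy operator maps the part of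
`V^w` of weight `w + i` bijectively onto the part of weight `w - i`. -/
def WeightMonodromy (l : I) : Prop :=
  ∀ (w : ℤ) (i : ℕ), PowBij (M.ν l) i (M.gr l w (-i)) (M.gr l w i)

/-- For all `w`, the characteristic polynomials of Frobenius on `V^w` and on its inertia invariants
are rational and do not depend on `l`. -/
def Independence [∀ l, CharZero (K l)] : Prop :=
  ∀ w : ℤ, ∃ A B : ℚ[X], ∀ l, CharpolyOn (M.φ l) (M.deg l w) A ∧ CharpolyOn (M.φ l) (M.inv l w) B

end Motive

end Strata

end Pool.Agent.H62S
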