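import Pool.Agent.W_a3c811_h62w.StSim

/-! Definitions for the statements: self-adjoint endomorphisms of square zero of the primitive
parts, simple common eigenvalues. -/

noncomputable section

namespace Pool.Agent.H62S

open Polynomial Pool.Agent.WeilH_h6 Pool.Agent.WeilH_h6.VarClass Pool.Agent.H62A

universe u v w

/-- The irreducible common factors of `A` and `B` divide `A` only once. -/
def OnceIn {F : Type v} [Field F] (A B : F[X]) : Prop :=
  ∀ q : F[X], Irreducible q → q ∣ A → q ∣ B → ¬ q ^ 2 ∣ A

/-- The irreducible factors which `T i j` has in common with `T i' j'`, for the neighbours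
`(i', j')` of `(i, j)` with `i' + j' ≤ n`, divide `T i j` only once. -/
def SimpleNb {F : Type v} [Field F] (n : ℕ) (T : ℕ → ℕ → F[X]) (i j : ℕ) : Prop :=
  ∀ i' j', i' + j' ≤ n → IsNb i j i' j' → OnceIn (T i j) (T i' j')

section linear

variable {K : Type v} [Field K] {E : Type w} [AddCommGroup E] [Module K E]

/-- If `S` maps `P` to `P`, is self-adjoint there for the form `B (x, L^j y)` and has square zero,
then `S = 0` on `P`. -/
def SqOn (B : E → E → K) (L S : E →ₗ[K] E) (P : Submodule K E) (j : ℕ) : Prop :=
  MapsOn S P P → (∀ x ∈ P, ∀ y ∈ P, B (S x) ((L ^ j) y) = B x ((L ^ j) (S y))) →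
    (∀ x ∈ P, S (S x) = 0) → ∀ x ∈ P, S x = 0

/-- The characteristic polynomial of `φ` on the stable subspace `U` is `χ`. -/
def CharOn [FiniteDimensional K E] (φ : E →ₗ[K] E) (U : Submodule K E) (χ : K[X]) : Prop :=
  ∃ h : ∀ x ∈ U, φ x ∈ U, (φ.restrict h).charpoly = χ

/-- The characteristic polynomial of `φ` on the orthogonal complement in `P` of the vectors with the
property `C` is `χ`. -/
def CharPerp [FiniteDimensional K E] (B : E → E → K) (P : Submodule K E) (C : E → Prop)
    (φ : E →ₗ[K] E) (χ : K[X]) : Prop :=
  ∃ U : Submodule K E, IsOrth B P C U ∧ CharOn φ U χ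

end linear

section single

variable {k : Type u} [Field k] {𝒱 : VarClass k} {K : Type v} [Field K] (W : Weil.{u, v, w} 𝒱 K)
  {J : Type} (Y : J → 𝒱.Obj) [Fintype J]

/-- The same for the sum of the `H(Y a)` and the sum of the forms `Tr (x y)`, the vectors with the
property `C` being the classes of cycles. -/
def TCharPerp (P : Submodule K (Tot W Y)) (φ : TEnd W Y) (χ : K[X]) : Prop :=
  @CharPerp K _ (Tot W Y) _ _ (finite_tot W Y) (pairing W Y) P (IsCyc W Y) φ χ

/-- `φ` respects levels and degrees and commutes with `res`, `gys` and `L`. -/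
def Compat (lev : J → ℕ) (res gys L φ : TEnd W Y) : Prop :=
  LevBidegree W Y lev 0 0 φ ∧ ComT W Y φ res ∧ ComT W Y φ gys ∧ ComT W Y φ L

end single

variable {k : Type u} [Field k] {𝒱 : VarClass k} {I : Type} {K : I → Type v} [∀ l, Field (K l)]
  {W : ∀ l, Weil.{u, v, w} 𝒱 (K l)}

namespace Strata

variable (X : Strata W) (l : I)

/-- `φ` respects levels and degrees and commutes with `res`, `gys` and `L`, for instance the
normalised Frobenius, which is `q ^ (- ⌈m / 2⌉)` times Frobenius on `H^m`, or the identity. -/
def CompatibleWith (φ : TEnd (W l) X.Y) : Prop :=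
  Compat (W l) X.Y X.lev (X.res l) (X.gys l) (X.L l) φ

/-- In the theory `l` there is no nonzero endomorphism of square zero of the primitive part
`(i, j)` which is self-adjoint for the form `Tr (x L^j y)` and is induced by a motivic endomorphism
of the sum of the `H(Y a)` commuting with `φ`. -/
def NoSquareZeroAt (φ : TEnd (W l) X.Y) (i j : ℕ) : Prop :=
  ∀ S : ∀ l, TEnd (W l) X.Y, Motivic W X.Y S → ComT (W l) X.Y φ (S l) →
    SqOn (pairing (W l) X.Y) (X.L l) (S l) (X.prim l i j) j

/-- The form `Tr (x L^j x)` has no zeros among the nonzero primitive classes of cycles of the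
primitive part `(i, j)` (the Hodge index theorem and homological equals numerical equivalence for
these classes). -/
def ClassIndexAt (i j : ℕ) : Prop :=
  NoZero (pairing (W l) X.Y) (X.L l) (X.prim l i j) (IsCyc (W l) X.Y) j

/-- `T i j` is the characteristic polynomial of `φ` on the transcendental part of the primitive part
`(i, j)`, the orthogonal complement of the classes of cycles, for `i + j ≤ n`. -/
def TransChar (φ : TEnd (W l) X.Y) (T : ℕ → ℕ → (K l)[X]) : Prop :=
  ∀ i j, i + j ≤ X.n → TCharPerp (W l) X.Y (X.prim l i j) φ (T i j)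

/-- The primitive part `(i, j)` is good: it has no self-adjoint endomorphisms of square zero, or the
index theorem holds for its classes of cycles and the eigenvalues of `φ` on its transcendental part
which are common with a neighbour are simple. -/
def Good (φ : TEnd (W l) X.Y) (T : ℕ → ℕ → (K l)[X]) (i j : ℕ) : Prop :=
  X.NoSquareZeroAt l φ i j ∨ (X.ClassIndexAt l i j ∧ SimpleNb X.n T i j)

end Strata

end Pool.Agent.H62S
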