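import Pool.Agent.W_MP_a3c811_h79.Newton

/-! The characteristic polynomial determines the traces of the powers. -/

noncomputable section

namespace Pool.Agent.H62S

open Module Polynomial

universe v w

theorem exists_traces (A : ℚ[X]) : ∃ τ : ℕ → ℚ, ∀ (K : Type v) [Field K] [CharZero K] (V : Type w)
    [AddCommGroup V] [Module K V] [FiniteDimensional K V] (θ : Module.End K V),
    θ.charpoly = A.map (algebraMap ℚ K) → ∀ m, LinearMap.trace K V (θ ^ m) = (τ m : K) := by
  by_cases hA : A.Monic
  · let pb := AdjoinRoot.powerBasis hA.ne_zero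
    let M : Matrix (Fin pb.dim) (Fin pb.dim) ℚ := Algebra.leftMulMatrix pb.basis pb.gen
    have hM : M.charpoly = A := by
      rw [charpoly_leftMulMatrix pb]
      change minpoly ℚ (AdjoinRoot.root A) = A
      rw [AdjoinRoot.minpoly_root hA.ne_zero, hA.leadingCoeff, inv_one, C_1, mul_one]
    refine ⟨fun m => (M ^ m).trace, ?_⟩
    intro K _ _ V _ _ _ θ hθ m
    let Ω := AlgebraicClosure K
    haveI : CharZero Ω := charZero_of_injective_algebraMap (algebraMap K Ω).injective
    have h1 := Pool.Agent.H79R.trace_pow_eq_roots (θ.baseChange Ω) m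
    rw [LinearMap.charpoly_baseChange, hθ, Polynomial.map_map] at h1
    let θ' : Module.End Ω (Fin pb.dim → Ω) := Matrix.toLin' (M.map (algebraMap ℚ Ω))
    have h2 := Pool.Agent.H79R.trace_pow_eq_roots θ' m
    have h3 : θ'.charpoly = A.map ((algebraMap K Ω).comp (algebraMap ℚ K)) := by
      change (Matrix.toLin' (M.map (algebraMap ℚ Ω))).charpoly = _
      rw [Matrix.charpoly_toLin', Matrix.charpoly_map, hM]
      congr 1
    rw [h3] at h2
    have h4 : LinearMap.trace Ω _ (θ' ^ m) = algebraMap ℚ Ω ((M ^ m).trace) := by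
      have h5 : θ' ^ m = Matrix.toLin' ((M ^ m).map (algebraMap ℚ Ω)) := by
        change (Matrix.toLin' (M.map (algebraMap ℚ Ω))) ^ m = _
        rw [← Matrix.toLin'_pow, Matrix.map_pow]
      rw [h5, Matrix.trace_toLin'_eq, AddMonoidHom.map_trace]
    have h6 : (θ.baseChange Ω) ^ m = (θ ^ m).baseChange Ω :=
      (map_pow (Module.End.baseChangeHom K Ω V) θ m).symm
    rw [h6, LinearMap.trace_baseChange] at h1
    apply (algebraMap K Ω).injective
    rw [h1, ← h2, h4, map_ratCast, eq_ratCast]
  · refine ⟨fun _ => 0, ?_⟩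
    intro K _ _ V _ _ _ θ hθ
    exact absurd (by
      have h1 := LinearMap.charpoly_monic θ
      rw [hθ] at h1
      exact monic_of_injective (algebraMap ℚ K).injective h1) hA

end Pool.Agent.H62S
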