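import Pool.Agent.W_MP_a3c811_h79.MF.GdY
import Pool.Agent.W_MP_a3c811_h79.MF.StT

/-! From the conditions of the statements to the abstract condition on the primitive parts. -/

noncomputable section

set_option linter.unusedSectionVars false

namespace Pool.Agent.H62S

open Module Polynomial Pool.Agent.WeilH_h6 Pool.Agent.WeilH_h6.VarClass Pool.Agent.H62D
  Pool.Agent.H62A Pool.Agent.H79L Pool.Agent.H62X Pool.Agent.H79E

universe u v w

variable {k : Type u} [Field k] {𝒱 : VarClass k} {I : Type} {K : I → Type v} [∀ l, Field (K l)]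
  [∀ l, CharZero (K l)] {W : ∀ l, Weil.{u, v, w} 𝒱 (K l)} {X : Strata W}

namespace Strata

variable {l : I} {φ : TEnd (W l) X.Y}

lemma CompatibleWith.com (h : X.CompatibleWith l φ) : Com X l φ :=
  com_of h.1 h.2.1 h.2.2.1 h.2.2.2

/-- the identity is compatible -/
lemma compatibleWith_id : X.CompatibleWith l LinearMap.id := by
  refine ⟨⟨fun w x hx => ?_, fun p x hx => ?_⟩, fun x => rfl, fun x => rfl, fun x => rfl⟩
  · rw [add_zero]; exact hx
  · rw [add_zero]; exact hx

lemma TransChar.hasCP {T : ℕ → ℕ → (K l)[X]} (hT : X.TransChar l φ T) (i j : ℕ)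
    (hij : i + j ≤ X.n) : HasCP φ (X.tpart l i j) (T i j) := by
  obtain ⟨U, hU, h⟩ := hT i j hij
  have e1 : U = X.tpart l i j := by
    ext x
    exact hU x
  subst e1
  exact h

variable [DecidableEq X.J] (hW : Compatible W) (hφ : X.CompatibleWith l φ)
include hφ

/-- the good primitive parts -/
theorem gd_good {T : ℕ → ℕ → (K l)[X]} (hT : X.TransChar l φ T) {i j : ℕ}
    (h : X.Good l φ T i j) :
    Gd (K := K l) (E := Tot (W l) X.EY) (X.eN l) (X.eNd l) (X.eL l) (X.eLam l) (X.ed l) X.n
      (posProj (W l) X.EY X.epos) (degProj (W l) X.EY X.epos X.etw) (X.eS l)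
      (X.bring l (X.aring l hW φ) (yring_aring hW hφ.com).pos) i j := by
  have hY := yring_aring hW hφ.com
  rcases h with h | ⟨h1, h2⟩
  · refine gd_of hY hW ?_
    intro U hU hm hs hsq
    obtain ⟨⟨V, hV, rfl⟩, hc, -⟩ := (mem_aring hW).1 hU
    exact h V hV (fun x => LinearMap.congr_fun hc x) hm hs hsq
  · refine gd_simple hY (class_aring hW) hW (com_aring hW) (R := T) h1
      (fun i j hij => hT.hasCP i j hij) ?_
    rintro q hq hqd ⟨i', j', hij', hn, hqd'⟩
    exact h2 i' j' hij' hn q hq hqd hqd'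

end Strata

end Pool.Agent.H62S
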